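import Pool.Agent.GTH.SFG

/-!
# G-theories: classes of rings with the closure properties of finite generation
-/

set_option autoImplicit false

open Function

namespace Pool.Agent.GTH

universe u

/-- Closure properties of the class of the noetherian rings with finitely generated groups. -/
structure Cls (G : (R : Type) → [CommRing R] → Prop) : Prop where
  iso : ∀ (R S : Type) [CommRing R] [IsNoetherianRing R] [CommRing S] [IsNoetherianRing S],
    (R ≃+* S) → G R → G S
  zero : ∀ (R : Type) [CommRing R] [Subsingleton R], G R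
  mv : ∀ (R : Type) [CommRing R] [IsNoetherianRing R] (σ : Type) [Finite σ], G R →
    G (MvPolynomial σ R)
  away : ∀ (R V : Type) [CommRing R] [IsNoetherianRing R] [CommRing V] [Algebra R V] (s : R)
    [IsLocalization.Away s V], G R → G (R ⧸ Ideal.span {s}) → G V
  of_away : ∀ (R V : Type) [CommRing R] [IsNoetherianRing R] [CommRing V] [Algebra R V] (s : R)
    [IsLocalization.Away s V], G (R ⧸ Ideal.span {s}) → G V → G R
  of_lau : ∀ (R V : Type) [CommRing R] [IsNoetherianRing R] [CommRing V]
    [Algebra (Polynomial R) V] [IsLocalization.Away (Polynomial.X : Polynomial R) V], G V → G R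

theorem isLoc_alg {R V : Type} [CommRing R] [CommRing V] [Algebra R V] (s : R)
    [h : IsLocalization.Away s V] : IsLoc s (Ideal.Quotient.mk (Ideal.span {s}))
      (algebraMap R V) := by
  refine ⟨Ideal.Quotient.mk_surjective, Ideal.mk_ker, ?_⟩
  have h1 : (algebraMap R V).toAlgebra = (inferInstance : Algebra R V) := by
    apply Algebra.algebra_ext
    intro r
    rfl
  rw [h1]
  exact h

theorem noeth_away {R V : Type} [CommRing R] [IsNoetherianRing R] [CommRing V] [Algebra R V]
    (s : R) [IsLocalization.Away s V] : IsNoetherianRing V :=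
  IsLocalization.isNoetherianRing (Submonoid.powers s) V inferInstance

/-- the groups in degrees at most `M` are in a Serre class -/
theorem cls_SFG {N : WithTop ℤ} (𝒯 : GTheory.{u} N) {𝒮 : (G : Type u) → [AddCommGroup G] → Prop}
    (h𝒮 : Serre 𝒮) (M : ℤ) : Cls (fun R _ => SFG 𝒯 𝒮 M R) where
  iso R S _ _ _ _ e h := (SFG.equiv h𝒮 e).1 h
  zero R _ _ := SFG.of_subsingleton h𝒮
  mv R _ _ σ _ h := (SFG.mv h𝒮 σ).1 h
  away R V _ _ _ _ s _ h h' := by
    have := noeth_away (V := V) s
    exact SFG.loc h𝒮 (isLoc_alg s) h h'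
  of_away R V _ _ _ _ s _ h h' := by
    have := noeth_away (V := V) s
    exact SFG.of_loc h𝒮 (isLoc_alg s) h h'
  of_lau R V _ _ _ _ _ h := by
    have := noeth_away (V := V) (Polynomial.X : Polynomial R)
    have h1 := isLoc_alg (V := V) (Polynomial.X : Polynomial R)
    have h2 : SFG.IsLau (algebraMap (Polynomial R) V) := by
      refine isLoc_mk (fun a => ⟨Polynomial.C a, by simp⟩) (fun p => ?_) h1.unit h1.surjL h1.eqL
      rw [Polynomial.constantCoeff_apply, ← Polynomial.X_dvd_iff]
      rfl
    exact (SFG.lau h𝒮 h2).1 h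

namespace Cls

variable {G : (R : Type) → [CommRing R] → Prop} (hG : Cls G)

include hG

theorem polynomial {R : Type} [CommRing R] [IsNoetherianRing R] (h : G R) : G (Polynomial R) :=
  hG.iso _ _ (MvPolynomial.pUnitAlgEquiv R).toRingEquiv (hG.mv R PUnit h)

/-- quotients of a ring all of whose quotients are good -/
theorem of_surj {R S : Type} [CommRing R] [IsNoetherianRing R] [CommRing S]
    (h : ∀ I : Ideal R, G (R ⧸ I)) (f : R →+* S) (hf : Surjective f) : G S := by
  have : IsNoetherianRing S := isNoetherianRing_of_surjective _ _ f hf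
  exact hG.iso _ _ (RingHom.quotientKerEquivOfSurjective hf) (h _)

/-- a ring homomorphism which becomes an isomorphism after inverting `s` -/
theorem almost_iso {T' T : Type} [CommRing T'] [CommRing T]
    (g : T' →+* T) (s' : T') (s : T) (hs : g s' = s)
    (h1 : ∀ t : T, ∃ (m : ℕ) (t' : T'), s ^ m * t = g t')
    (h2 : ∀ t' : T', g t' = 0 → ∃ m : ℕ, s' ^ m * t' = 0) :
    @IsLocalization.Away T' _ s' (Localization.Away s) _
      ((algebraMap T (Localization.Away s)).comp g).toAlgebra := by
  letI : Algebra T' (Localization.Away s) :=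
    ((algebraMap T (Localization.Away s)).comp g).toAlgebra
  have halg : ∀ t', algebraMap T' (Localization.Away s) t' =
    algebraMap T (Localization.Away s) (g t') := fun t' => rfl
  refine { map_units := ?_, surj := ?_, exists_of_eq := ?_ }
  · rintro ⟨_, n, rfl⟩
    rw [halg]
    show IsUnit (algebraMap T (Localization.Away s) (g (s' ^ n)))
    rw [map_pow, hs, map_pow]
    exact (IsLocalization.Away.algebraMap_isUnit s).pow n
  · intro z
    obtain ⟨n, t, hz⟩ := IsLocalization.Away.surj s z
    obtain ⟨m, t', ht⟩ := h1 t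
    refine ⟨(t', ⟨s' ^ (n + m), n + m, rfl⟩), ?_⟩
    rw [halg, halg]
    show z * algebraMap T (Localization.Away s) (g (s' ^ (n + m))) = _
    rw [map_pow, hs, map_pow, pow_add, ← mul_assoc, hz, ← map_pow, ← map_mul, mul_comm t, ht]
  · intro x y hxy
    rw [halg, halg] at hxy
    obtain ⟨⟨_, n, rfl⟩, hc⟩ := (IsLocalization.eq_iff_exists (Submonoid.powers s) _).1 hxy
    have hc' : s ^ n * g x = s ^ n * g y := hc
    have h3 : g (s' ^ n * (x - y)) = 0 := by
      rw [map_mul, map_pow, hs, map_sub, mul_sub, hc', sub_self]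
    obtain ⟨m, hm⟩ := h2 _ h3
    refine ⟨⟨s' ^ (m + n), m + n, rfl⟩, ?_⟩
    show s' ^ (m + n) * x = s' ^ (m + n) * y
    rw [← sub_eq_zero, ← mul_sub, pow_add, mul_assoc]
    exact hm

/-- the localisation of `T` is good if `T'`, `T' / s'` are good -/
theorem of_almost_iso {T' T : Type} [CommRing T'] [CommRing T] [IsNoetherianRing T']
    (g : T' →+* T) (s' : T') (s : T) (hs : g s' = s)
    (h1 : ∀ t : T, ∃ (m : ℕ) (t' : T'), s ^ m * t = g t')
    (h2 : ∀ t' : T', g t' = 0 → ∃ m : ℕ, s' ^ m * t' = 0) (h : G T')
    (h' : G (T' ⧸ Ideal.span {s'})) : G (Localization.Away s) := by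
  letI : Algebra T' (Localization.Away s) :=
    ((algebraMap T (Localization.Away s)).comp g).toAlgebra
  haveI : IsLocalization.Away s' (Localization.Away s) := almost_iso hG g s' s hs h1 h2
  exact hG.away T' _ s' h h'

/-- gluing along a ring homomorphism which becomes an isomorphism after inverting `s` -/
theorem glue {T' T : Type} [CommRing T'] [CommRing T] [IsNoetherianRing T']
    [IsNoetherianRing T] (g : T' →+* T) (s' : T') (s : T) (hs : g s' = s)
    (h1 : ∀ t : T, ∃ (m : ℕ) (t' : T'), s ^ m * t = g t')
    (h2 : ∀ t' : T', g t' = 0 → ∃ m : ℕ, s' ^ m * t' = 0)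
    (hq : G (T' ⧸ Ideal.span {s'})) (h : G T) (h' : G (T ⧸ Ideal.span {s})) : G T' := by
  letI : Algebra T' (Localization.Away s) :=
    ((algebraMap T (Localization.Away s)).comp g).toAlgebra
  haveI : IsLocalization.Away s' (Localization.Away s) := almost_iso hG g s' s hs h1 h2
  exact hG.of_away T' (Localization.Away s) s' hq (hG.away T _ s h h')

/-- `R[X] / X` -/
theorem polynomial_quot {R : Type} [CommRing R] [IsNoetherianRing R] (h : G R) :
    G (Polynomial R ⧸ Ideal.span {(Polynomial.X : Polynomial R)}) := by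
  have h1 : RingHom.ker (Polynomial.constantCoeff : Polynomial R →+* R) =
      Ideal.span {(Polynomial.X : Polynomial R)} := by
    ext p
    rw [RingHom.mem_ker, Polynomial.constantCoeff_apply, ← Polynomial.X_dvd_iff,
      Ideal.mem_span_singleton]
  have h2 : Surjective (Polynomial.constantCoeff : Polynomial R →+* R) :=
    fun a => ⟨Polynomial.C a, by simp⟩
  exact hG.iso _ _ ((Ideal.quotEquivOfEq h1.symm).trans
    (RingHom.quotientKerEquivOfSurjective h2)).symm h

end Cls

end Pool.Agent.GTH
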