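import Pool.Agent.GTH.Good

/-!
# G-theories: finitely generated groups
-/

set_option autoImplicit false

open Function

namespace Pool.Agent.GTH

universe u

/-- A Serre class of abelian groups: it contains the trivial groups, and the middle term of an exact
sequence of three terms whose outer terms are in the class (so it is closed under subgroups,
quotients and extensions). -/
structure Serre (𝒮 : (G : Type u) → [AddCommGroup G] → Prop) : Prop where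
  zero : ∀ (G : Type u) [AddCommGroup G] [Subsingleton G], 𝒮 G
  exact : ∀ (G G' G'' : Type u) [AddCommGroup G] [AddCommGroup G'] [AddCommGroup G'']
    (f : G →+ G') (g : G' →+ G''), (∀ x, g x = 0 ↔ ∃ y, f y = x) → 𝒮 G → 𝒮 G'' → 𝒮 G'

namespace Serre

variable {𝒮 : (G : Type u) → [AddCommGroup G] → Prop} (h𝒮 : Serre 𝒮)
  {G G' : Type u} [AddCommGroup G] [AddCommGroup G']

include h𝒮

theorem of_inj (f : G →+ G') (h : ∀ x, f x = 0 → x = 0) (h1 : 𝒮 G') : 𝒮 G := by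
  refine h𝒮.exact PUnit G G' 0 f (fun x => ⟨fun hx => ⟨0, (h x hx).symm⟩, ?_⟩)
    (h𝒮.zero PUnit) h1
  rintro ⟨y, hy⟩
  rw [← hy]
  exact map_zero f

theorem of_surj (f : G →+ G') (h : Surjective f) (h1 : 𝒮 G) : 𝒮 G' :=
  h𝒮.exact G G' PUnit f 0 (fun x => ⟨fun _ => h x, fun _ => rfl⟩) h1 (h𝒮.zero PUnit)

theorem of_bij (f : G →+ G') (h : Bijective f) : 𝒮 G ↔ 𝒮 G' :=
  ⟨h𝒮.of_surj f h.2, h𝒮.of_inj f fun _ hx => h.1 (hx.trans (map_zero f).symm)⟩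

theorem prod (h1 : 𝒮 G) (h2 : 𝒮 G') : 𝒮 (G × G') := by
  refine h𝒮.exact G (G × G') G' (AddMonoidHom.inl G G') (AddMonoidHom.snd G G') (fun x => ?_)
    h1 h2
  constructor
  · intro hx
    exact ⟨x.1, Prod.ext rfl hx.symm⟩
  · rintro ⟨y, rfl⟩
    rfl

end Serre

section Groups

variable {G G' G'' : Type u} [AddCommGroup G] [AddCommGroup G'] [AddCommGroup G'']

theorem fg_iff_noeth : AddGroup.FG G ↔ IsNoetherian ℤ G := by
  rw [← Module.Finite.iff_addGroup_fg]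
  exact ⟨fun _ => inferInstance, fun _ => inferInstance⟩

theorem fg_of_exact (f : G →+ G') (g : G' →+ G'') (h : ∀ x, g x = 0 ↔ ∃ y, f y = x)
    (h1 : AddGroup.FG G) (h2 : AddGroup.FG G'') : AddGroup.FG G' := by
  rw [fg_iff_noeth] at h1 h2 ⊢
  refine isNoetherian_of_range_eq_ker f.toIntLinearMap g.toIntLinearMap ?_
  ext x
  exact (h x).symm

/-- the finitely generated abelian groups are a Serre class -/
theorem serre_fg : Serre (fun (G : Type u) _ => AddGroup.FG G) where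
  zero G _ _ := by
    have : Finite G := Finite.of_subsingleton
    infer_instance
  exact G G' G'' _ _ _ f g h h1 h2 := fg_of_exact f g h h1 h2

end Groups

variable {N : WithTop ℤ} (𝒯 : GTheory.{u} N) (𝒮 : (G : Type u) → [AddCommGroup G] → Prop)

/-- `T n R` is in the class `𝒮` for all `n ≤ M` -/
def SFG (M : ℤ) (R : Type) [CommRing R] : Prop := ∀ n : ℤ, n ≤ M → 𝒮 (𝒯.T n R)

namespace SFG

variable {𝒯 𝒮} (h𝒮 : Serre 𝒮) {M : ℤ} {A B C L : Type} [CommRing A] [IsNoetherianRing A] [CommRing B]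
  [IsNoetherianRing B] [CommRing C] [IsNoetherianRing C] [CommRing L] [IsNoetherianRing L]

include h𝒮

theorem iff_of_HI {φ : A →+* B} (h : 𝒯.HI φ) : SFG 𝒯 𝒮 M A ↔ SFG 𝒯 𝒮 M B :=
  forall₂_congr fun n _ => h𝒮.of_bij _ (h.2 n)

theorem equiv (e : A ≃+* B) : SFG 𝒯 𝒮 M A ↔ SFG 𝒯 𝒮 M B := iff_of_HI h𝒮 (GTheory.HI.equiv e)

theorem of_subsingleton [Subsingleton A] : SFG 𝒯 𝒮 M A := by
  intro n _
  have : Subsingleton (𝒯.T n A) :=
    ⟨fun x y => (GTheory.subsingleton_T n x).trans (GTheory.subsingleton_T n y).symm⟩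
  exact h𝒮.zero _

theorem poly : SFG 𝒯 𝒮 M A ↔ SFG 𝒯 𝒮 M (Polynomial A) := iff_of_HI h𝒮 GTheory.HI.polynomial

theorem mv (σ : Type) [Finite σ] : SFG 𝒯 𝒮 M A ↔ SFG 𝒯 𝒮 M (MvPolynomial σ A) :=
  iff_of_HI h𝒮 (GTheory.HI.mvPolynomial σ A)

/-- `A / s` and `A[1/s]` give `A` -/
theorem of_loc {s : A} {π : A →+* C} {l : A →+* L} (h : IsLoc s π l) (h1 : SFG 𝒯 𝒮 M C)
    (h2 : SFG 𝒯 𝒮 M L) : SFG 𝒯 𝒮 M A := fun n hn =>
  h𝒮.exact _ _ _ (𝒯.push n π) (𝒯.pull n l) (𝒯.exA n h) (h1 n hn) (h2 n hn)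

/-- one degree: `A` and `A / s` give `A[1/s]` -/
theorem loc_deg {s : A} {π : A →+* C} {l : A →+* L} (h : IsLoc s π l) (n : ℤ)
    (h1 : 𝒮 (𝒯.T n A)) (h2 : 𝒮 (𝒯.T (n - 1) C)) : 𝒮 (𝒯.T n L) :=
  h𝒮.exact _ _ _ (𝒯.pull n l) (𝒯.bd n (n - 1) s π l) (𝒯.exL n (n - 1) (by omega) h) h1 h2

/-- `A` and `A / s` give `A[1/s]` -/
theorem loc {s : A} {π : A →+* C} {l : A →+* L} (h : IsLoc s π l) (h1 : SFG 𝒯 𝒮 M A)
    (h2 : SFG 𝒯 𝒮 M C) : SFG 𝒯 𝒮 M L := fun n hn => loc_deg h𝒮 h n (h1 n hn) (h2 (n - 1) (by omega))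

/-- one degree: `A[1/s]` and `A` give `A / s` -/
theorem quot_deg {s : A} {π : A →+* C} {l : A →+* L} (h : IsLoc s π l) (n : ℤ)
    (hn : (n : WithTop ℤ) < N) (h1 : 𝒮 (𝒯.T (n + 1) L))
    (h2 : 𝒮 (𝒯.T n A)) : 𝒮 (𝒯.T n C) :=
  h𝒮.exact _ _ _ (𝒯.bd (n + 1) n s π l) (𝒯.push n π) (𝒯.exC (n + 1) n rfl hn h) h1 h2

/-- `A[1/s]` (in one more degree) and `A` give `A / s` -/
theorem quot {s : A} {π : A →+* C} {l : A →+* L} (h : IsLoc s π l) (hM : (M : WithTop ℤ) < N)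
    (h1 : SFG 𝒯 𝒮 (M + 1) L) (h2 : SFG 𝒯 𝒮 M A) : SFG 𝒯 𝒮 M C := fun n hn =>
  quot_deg h𝒮 h n (lt_of_le_of_lt (WithTop.coe_le_coe.2 hn) hM) (h1 (n + 1) (by omega)) (h2 n hn)

omit h𝒮 in
theorem mono {M' : ℤ} (h : M' ≤ M) (h1 : SFG 𝒯 𝒮 M A) : SFG 𝒯 𝒮 M' A :=
  fun n hn => h1 n (hn.trans h)

/-! ### Laurent polynomials -/

/-- the class of `A[t, 1/t]`, `t = X` -/
def IsLau (l : Polynomial A →+* L) : Prop :=
  IsLoc (Polynomial.X : Polynomial A) (Polynomial.constantCoeff : Polynomial A →+* A) l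

omit h𝒮 in
theorem isLau_std : IsLau (algebraMap (Polynomial A) (Localization.Away
    (Polynomial.X : Polynomial A))) := by
  have h := isLoc_std (Polynomial.X : Polynomial A)
  refine isLoc_mk (fun a => ⟨Polynomial.C a, by simp⟩) (fun p => ?_) h.unit h.surjL h.eqL
  rw [Polynomial.constantCoeff_apply, ← Polynomial.X_dvd_iff]
  rfl

/-- one degree: `A[t, 1/t]` gives `A` -/
theorem of_lau_deg {l : Polynomial A →+* L} (h : IsLau l) (n : ℤ)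
    (h1 : 𝒮 (𝒯.T n L)) : 𝒮 (𝒯.T n A) := by
  rw [h𝒮.of_bij _ (𝒯.homotopy n)]
  refine h𝒮.of_inj (𝒯.pull n l) (fun x hx => ?_) h1
  obtain ⟨y, hy⟩ := (𝒯.exA n h x).1 hx
  rw [← hy]
  exact 𝒯.push_zero n y

/-- one degree: `A[t, 1/t]` in degree `n + 1` gives `A` in degree `n` -/
theorem of_lau_succ {l : Polynomial A →+* L} (h : IsLau l) (n : ℤ) (hn : (n : WithTop ℤ) < N)
    (h1 : 𝒮 (𝒯.T (n + 1) L)) : 𝒮 (𝒯.T n A) := by
  refine h𝒮.of_surj (𝒯.bd (n + 1) n Polynomial.X Polynomial.constantCoeff l) (fun x => ?_) h1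
  exact (𝒯.exC (n + 1) n rfl hn h x).1 (𝒯.push_zero n x)

theorem lau {l : Polynomial A →+* L} (h : IsLau l) : SFG 𝒯 𝒮 M L ↔ SFG 𝒯 𝒮 M A :=
  ⟨fun h1 n hn => of_lau_deg h𝒮 h n (h1 n hn), fun h1 => loc h𝒮 h ((poly h𝒮).1 h1) h1⟩

end SFG

end Pool.Agent.GTH
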