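import Pool.Agent.GTH.Good
import Pool.Agent.Helper83.Bass.Free
import Pool.Agent.Helper83.Bass.Cubic

/-!
# G-theories: every finitely generated algebra and a smooth affine cubic
-/

set_option autoImplicit false

open Function

namespace Pool.Agent.GTH

universe u

section Iso

variable {k : Type} [CommRing k] {τ σ : Type} [Fintype σ] (g : σ → MvPolynomial τ k)

open Pool.Agent.Helper83.Bass in
/-- the ring of the cubic is `W` -/
theorem exists_equiv_W : Nonempty (Pool.Agent.Helper83.Bass.WR g ≃+* WR g) := by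
  have hrel : (qT (qf g)) ^ 2 - qT (qf g) =
      ∑ j, qC (qf g) (MvPolynomial.X j) * wC g (g j) := by
    rw [sq, qT_mul, add_sub_cancel_right]
    have h1 : qf g = ∑ j, MvPolynomial.C (g j) * MvPolynomial.X j := rfl
    conv_lhs => arg 2; rw [h1]
    rw [map_sum]
    refine Finset.sum_congr rfl fun j _ => ?_
    rw [map_mul, mul_comm]
    rfl
  obtain ⟨F, hF1, hF2, hF3⟩ := exists_lift g (wC g) (fun j => qC (qf g) (MvPolynomial.X j))
    (qT (qf g)) hrel
  have hrel2 : tW g * tW g = (MvPolynomial.eval₂Hom (algebraMap (MvPolynomial τ k)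
      (Pool.Agent.Helper83.Bass.WR g)) (yW g)) (qf g) + tW g := by
    have h1 := tW_rel g
    have h2 : (MvPolynomial.eval₂Hom (algebraMap (MvPolynomial τ k)
      (Pool.Agent.Helper83.Bass.WR g)) (yW g)) (qf g) =
        ∑ j, yW g j * algebraMap (MvPolynomial τ k) (Pool.Agent.Helper83.Bass.WR g) (g j) := by
      unfold qf
      rw [map_sum]
      refine Finset.sum_congr rfl fun j _ => ?_
      rw [map_mul, MvPolynomial.coe_eval₂Hom, MvPolynomial.eval₂_C, MvPolynomial.eval₂_X, mul_comm]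
    rw [h2, ← h1]
    ring
  have hG1 : ∀ a, qlift _ _ hrel2 (wC g a) = algebraMap (MvPolynomial τ k)
      (Pool.Agent.Helper83.Bass.WR g) a := by
    intro a
    show qlift _ _ hrel2 (qC _ (MvPolynomial.C a)) = _
    rw [qlift_C, MvPolynomial.coe_eval₂Hom, MvPolynomial.eval₂_C]
  have hG2 : ∀ j, qlift _ _ hrel2 (qC (qf g) (MvPolynomial.X j)) = yW g j := by
    intro j
    rw [qlift_C, MvPolynomial.coe_eval₂Hom, MvPolynomial.eval₂_X]
  have h1 : (qlift _ _ hrel2).comp F = RingHom.id _ := by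
    refine hom_ext_W g (fun a => ?_) (fun j => ?_) ?_
    · rw [RingHom.comp_apply, hF1, hG1]
      rfl
    · rw [RingHom.comp_apply, hF2, hG2]
      rfl
    · rw [RingHom.comp_apply, hF3, qlift_T]
      rfl
  have h2 : F.comp (qlift _ _ hrel2) = RingHom.id _ := by
    refine q_hom_ext (MvPolynomial.ringHom_ext (fun a => ?_) (fun j => ?_)) ?_
    · show F (qlift _ _ hrel2 (wC g a)) = _
      rw [hG1, hF1]
      rfl
    · show F (qlift _ _ hrel2 (qC (qf g) (MvPolynomial.X j))) = _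
      rw [hG2, hF2]
      rfl
    · rw [RingHom.comp_apply, qlift_T, hF3]
      rfl
  exact ⟨RingEquiv.ofRingHom F (qlift _ _ hrel2) h2 h1⟩

end Iso

/-- (A): every finitely generated algebra -/
theorem thm_A (k : Type) [CommRing k] [IsNoetherianRing k] (B : Type) [CommRing B] [Algebra k B]
    [Algebra.FiniteType k B] :
    ∃ (ι : Type) (_ : Fintype ι) (f : MvPolynomial ι k), f.totalDegree ≤ 3 ∧
      Algebra.Smooth k (MvPolynomial ι k ⧸ Ideal.span {f}) ∧
      ∀ (N : WithTop ℤ) (𝒯 : GTheory.{u} N) (n : ℤ),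
        ((n : WithTop ℤ) ≤ N → ∃ φ : 𝒯.T n k × 𝒯.T n B →+
          𝒯.T n (MvPolynomial ι k ⧸ Ideal.span {f}), Surjective φ) ∧
        ((n : WithTop ℤ) < N →
          Nonempty (𝒯.T n (MvPolynomial ι k ⧸ Ideal.span {f}) ≃+ 𝒯.T n k × 𝒯.T n B)) := by
  obtain ⟨τ, _, r, π, g, hπ, hker, hdeg⟩ := Pool.Agent.Helper83.Bass.exists_quad (k := k) B
  refine ⟨τ ⊕ Fin r ⊕ Unit, inferInstance, Pool.Agent.Helper83.Bass.cub g,
    Pool.Agent.Helper83.Bass.totalDegree_cub g hdeg, Pool.Agent.Helper83.Bass.smooth_WW g, ?_⟩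
  intro N 𝒯 n
  have hB : IsNoetherianRing B := isNoetherianRing_of_surjective _ _ π.toRingHom hπ
  obtain ⟨e⟩ := exists_equiv_W g
  obtain ⟨h1, h2⟩ := good 𝒯 g π.toRingHom hπ hker
  have hI : 𝒯.HI (e : Pool.Agent.Helper83.Bass.WR g →+* WR g) := by
    have : IsNoetherianRing (Pool.Agent.Helper83.Bass.WR g) :=
      isNoetherianRing_of_ringEquiv _ e.symm
    exact GTheory.HI.equiv e
  have hII : Nonempty (𝒯.T n (MvPolynomial (τ ⊕ Fin r ⊕ Unit) k ⧸
      Ideal.span {Pool.Agent.Helper83.Bass.cub g}) ≃+ 𝒯.T n (WR g)) :=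
    ⟨AddEquiv.ofBijective _ (hI.2 n)⟩
  obtain ⟨E⟩ := hII
  have hk := (GTheory.HI.mvPolynomial (𝒯 := 𝒯) τ k).2 n
  let K : 𝒯.T n k ≃+ 𝒯.T n (MvPolynomial τ k) := AddEquiv.ofBijective _ hk
  refine ⟨fun hn => ?_, fun hn => ?_⟩
  · obtain ⟨f, hf⟩ := h1 n hn
    refine ⟨(E.symm.toAddMonoidHom.comp f).comp
      (AddMonoidHom.prodMap K.toAddMonoidHom (AddMonoidHom.id _)), ?_⟩
    refine E.symm.surjective.comp (hf.comp ?_)
    rintro ⟨a, b⟩
    obtain ⟨a', ha'⟩ := K.surjective a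
    exact ⟨(a', b), Prod.ext ha' rfl⟩
  · obtain ⟨f⟩ := h2 n hn
    exact ⟨E.trans (f.trans (AddEquiv.prodCongr K.symm (AddEquiv.refl _)))⟩

/-- the isomorphism of (A) for a given presentation -/
theorem thm_A_aux (k : Type) [CommRing k] [IsNoetherianRing k] (B : Type) [CommRing B]
    [Algebra k B] {τ σ : Type} [Fintype τ] [Fintype σ] (π : MvPolynomial τ k →ₐ[k] B)
    (g : σ → MvPolynomial τ k) (hπ : Surjective π)
    (hker : RingHom.ker π.toRingHom = Ideal.span (Set.range g)) {N : WithTop ℤ}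
    (𝒯 : GTheory.{u} N) (n : ℤ) (hn : (n : WithTop ℤ) < N) :
    Nonempty (𝒯.T n (MvPolynomial (τ ⊕ σ ⊕ Unit) k ⧸
      Ideal.span {Pool.Agent.Helper83.Bass.cub g}) ≃+ 𝒯.T n k × 𝒯.T n B) := by
  have hB : IsNoetherianRing B := isNoetherianRing_of_surjective _ _ π.toRingHom hπ
  obtain ⟨e⟩ := exists_equiv_W g
  obtain ⟨h1, h2⟩ := good 𝒯 g π.toRingHom hπ hker
  have hI : 𝒯.HI (e : Pool.Agent.Helper83.Bass.WR g →+* WR g) := by
    have : IsNoetherianRing (Pool.Agent.Helper83.Bass.WR g) :=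
      isNoetherianRing_of_ringEquiv _ e.symm
    exact GTheory.HI.equiv e
  have hII : Nonempty (𝒯.T n (MvPolynomial (τ ⊕ σ ⊕ Unit) k ⧸
      Ideal.span {Pool.Agent.Helper83.Bass.cub g}) ≃+ 𝒯.T n (WR g)) :=
    ⟨AddEquiv.ofBijective _ (hI.2 n)⟩
  obtain ⟨E⟩ := hII
  have hk := (GTheory.HI.mvPolynomial (𝒯 := 𝒯) τ k).2 n
  let K : 𝒯.T n k ≃+ 𝒯.T n (MvPolynomial τ k) := AddEquiv.ofBijective _ hk
  obtain ⟨f⟩ := h2 n hn
  exact ⟨E.trans (f.trans (AddEquiv.prodCongr K.symm (AddEquiv.refl _)))⟩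

end Pool.Agent.GTH
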