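import Pool.Agent.GTH.Hom
import Pool.Agent.GTH.Cub
import Pool.Agent.BassH.CubFG
import Pool.Agent.BassH.Hier

/-!
# G-theories: from affine space to trilinear hypersurfaces and smooth cubics
-/

set_option autoImplicit false
set_option linter.unusedSectionVars false

open Function

namespace Pool.Agent.GTH

universe u

open BassH (triF cubF triφ triφ_hom triEquiv triEquiv_triF cgj cubEquiv linEquiv linEquiv_cgj
  TriRing CubRing CompRing)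
open Pool.Agent.Helper67.Bass (LI bilForm)
open MvPolynomial

theorem Cls.tri {G : (R : Type) → [CommRing R] → Prop} (hG : Cls G) (k : Type) [CommRing k]
    [IsNoetherianRing k] (n : ℕ)
    (hk : ∀ I : Ideal (MvPolynomial (Fin n) k), G (MvPolynomial (Fin n) k ⧸ I))
    (b c : ℕ) (t : Fin (n + 1) → Fin b → Fin c → k) : G (TriRing t) := by
  have h1 := (hG.thm_Lin k (n + 1) (hG.thm_Hom k n hk) b c (triφ t) (triφ_hom t)).2
  refine hG.iso _ _ (Ideal.quotientEquiv (Ideal.span {triF t})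
    (Ideal.span {bilForm (triφ t)}) (triEquiv k (n + 1) b c) ?_).symm h1
  rw [Ideal.map_span, Set.image_singleton]
  show _ = Ideal.span {triEquiv k (n + 1) b c (triF t)}
  rw [triEquiv_triF]

/-- the ring `B` of the cubic -/
theorem Cls.cubB {G : (R : Type) → [CommRing R] → Prop} (hG : Cls G) (k : Type) [CommRing k]
    [IsNoetherianRing k] (n : ℕ)
    (hk : ∀ I : Ideal (MvPolynomial (Fin n) k), G (MvPolynomial (Fin n) k ⧸ I))
    (b c : ℕ) (t : Fin (n + 1) → Fin b → Fin c → k) :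
    G (MvPolynomial (Fin (n + 1) ⊕ Fin c) k ⧸ Ideal.span (Set.range (cgj t))) := by
  have h1 := (hG.thm_Lin k (n + 1) (hG.thm_Hom k n hk) b c (triφ t) (triφ_hom t)).1
  refine hG.iso _ _ (Ideal.quotientEquiv (Ideal.span (Set.range (cgj t)))
    (LI (⊥ : Ideal (MvPolynomial (Fin (n + 1)) k)) (triφ t)) (linEquiv k (n + 1) c) ?_).symm h1
  rw [Ideal.map_span]
  unfold LI
  rw [Ideal.map_bot, bot_sup_eq]
  congr 1
  ext x
  constructor
  · rintro ⟨j, rfl⟩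
    exact ⟨cgj t j, ⟨j, rfl⟩, linEquiv_cgj t j⟩
  · rintro ⟨_, ⟨j, rfl⟩, rfl⟩
    exact ⟨j, (linEquiv_cgj t j).symm⟩

/-- the groups of the cubic -/
theorem cub_groups {N : WithTop ℤ} (𝒯 : GTheory.{u} N) (k : Type) [CommRing k]
    [IsNoetherianRing k] {a b c : ℕ} (t : Fin a → Fin b → Fin c → k) (n : ℤ) :
    ((n : WithTop ℤ) ≤ N → ∃ f : 𝒯.T n k × 𝒯.T n (MvPolynomial (Fin a ⊕ Fin c) k ⧸
      Ideal.span (Set.range (cgj t))) →+ 𝒯.T n (CubRing t), Surjective f) ∧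
    ((n : WithTop ℤ) < N → Nonempty (𝒯.T n (CubRing t) ≃+ 𝒯.T n k ×
      𝒯.T n (MvPolynomial (Fin a ⊕ Fin c) k ⧸ Ideal.span (Set.range (cgj t))))) := by
  obtain ⟨e⟩ := exists_equiv_W (cgj t)
  have hI : 𝒯.HI (e : Pool.Agent.Helper83.Bass.WR (cgj t) →+* WR (cgj t)) := by
    have : IsNoetherianRing (Pool.Agent.Helper83.Bass.WR (cgj t)) :=
      isNoetherianRing_of_ringEquiv _ e.symm
    exact GTheory.HI.equiv e
  have hnW : IsNoetherianRing (Pool.Agent.Helper83.Bass.WW (cgj t)) :=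
    isNoetherianRing_of_ringEquiv _ e.symm
  have hJ : 𝒯.HI ((cubEquiv t).toRingEquiv : Pool.Agent.Helper83.Bass.WW (cgj t) →+* CubRing t) :=
    GTheory.HI.equiv (cubEquiv t).toRingEquiv
  let E : 𝒯.T n (Pool.Agent.Helper83.Bass.WR (cgj t)) ≃+ 𝒯.T n (WR (cgj t)) :=
    AddEquiv.ofBijective _ (hI.2 n)
  let F : 𝒯.T n (Pool.Agent.Helper83.Bass.WW (cgj t)) ≃+ 𝒯.T n (CubRing t) :=
    AddEquiv.ofBijective _ (hJ.2 n)
  let K : 𝒯.T n k ≃+ 𝒯.T n (MvPolynomial (Fin a ⊕ Fin c) k) :=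
    AddEquiv.ofBijective _ ((GTheory.HI.mvPolynomial (𝒯 := 𝒯) (Fin a ⊕ Fin c) k).2 n)
  let H : 𝒯.T n (WR (cgj t)) ≃+ 𝒯.T n (CubRing t) := E.symm.trans F
  obtain ⟨h1, h2⟩ := good 𝒯 (cgj t) (Ideal.Quotient.mk (Ideal.span (Set.range (cgj t))))
    Ideal.Quotient.mk_surjective Ideal.mk_ker
  refine ⟨fun hn => ?_, fun hn => ?_⟩
  · obtain ⟨f, hf⟩ := h1 n hn
    refine ⟨(H.toAddMonoidHom.comp f).comp
      (AddMonoidHom.prodMap K.toAddMonoidHom (AddMonoidHom.id _)), ?_⟩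
    refine H.surjective.comp (hf.comp ?_)
    rintro ⟨a, b⟩
    obtain ⟨a', ha'⟩ := K.surjective a
    exact ⟨(a', b), Prod.ext ha' rfl⟩
  · obtain ⟨f⟩ := h2 n hn
    exact ⟨H.symm.trans (f.trans (AddEquiv.prodCongr K.symm (AddEquiv.refl _)))⟩

variable {𝒮 : (G : Type u) → [AddCommGroup G] → Prop} (h𝒮 : Serre 𝒮)

include h𝒮

theorem sfg_cub {N : WithTop ℤ} (𝒯 : GTheory.{u} N) (M : ℤ) (hM : (M : WithTop ℤ) ≤ N) (k : Type)
    [CommRing k] [IsNoetherianRing k] (h0 : SFG 𝒯 𝒮 M k) (n : ℕ)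
    (hk : ∀ I : Ideal (MvPolynomial (Fin n) k), SFG 𝒯 𝒮 M (MvPolynomial (Fin n) k ⧸ I))
    (b c : ℕ) (t : Fin (n + 1) → Fin b → Fin c → k) : SFG 𝒯 𝒮 M (CubRing t) := by
  intro i hi
  have h1 := (cls_SFG 𝒯 h𝒮 M).cubB k n hk b c t i hi
  obtain ⟨f, hf⟩ := (cub_groups 𝒯 k t i).1 ((WithTop.coe_le_coe.2 hi).trans hM)
  exact h𝒮.of_surj f hf (h𝒮.prod (h0 i hi) h1)

theorem sfg_tri {N : WithTop ℤ} (𝒯 : GTheory.{u} N) (M : ℤ) (k : Type)
    [CommRing k] [IsNoetherianRing k] (n : ℕ)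
    (hk : ∀ I : Ideal (MvPolynomial (Fin n) k), SFG 𝒯 𝒮 M (MvPolynomial (Fin n) k ⧸ I))
    (b c : ℕ) (t : Fin (n + 1) → Fin b → Fin c → k) : SFG 𝒯 𝒮 M (TriRing t) :=
  (cls_SFG 𝒯 h𝒮 M).tri k n hk b c t

/-- complements of trilinear hypersurfaces, one degree more -/
theorem sfg_comp {N : WithTop ℤ} (𝒯 : GTheory.{u} N) (M : ℤ) (k : Type)
    [CommRing k] [IsNoetherianRing k] (h0 : SFG 𝒯 𝒮 (M + 1) k) {a b c : ℕ}
    (t : Fin a → Fin b → Fin c → k) (ht : SFG 𝒯 𝒮 M (TriRing t)) :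
    SFG 𝒯 𝒮 (M + 1) (CompRing t) := by
  intro i hi
  have h1 := (SFG.mv h𝒮 (Fin a ⊕ Fin b ⊕ Fin c)).1 h0
  exact SFG.loc_deg h𝒮 (isLoc_std (triF t)) i (h1 i hi) (ht (i - 1) (by omega))

end Pool.Agent.GTH
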