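import Pool.Agent.GTH.Deh
import Pool.Agent.GTH.Fwd
import Pool.Agent.BassH.Enc

/-!
# G-theories: from linear systems back to affine space
-/

set_option autoImplicit false
set_option linter.unusedSectionVars false

open Function

namespace Pool.Agent.GTH

universe u

open BassH (triF cubF cgj TriRing CubRing CompRing bilE xv evE ker_evE evE_surj homog_xv)
open Pool.Agent.Helper11 (homog homog_C homog_X)
open MvPolynomial

/-- every closed subscheme of affine space, presented by bilinear forms -/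
theorem exists_pres (k : Type) [CommRing k] [IsNoetherianRing k] (n : ℕ)
    (I : Ideal (MvPolynomial (Fin n) k)) :
    ∃ (b c : ℕ) (t : Fin (n + 1) → Fin b → Fin c → k) (l₀ : Fin c)
      (ev : MvPolynomial (Fin (n + 1) ⊕ Fin c) k →+* MvPolynomial (Fin n) k ⧸ I),
      Surjective ev ∧ RingHom.ker ev = Ideal.span (Set.range (cgj t)) ⊔
        Ideal.span {X (Sum.inl 0) - 1} ⊔ Ideal.span {X (Sum.inr l₀) - 1} := by
  classical
  let π : MvPolynomial (Fin n) k →+* MvPolynomial (Fin n) k ⧸ I := Ideal.Quotient.mk I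
  have hπ : Surjective π := Ideal.Quotient.mk_surjective
  obtain ⟨H, hH⟩ := IsNoetherian.noetherian (RingHom.ker π)
  let D : ℕ := ∑ h ∈ H, h.totalDegree
  let A : Finset (Fin n →₀ ℕ) := (Finsupp.finite_of_degree_le (σ := Fin n) D).toFinset
  have hA : ∀ α : Fin n →₀ ℕ, α ∈ A ↔ α.degree ≤ D := by
    intro α
    simp [A]
  let c : ℕ := Fintype.card (Option A)
  let e : Fin c ≃ Option A := (Fintype.equivFin (Option A)).symm
  let m : Fin c → (Fin n →₀ ℕ) := fun j => (e j).elim 0 (fun x => x.val)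
  have hm : ∀ j, (m j).degree ≤ D := by
    intro j
    show Finsupp.degree ((e j).elim 0 (fun x => x.val)) ≤ D
    rcases e j with _ | x
    · show Finsupp.degree (0 : Fin n →₀ ℕ) ≤ D
      rw [map_zero]; exact Nat.zero_le _
    · exact (hA _).mp x.2
  have hm' : ∀ α : Fin n →₀ ℕ, α.degree ≤ D → ∃ j, m j = α := by
    intro α hα
    refine ⟨e.symm (some ⟨α, (hA _).mpr hα⟩), ?_⟩
    show (e (e.symm (some ⟨α, (hA _).mpr hα⟩))).elim 0 (fun x => x.val) = α
    rw [Equiv.apply_symm_apply]
    rfl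
  let l₀ : Fin c := e.symm none
  have hl₀ : m l₀ = 0 := by
    show (e (e.symm none)).elim 0 (fun x => x.val) = 0
    rw [Equiv.apply_symm_apply]
    rfl
  have hdown : ∀ j i, m j i ≠ 0 → ∃ j', m j' = m j - Finsupp.single i 1 := by
    intro j i _
    refine hm' _ (le_trans ?_ (hm j))
    exact Finsupp.degree_mono tsub_le_self
  have hsupp : ∀ h ∈ (H : Set (MvPolynomial (Fin n) k)), ∀ α ∈ h.support, ∃ j, m j = α := by
    intro h hh α hα
    refine hm' _ ?_
    have h1 : α.degree ≤ h.totalDegree := le_totalDegree hα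
    have h2 : h.totalDegree ≤ ∑ h ∈ H, h.totalDegree :=
      Finset.single_le_sum (f := fun h => h.totalDegree) (fun _ _ => Nat.zero_le _)
        (Finset.mem_coe.mp hh)
    exact h1.trans h2
  have hker := ker_evE π m (H : Set (MvPolynomial (Fin n) k)) hH.symm l₀ hl₀ hdown hsupp
  have hev := evE_surj π m hπ
  -- finitely many bilinear forms
  obtain ⟨s, hs, hs'⟩ := (Submodule.fg_span_iff_fg_span_finset_subset
    (R := MvPolynomial (Fin (n + 1) ⊕ Fin c) k) (bilE π m)).mp
    (IsNoetherian.noetherian (Ideal.span (bilE π m)))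
  let g : Fin s.card → MvPolynomial (Fin (n + 1) ⊕ Fin c) k := fun i => (s.equivFin.symm i).val
  have hg : Set.range g = (s : Set (MvPolynomial (Fin (n + 1) ⊕ Fin c) k)) := by
    ext p
    constructor
    · rintro ⟨i, rfl⟩
      exact (s.equivFin.symm i).2
    · intro hp
      exact ⟨s.equivFin ⟨p, hp⟩, by simp [g]⟩
  have hgs : ∀ i, g i ∈ bilE π m := fun i => hs (s.equivFin.symm i).2
  have hspan : Ideal.span (bilE π m) = Ideal.span (Set.range g) := by
    rw [hg]; exact hs'
  rw [hspan] at hker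
  have hc : ∀ i, ∃ cc : Fin (n + 1) × Fin c → k, ∑ p, cc p • xv k n c p = g i := fun i =>
    (Submodule.mem_span_range_iff_exists_fun k).mp (hgs i).1
  choose cc hcc using hc
  let t : Fin (n + 1) → Fin s.card → Fin c → k := fun i j l => cc j (i, l)
  have htg : cgj t = g := by
    funext j
    rw [← hcc j, Fintype.sum_prod_type]
    unfold cgj
    refine Finset.sum_congr rfl fun i _ => ?_
    refine Finset.sum_congr rfl fun l _ => ?_
    show C (cc j (i, l)) * X (Sum.inl i) * X (Sum.inr l) =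
      cc j (i, l) • (X (Sum.inl i) * X (Sum.inr l))
    rw [← MvPolynomial.C_mul', mul_assoc]
  refine ⟨s.card, c, t, l₀, evE π m, hev, ?_⟩
  rw [htg]
  exact hker

theorem homog_cgj {k : Type} [CommRing k] {a b c : ℕ} (w : Fin a ⊕ Fin c → ℕ)
    (hw : ∀ j l, w (Sum.inl j) + w (Sum.inr l) = 1) (t : Fin a → Fin b → Fin c → k) (j : Fin b) :
    homog w (cgj t j) = Polynomial.C (cgj t j) * Polynomial.X ^ 1 := by
  unfold cgj
  rw [map_sum, map_sum, Finset.sum_mul]
  refine Finset.sum_congr rfl fun i _ => ?_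
  rw [map_sum, map_sum, Finset.sum_mul]
  refine Finset.sum_congr rfl fun l _ => ?_
  have h1 : (Polynomial.X : Polynomial (MvPolynomial (Fin a ⊕ Fin c) k)) ^ 1 =
      Polynomial.X ^ w (Sum.inl i) * Polynomial.X ^ w (Sum.inr l) := by
    rw [← pow_add, hw]
  rw [h1]
  simp only [map_mul, homog_C, homog_X]
  ring

/-- adding the bilinear form `x₀ v_{l₀}` -/
theorem exists_add (k : Type) [CommRing k] (n b c : ℕ) (t : Fin (n + 1) → Fin b → Fin c → k)
    (l₀ : Fin c) : ∃ t' : Fin (n + 1) → Fin (b + 1) → Fin c → k,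
      Ideal.span (Set.range (cgj t')) = Ideal.span (Set.range (cgj t)) ⊔
        Ideal.span {X (Sum.inl 0) * X (Sum.inr l₀)} := by
  classical
  let t' : Fin (n + 1) → Fin (b + 1) → Fin c → k := fun i j l =>
    Fin.lastCases (motive := fun _ => k) (if i = 0 ∧ l = l₀ then 1 else 0)
      (fun j => t i j l) j
  have h1 : ∀ j : Fin b, cgj t' j.castSucc = cgj t j := by
    intro j
    unfold cgj
    refine Finset.sum_congr rfl fun i _ => Finset.sum_congr rfl fun l _ => ?_
    have h2 : t' i j.castSucc l = t i j l := Fin.lastCases_castSucc ..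
    rw [h2]
  have h2 : cgj t' (Fin.last b) = X (Sum.inl 0) * X (Sum.inr l₀) := by
    unfold cgj
    have h3 : ∀ i l, t' i (Fin.last b) l = if i = 0 ∧ l = l₀ then 1 else 0 := fun i l =>
      Fin.lastCases_last ..
    rw [Finset.sum_eq_single 0, Finset.sum_eq_single l₀]
    · rw [h3, if_pos ⟨rfl, rfl⟩, map_one, one_mul]
    · intro l _ hl
      rw [h3, if_neg (fun h => hl h.2), map_zero, zero_mul, zero_mul]
    · intro h
      exact absurd (Finset.mem_univ _) h
    · intro i _ hi
      refine Finset.sum_eq_zero fun l _ => ?_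
      rw [h3, if_neg (fun h => hi h.1), map_zero, zero_mul, zero_mul]
    · intro h
      exact absurd (Finset.mem_univ _) h
  refine ⟨t', ?_⟩
  rw [← Ideal.span_union]
  congr 1
  ext p
  constructor
  · rintro ⟨j, rfl⟩
    refine Fin.lastCases ?_ (fun j => ?_) j
    · right
      exact h2
    · left
      exact ⟨j, (h1 j).symm⟩
  · rintro (⟨j, rfl⟩ | rfl)
    · exact ⟨j.castSucc, h1 j⟩
    · exact ⟨Fin.last b, h2⟩

/-- from all linear systems of format `(n + 1, b, c)` to all ideals in `n` variables -/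
theorem Cls.enc {G : (R : Type) → [CommRing R] → Prop} (hG : Cls G) (k : Type) [CommRing k]
    [IsNoetherianRing k] (n : ℕ)
    (h : ∀ (b c : ℕ) (t : Fin (n + 1) → Fin b → Fin c → k),
      G (MvPolynomial (Fin (n + 1) ⊕ Fin c) k ⧸ Ideal.span (Set.range (cgj t))))
    (I : Ideal (MvPolynomial (Fin n) k)) : G (MvPolynomial (Fin n) k ⧸ I) := by
  obtain ⟨b, c, t, l₀, ev, hev, hker⟩ := exists_pres k n I
  obtain ⟨t', ht'⟩ := exists_add k n b c t l₀
  let e1 : MvPolynomial (Fin (n + 1) ⊕ Fin c) k := X (Sum.inl 0)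
  let e2 : MvPolynomial (Fin (n + 1) ⊕ Fin c) k := X (Sum.inr l₀)
  have h1 := h b c t
  have h2 := h (b + 1) c t'
  rw [ht'] at h2
  have h3 : G ((MvPolynomial (Fin (n + 1) ⊕ Fin c) k ⧸ Ideal.span (Set.range (cgj t))) ⧸
      Ideal.span {Ideal.Quotient.mk (Ideal.span (Set.range (cgj t))) (e1 * e2)}) := by
    have h4 : Ideal.span {Ideal.Quotient.mk (Ideal.span (Set.range (cgj t))) (e1 * e2)} =
        (Ideal.span {e1 * e2}).map (Ideal.Quotient.mk (Ideal.span (Set.range (cgj t)))) := by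
      rw [Ideal.map_span, Set.image_singleton]
    rw [h4]
    exact hG.iso _ _ (DoubleQuot.quotQuotEquivQuotSup _ _).symm h2
  have h5 : G (Localization.Away (Ideal.Quotient.mk (Ideal.span (Set.range (cgj t)))
      (e1 * e2))) :=
    hG.away _ _ (Ideal.Quotient.mk (Ideal.span (Set.range (cgj t))) (e1 * e2)) h1 h3
  have h6 := hG.deh (Sum.elim (fun _ => 1) (fun _ => 0)) (Set.range (cgj t)) (by
      rintro _ ⟨j, rfl⟩
      exact ⟨1, homog_cgj _ (fun _ _ => rfl) t j⟩) e1 e2 (homog_X _ _) (homog_X _ _) h5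
  have h7 : Ideal.span (Set.range (cgj t) ∪ {e1 - 1}) =
      Ideal.span (Set.range (cgj t)) ⊔ Ideal.span {e1 - 1} := Ideal.span_union _ _
  have h8 : G (Localization.Away (Ideal.Quotient.mk (Ideal.span (Set.range (cgj t) ∪ {e1 - 1}))
      (e2 * 1))) := by
    rw [h7, mul_one]
    exact h6
  have h9 := hG.deh (Sum.elim (fun _ => 0) (fun _ => 1)) (Set.range (cgj t) ∪ {e1 - 1}) (by
      rintro _ (⟨j, rfl⟩ | rfl)
      · exact ⟨1, homog_cgj _ (fun _ _ => rfl) t j⟩
      · refine ⟨0, ?_⟩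
        have h10 : homog (Sum.elim (fun _ => 0) (fun _ => 1) : Fin (n + 1) ⊕ Fin c → ℕ) e1 =
            Polynomial.C e1 := by
          have h11 := homog_X (k := k) (Sum.elim (fun _ => 0) (fun _ => 1) :
            Fin (n + 1) ⊕ Fin c → ℕ) (Sum.inl 0)
          have h12 : (Sum.elim (fun _ => 0) (fun _ => 1) : Fin (n + 1) ⊕ Fin c → ℕ)
            (Sum.inl 0) = 0 := rfl
          rw [h12, pow_zero, mul_one] at h11
          exact h11
        rw [map_sub, map_one, h10, map_sub, map_one, pow_zero, mul_one]) e2 1 (homog_X _ _)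
      (by rw [map_one, map_one, pow_zero, mul_one]) h8
  rw [h7] at h9
  have h10 : Ideal.span (Set.range (cgj t)) ⊔ Ideal.span {e1 - 1} ⊔ Ideal.span {e2 - 1} =
      RingHom.ker ev := hker.symm
  rw [h10, map_one] at h9
  have : IsNoetherianRing (Localization.Away
      (1 : MvPolynomial (Fin (n + 1) ⊕ Fin c) k ⧸ RingHom.ker ev)) := noeth_away
      (1 : MvPolynomial (Fin (n + 1) ⊕ Fin c) k ⧸ RingHom.ker ev)
  exact hG.iso _ _ ((IsLocalization.atOne (MvPolynomial (Fin (n + 1) ⊕ Fin c) k ⧸ RingHom.ker ev)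
    (Localization.Away (1 : MvPolynomial (Fin (n + 1) ⊕ Fin c) k ⧸
      RingHom.ker ev))).toRingEquiv.symm.trans
    (RingHom.quotientKerEquivOfSurjective hev)) h9

end Pool.Agent.GTH
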