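import Pool.Agent.GTH.T2W
import Pool.Agent.GTH.Enc

/-!
# G-theories: from the complements and the cubics back to affine space
-/

set_option autoImplicit false
set_option linter.unusedSectionVars false

open Function

namespace Pool.Agent.GTH

universe u

open BassH (triF cubF cgj TriRing CubRing CompRing kosEquiv kosEquiv_triF cubEquiv)
open Pool.Agent.Helper11 (bigF)

variable {N : WithTop ℤ} (𝒯 : GTheory.{u} N) {k : Type} [CommRing k] [IsNoetherianRing k]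

theorem bigF_eq {σ A : Type} [Fintype σ] [CommRing A] (q : σ → A) : bigF q = qf q := by
  unfold bigF qf
  exact Finset.sum_congr rfl fun j _ => mul_comm _ _

variable {𝒮 : (G : Type u) → [AddCommGroup G] → Prop} (h𝒮 : Serre 𝒮)

include h𝒮

/-- the cubic and `W` -/
theorem sfg_cub_of_W (M : ℤ) {a b c : ℕ} (t : Fin a → Fin b → Fin c → k)
    (h : SFG 𝒯 𝒮 M (WR (cgj t))) : SFG 𝒯 𝒮 M (CubRing t) := by
  obtain ⟨e⟩ := exists_equiv_W (cgj t)
  have hnR : IsNoetherianRing (Pool.Agent.Helper83.Bass.WR (cgj t)) :=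
    isNoetherianRing_of_ringEquiv _ e.symm
  have hnW : IsNoetherianRing (Pool.Agent.Helper83.Bass.WW (cgj t)) :=
    isNoetherianRing_of_ringEquiv _ e.symm
  have h1 : SFG 𝒯 𝒮 M (Pool.Agent.Helper83.Bass.WR (cgj t)) := (SFG.equiv h𝒮 e).2 h
  have h2 : SFG 𝒯 𝒮 M (Pool.Agent.Helper83.Bass.WW (cgj t)) := h1
  exact (SFG.equiv h𝒮 (cubEquiv t).toRingEquiv).1 h2

/-- (5) ⟹ (4) -/
theorem sfg_cub_of_comp (M : ℤ) (hM : (M : WithTop ℤ) < N) (h0 : SFG 𝒯 𝒮 M k) {a b c : ℕ}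
    (t : Fin a → Fin b → Fin c → k) (h : triF t ≠ 0 → SFG 𝒯 𝒮 (M + 1) (CompRing t)) :
    SFG 𝒯 𝒮 M (CubRing t) := by
  have hG := cls_SFG 𝒯 h𝒮 M
  let P := MvPolynomial (Fin a ⊕ Fin b ⊕ Fin c) k
  let A := MvPolynomial (Fin a ⊕ Fin c) k
  let q : Fin b → A := cgj t
  let E := kosEquiv k a b c
  have hE : E (triF t) = qf q := by
    rw [← bigF_eq]
    exact kosEquiv_triF t
  have hP : SFG 𝒯 𝒮 M P := (SFG.mv h𝒮 (Fin a ⊕ Fin b ⊕ Fin c)).1 h0
  have hA : SFG 𝒯 𝒮 M A := (SFG.mv h𝒮 (Fin a ⊕ Fin c)).1 h0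
  have hAy : SFG 𝒯 𝒮 M (MvPolynomial (Fin b) A) := (SFG.mv h𝒮 (Fin b)).1 hA
  refine sfg_cub_of_W 𝒯 h𝒮 M t ?_
  have h2 : SFG 𝒯 𝒮 M (MvPolynomial (Fin b) A ⧸ Ideal.span {qf q}) ∧
      SFG 𝒯 𝒮 M (MvPolynomial (Fin b) A ⧸ Ideal.span {1 + qf q}) := by
    by_cases hF : triF t = 0
    · have hq : qf q = 0 := by rw [← hE, hF, map_zero]
      rw [hq]
      constructor
      · have h3 : Ideal.span {(0 : MvPolynomial (Fin b) A)} = ⊥ :=
          Ideal.span_singleton_eq_bot.2 rfl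
        rw [h3]
        exact (SFG.equiv h𝒮 (RingEquiv.quotientBot _).symm).1 hAy
      · have h3 : Ideal.span {(1 : MvPolynomial (Fin b) A) + 0} = ⊤ := by
          rw [add_zero, Ideal.span_singleton_one]
        rw [h3]
        have : Subsingleton (MvPolynomial (Fin b) A ⧸ (⊤ : Ideal (MvPolynomial (Fin b) A))) :=
          Ideal.Quotient.subsingleton_iff.2 rfl
        exact SFG.of_subsingleton h𝒮
    · have h1 := h hF
      constructor
      · have h3 : SFG 𝒯 𝒮 M (TriRing t) := by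
          have : IsNoetherianRing (CompRing t) := noeth_away (V := CompRing t) (triF t)
          exact SFG.quot h𝒮 (isLoc_std (triF t)) hM h1 hP
        refine (SFG.equiv h𝒮 (Ideal.quotientEquiv (Ideal.span {triF t}) (Ideal.span {qf q}) E ?_)).1
          h3
        rw [Ideal.map_span, Set.image_singleton]
        exact (congrArg (fun x => Ideal.span {x}) hE).symm
      · letI : Algebra (MvPolynomial (Fin b) A) (CompRing t) :=
          ((algebraMap _ (Localization.Away (triF t))).comp E.symm.toRingHom).toAlgebra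
        haveI : IsLocalization.Away (qf q) (CompRing t) := by
          have h1 := IsLocalization.isLocalization_of_base_ringEquiv (Submonoid.powers (triF t))
            (Localization.Away (triF t)) E
          have h2 : (Submonoid.powers (triF t)).map (E : _ →* _) = Submonoid.powers (qf q) := by
            rw [← hE]
            exact Submonoid.map_powers _ _
          rw [IsLocalization.Away, ← h2]
          exact h1
        exact hG.of_F q (V := CompRing t) (SFG.mono (by omega) h1)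
  exact hG.of_T q h2.1 (hG.away _ _ (1 + qf q) hAy h2.2)

/-- (4) ⟹ (2) -/
theorem sfg_aff_of_cub (M : ℤ) (hM : (M : WithTop ℤ) < N) (n : ℕ)
    (h : ∀ (b c : ℕ) (t : Fin (n + 1) → Fin b → Fin c → k), SFG 𝒯 𝒮 M (CubRing t))
    (I : Ideal (MvPolynomial (Fin n) k)) : SFG 𝒯 𝒮 M (MvPolynomial (Fin n) k ⧸ I) := by
  refine (cls_SFG 𝒯 h𝒮 M).enc k n (fun b c t i hi => ?_) I
  obtain ⟨e⟩ := (cub_groups 𝒯 k t i).2 (lt_of_le_of_lt (WithTop.coe_le_coe.2 hi) hM)
  exact h𝒮.of_surj ((AddMonoidHom.snd _ _).comp e.toAddMonoidHom)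
    (Prod.snd_surjective.comp e.surjective) (h b c t i hi)

/-- (2) gives the base ring -/
theorem sfg_base (M : ℤ) (n : ℕ)
    (h : ∀ I : Ideal (MvPolynomial (Fin n) k), SFG 𝒯 𝒮 M (MvPolynomial (Fin n) k ⧸ I)) :
    SFG 𝒯 𝒮 M k := by
  refine (cls_SFG 𝒯 h𝒮 M).of_surj h (MvPolynomial.eval₂Hom (RingHom.id k) (fun _ => 0)) ?_
  intro a
  exact ⟨MvPolynomial.C a, by simp⟩

/-- (2) to (5) are equivalent -/
theorem tfae_25 (M : ℤ) (hM : (M : WithTop ℤ) < N) (h0 : ∀ i : ℤ, i ≤ M + 1 →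
    𝒮 (𝒯.T i k)) (n : ℕ) :
    List.TFAE [
      ∀ I : Ideal (MvPolynomial (Fin n) k), SFG 𝒯 𝒮 M (MvPolynomial (Fin n) k ⧸ I),
      ∀ (b c : ℕ) (t : Fin (n + 1) → Fin b → Fin c → k), SFG 𝒯 𝒮 M (TriRing t),
      ∀ (b c : ℕ) (t : Fin (n + 1) → Fin b → Fin c → k), SFG 𝒯 𝒮 M (CubRing t),
      ∀ (b c : ℕ) (t : Fin (n + 1) → Fin b → Fin c → k), triF t ≠ 0 →
        SFG 𝒯 𝒮 (M + 1) (CompRing t)] := by
  have h0' : SFG 𝒯 𝒮 M k := fun i hi => h0 i (by omega)
  tfae_have 1 → 2 := fun h b c t => sfg_tri h𝒮 𝒯 M k n h b c t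
  tfae_have 2 → 4 := fun h b c t _ => sfg_comp h𝒮 𝒯 M k h0 t (h b c t)
  tfae_have 4 → 3 := fun h b c t => sfg_cub_of_comp 𝒯 h𝒮 M hM h0' t (h b c t)
  tfae_have 3 → 1 := fun h I => sfg_aff_of_cub 𝒯 h𝒮 M hM n h I
  tfae_finish

end Pool.Agent.GTH
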