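import Pool.Agent.GTH.Defs

/-!
# G-theories: first properties
-/

set_option autoImplicit false

open Function

namespace Pool.Agent.GTH

universe u

theorem flat_equiv {A B : Type} [CommRing A] [CommRing B] (e : A ≃+* B) : (e : A →+* B).Flat :=
  RingHom.Flat.of_bijective e.bijective

namespace GTheory

variable {N : WithTop ℤ} (𝒯 : GTheory.{u} N) {A B C : Type} [CommRing A] [IsNoetherianRing A]
  [CommRing B] [IsNoetherianRing B] [CommRing C] [IsNoetherianRing C]

theorem pull_pull (n : ℤ) {φ : A →+* B} {ψ : B →+* C} {χ : A →+* C} (e : ψ.comp φ = χ)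
    (hφ : φ.Flat) (hψ : ψ.Flat) (x : 𝒯.T n A) :
    𝒯.pull n ψ (𝒯.pull n φ x) = 𝒯.pull n χ x := by
  subst e
  exact (𝒯.pull_comp n φ ψ hφ hψ x).symm

theorem push_push (n : ℤ) {φ : A →+* B} {ψ : B →+* C} {χ : A →+* C} (e : ψ.comp φ = χ)
    (hφ : Surjective φ) (hψ : Surjective ψ) (x : 𝒯.T n C) :
    𝒯.push n φ (𝒯.push n ψ x) = 𝒯.push n χ x := by
  subst e
  exact (𝒯.push_comp n φ ψ hφ hψ x).symm

theorem pull_equiv_symm (n : ℤ) (e : A ≃+* B) (x : 𝒯.T n A) :
    𝒯.pull n (e.symm : B →+* A) (𝒯.pull n (e : A →+* B) x) = x := by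
  have h : ((e.symm : B →+* A).comp (e : A →+* B)) = RingHom.id A := by
    ext a
    simp
  rw [𝒯.pull_pull n h (flat_equiv e) (flat_equiv e.symm)]
  exact 𝒯.pull_id n x

theorem pull_equiv_bijective (n : ℤ) (e : A ≃+* B) : Bijective (𝒯.pull n (e : A →+* B)) := by
  refine bijective_iff_has_inverse.2 ⟨𝒯.pull n (e.symm : B →+* A), fun x => ?_, fun x => ?_⟩
  · exact 𝒯.pull_equiv_symm n e x
  · exact 𝒯.pull_equiv_symm n e.symm x

/-- the homomorphism is flat and induces isomorphisms -/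
def HI (φ : A →+* B) : Prop := φ.Flat ∧ ∀ n, Bijective (𝒯.pull n φ)

variable {𝒯}

theorem HI.equiv (e : A ≃+* B) : 𝒯.HI (e : A →+* B) :=
  ⟨flat_equiv e, fun n => 𝒯.pull_equiv_bijective n e⟩

theorem HI.of_bijective {φ : A →+* B} (h : Bijective φ) : 𝒯.HI φ := by
  have h1 : ((RingEquiv.ofBijective φ h : A ≃+* B) : A →+* B) = φ := by
    ext a
    rfl
  rw [← h1]
  exact HI.equiv _

theorem HI.comp {φ : A →+* B} {ψ : B →+* C} (h : 𝒯.HI φ) (h' : 𝒯.HI ψ) : 𝒯.HI (ψ.comp φ) := by
  obtain ⟨h1, h2⟩ := h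
  obtain ⟨h3, h4⟩ := h'
  refine ⟨h1.comp h3, fun n => ?_⟩
  have h5 : ⇑(𝒯.pull n (ψ.comp φ)) = 𝒯.pull n ψ ∘ 𝒯.pull n φ := by
    funext x
    exact 𝒯.pull_comp n φ ψ h1 h3 x
  rw [h5]
  exact (h4 n).comp (h2 n)

theorem HI.congr {φ ψ : A →+* B} (h : 𝒯.HI φ) (e : φ = ψ) : 𝒯.HI ψ := e ▸ h

theorem HI.polynomial : 𝒯.HI (Polynomial.C : A →+* Polynomial A) := by
  have h : (Polynomial.C : A →+* Polynomial A).Flat := by
    have h1 : Module.Flat A (Polynomial A) := inferInstance
    rw [← Polynomial.algebraMap_eq]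
    exact RingHom.flat_algebraMap_iff.2 h1
  exact ⟨h, fun n => 𝒯.homotopy n⟩

theorem HI.mvPolynomial (σ : Type) [Finite σ] (A : Type) [CommRing A] [IsNoetherianRing A] :
    𝒯.HI (MvPolynomial.C : A →+* MvPolynomial σ A) := by
  have key : ∀ (_ : Finite σ) (A : Type) [CommRing A] [IsNoetherianRing A],
      𝒯.HI (MvPolynomial.C : A →+* MvPolynomial σ A) := by
    induction σ using Finite.induction_empty_option with
    | of_equiv e ih =>
        intro _ A _ _
        have h1 := Finite.of_equiv _ e.symm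
        refine ((ih h1 A).comp
          (HI.equiv (MvPolynomial.renameEquiv A e).toRingEquiv)).congr ?_
        ext a
        simp
    | h_empty =>
        intro _ A _ _
        refine (HI.equiv (MvPolynomial.isEmptyAlgEquiv A PEmpty).symm.toRingEquiv).congr ?_
        refine RingHom.ext fun a => ?_
        exact (MvPolynomial.isEmptyAlgEquiv A PEmpty).symm.commutes a
    | h_option ih =>
        rename_i τ _
        intro _ A _ _
        have h1 : Finite τ := inferInstance
        refine (((ih h1 A).comp HI.polynomial).comp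
          (HI.equiv (MvPolynomial.optionEquivLeft A τ).symm.toRingEquiv)).congr ?_
        refine RingHom.ext fun a => ?_
        simp
  exact key inferInstance A

/-- the groups of the zero ring vanish -/
theorem subsingleton_T (n : ℤ) [Subsingleton A] (x : 𝒯.T n A) : x = 0 := by
  have h : IsLoc (0 : A) (RingHom.id A) (RingHom.id A) := by
    refine ⟨surjective_id, ?_, ?_⟩
    · ext a
      simp [Subsingleton.elim a 0]
    · let _ := (RingHom.id A).toAlgebra
      refine ⟨?_, ?_, ?_⟩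
      · intro y
        rw [Subsingleton.elim (algebraMap A A (y : A)) 1]
        exact isUnit_one
      · intro z
        exact ⟨(z, 1), Subsingleton.elim _ _⟩
      · intro x y _
        exact ⟨1, Subsingleton.elim _ _⟩
  have h1 := (𝒯.exA n h x).2 ⟨x, 𝒯.push_id n x⟩
  have h2 := 𝒯.pull_id n x
  rw [← h2]
  exact h1

end GTheory

end Pool.Agent.GTH
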