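import Mathlib

/-!
# G-theories: the formal properties of the groups `K'_n` of noetherian rings
-/

set_option autoImplicit false

open Function

namespace Pool.Agent.GTH

universe u

/-- `C` is the quotient of `A` by `s`, and `L` the localisation of `A` away from `s`. -/
structure IsLoc {A C L : Type} [CommRing A] [CommRing C] [CommRing L] (s : A) (π : A →+* C)
    (l : A →+* L) : Prop where
  surj : Surjective π
  ker : RingHom.ker π = Ideal.span {s}
  loc : @IsLocalization.Away A _ s L _ l.toAlgebra

theorem IsLoc.flat {A C L : Type} [CommRing A] [CommRing C] [CommRing L] {s : A} {π : A →+* C}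
    {l : A →+* L} (h : IsLoc s π l) : l.Flat := by
  let _ := l.toAlgebra
  have := h.loc
  exact IsLocalization.flat L (Submonoid.powers s)

/-- A G-theory of length `N`: abelian groups `T n A` for integers `n` and noetherian commutative
rings `A`, with pull-backs for flat homomorphisms, push-forwards for surjective homomorphisms, base
change, the long localisation sequence for `A / s` and `A[1/s]` (exact at `T n (A / s)` for
`n < N`), compatible with flat pull-backs, homotopy invariance, and the vanishing of the
push-forward `T n A → T n A[X]` along `X = 0`.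

(The groups and the maps are total functions; the properties concern noetherian rings, pull-backs
for flat homomorphisms, push-forwards for surjective ones, boundary maps `T (n + 1) L → T n C` for
the rings of `IsLoc`.)

The groups `K'_n` of Quillen (`0` for `n < 0`) are a G-theory of every length, and `G₀` (in degree
`0`) is one of length `0`. -/
structure GTheory (N : WithTop ℤ) where
  /-- the groups -/
  T (n : ℤ) (A : Type) [CommRing A] : AddCommGrpCat.{u}
  /-- the pull-back for flat homomorphisms -/
  pull (n : ℤ) {A B : Type} [CommRing A] [CommRing B] (φ : A →+* B) : T n A →+ T n B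
  /-- the push-forward for surjective homomorphisms -/
  push (n : ℤ) {A B : Type} [CommRing A] [CommRing B] (φ : A →+* B) : T n B →+ T n A
  /-- the boundary map -/
  bd (m n : ℤ) {A C L : Type} [CommRing A] [CommRing C] [CommRing L] (s : A) (π : A →+* C)
    (l : A →+* L) : T m L →+ T n C
  pull_id (n : ℤ) {A : Type} [CommRing A] [IsNoetherianRing A] (x : T n A) :
    pull n (RingHom.id A) x = x
  pull_comp (n : ℤ) {A B C : Type} [CommRing A] [IsNoetherianRing A] [CommRing B]
    [IsNoetherianRing B] [CommRing C] [IsNoetherianRing C] (φ : A →+* B) (ψ : B →+* C)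
    (hφ : φ.Flat) (hψ : ψ.Flat) (x : T n A) : pull n (ψ.comp φ) x = pull n ψ (pull n φ x)
  push_id (n : ℤ) {A : Type} [CommRing A] [IsNoetherianRing A] (x : T n A) :
    push n (RingHom.id A) x = x
  push_comp (n : ℤ) {A B C : Type} [CommRing A] [IsNoetherianRing A] [CommRing B]
    [IsNoetherianRing B] [CommRing C] [IsNoetherianRing C] (φ : A →+* B) (ψ : B →+* C)
    (hφ : Surjective φ) (hψ : Surjective ψ) (x : T n C) :
    push n (ψ.comp φ) x = push n φ (push n ψ x)
  /-- base change: `C' = A' ⊗ C` -/
  base_change (n : ℤ) {A A' C C' : Type} [CommRing A] [IsNoetherianRing A] [CommRing A']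
    [IsNoetherianRing A'] [CommRing C] [IsNoetherianRing C] [CommRing C'] [IsNoetherianRing C']
    (φ : A →+* A') (hφ : φ.Flat) (π : A →+* C) (hπ : Surjective π) (π' : A' →+* C')
    (hπ' : Surjective π') (hk : RingHom.ker π' = (RingHom.ker π).map φ) (ψ : C →+* C')
    (hψ : ψ.Flat) (h : ψ.comp π = π'.comp φ) (x : T n C) :
    pull n φ (push n π x) = push n π' (pull n ψ x)
  /-- the localisation sequence, exactness at `T n A` -/
  exA (n : ℤ) {A C L : Type} [CommRing A] [IsNoetherianRing A] [CommRing C]
    [IsNoetherianRing C] [CommRing L] [IsNoetherianRing L] {s : A} {π : A →+* C} {l : A →+* L}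
    (h : IsLoc s π l) (x : T n A) : pull n l x = 0 ↔ ∃ y, push n π y = x
  /-- the localisation sequence, exactness at `T m L` -/
  exL (m n : ℤ) (hmn : m = n + 1) {A C L : Type} [CommRing A] [IsNoetherianRing A] [CommRing C]
    [IsNoetherianRing C] [CommRing L] [IsNoetherianRing L] {s : A} {π : A →+* C} {l : A →+* L}
    (h : IsLoc s π l) (x : T m L) : bd m n s π l x = 0 ↔ ∃ y, pull m l y = x
  /-- the localisation sequence, exactness at `T n C` -/
  exC (m n : ℤ) (hmn : m = n + 1) (hn : (n : WithTop ℤ) < N) {A C L : Type} [CommRing A]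
    [IsNoetherianRing A] [CommRing C] [IsNoetherianRing C] [CommRing L] [IsNoetherianRing L]
    {s : A} {π : A →+* C} {l : A →+* L} (h : IsLoc s π l) (x : T n C) :
    push n π x = 0 ↔ ∃ y, bd m n s π l y = x
  /-- the boundary maps commute with pull-backs -/
  bd_pull (m n : ℤ) (hmn : m = n + 1) {A C L : Type} [CommRing A] [IsNoetherianRing A] [CommRing C]
    [IsNoetherianRing C] [CommRing L] [IsNoetherianRing L] {s : A} {π : A →+* C} {l : A →+* L}
    (h : IsLoc s π l) {A' C' L' : Type} [CommRing A'] [IsNoetherianRing A'] [CommRing C']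
    [IsNoetherianRing C'] [CommRing L'] [IsNoetherianRing L'] {s' : A'} {π' : A' →+* C'}
    {l' : A' →+* L'} (h' : IsLoc s' π' l') (φ : A →+* A') (hφ : φ.Flat) (hs : φ s = s')
    (ψ : C →+* C') (hψ : ψ.Flat) (h1 : ψ.comp π = π'.comp φ) (χ : L →+* L') (hχ : χ.Flat)
    (h2 : χ.comp l = l'.comp φ) (x : T m L) :
    bd m n s' π' l' (pull m χ x) = pull n ψ (bd m n s π l x)
  /-- homotopy invariance -/
  homotopy (n : ℤ) {A : Type} [CommRing A] [IsNoetherianRing A] :
    Bijective (pull n (Polynomial.C : A →+* Polynomial A))
  /-- the push-forward along `X = 0` vanishes -/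
  push_zero (n : ℤ) {A : Type} [CommRing A] [IsNoetherianRing A] (x : T n A) :
    push n (Polynomial.constantCoeff : Polynomial A →+* A) x = 0

end Pool.Agent.GTH
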