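import Pool.Agent.GTH.Cls
import Pool.Agent.Helper11.Dehom

/-!
# G-theories: dehomogenisation
-/

set_option autoImplicit false
set_option linter.unusedSectionVars false

open Function

namespace Pool.Agent.GTH

open Pool.Agent.Helper11 (homog homog_C homog_X)

section

variable {k τ Q Q1 V L1 V' : Type} [CommRing k] [CommRing Q] [CommRing Q1] [CommRing V]
  [CommRing L1] [CommRing V'] [Algebra Q V] [Algebra Q1 L1] [Algebra (Polynomial L1) V']

/-- dehomogenisation: `(P / H)[1 / (e s)]` is the ring of Laurent polynomials over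
`(P / (H, e - 1))[1 / s]` -/
theorem exists_deh (w : τ → ℕ) (H : Set (MvPolynomial τ k))
    (hH : ∀ h ∈ H, ∃ d : ℕ, homog w h = Polynomial.C h * Polynomial.X ^ d)
    (e s : MvPolynomial τ k) (he : homog w e = Polynomial.C e * Polynomial.X ^ 1)
    (hs : homog w s = Polynomial.C s * Polynomial.X ^ 0)
    (π : MvPolynomial τ k →+* Q) (hπ : Surjective π) (hkπ : RingHom.ker π = Ideal.span H)
    (π1 : MvPolynomial τ k →+* Q1) (hπ1 : Surjective π1)
    (hkπ1 : RingHom.ker π1 = Ideal.span H ⊔ Ideal.span {e - 1})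
    [IsLocalization.Away (π (e * s)) V] [IsLocalization.Away (π1 s) L1]
    [IsLocalization.Away (Polynomial.X : Polynomial L1) V'] : Nonempty (V ≃+* V') := by
  let a : MvPolynomial τ k →+* V := (algebraMap Q V).comp π
  let b : MvPolynomial τ k →+* L1 := (algebraMap Q1 L1).comp π1
  let c : L1 →+* V' := (algebraMap (Polynomial L1) V').comp Polynomial.C
  let x : V' := algebraMap (Polynomial L1) V' Polynomial.X
  have hx : IsUnit x := IsLocalization.Away.algebraMap_isUnit (S := V')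
    (Polynomial.X : Polynomial L1)
  have hes : IsUnit (a (e * s)) := IsLocalization.Away.algebraMap_isUnit (S := V) (π (e * s))
  have hbs : IsUnit (b s) := IsLocalization.Away.algebraMap_isUnit (S := L1) (π1 s)
  rw [map_mul] at hes
  have hae : IsUnit (a e) := isUnit_of_mul_isUnit_left hes
  have has : IsUnit (a s) := isUnit_of_mul_isUnit_right hes
  obtain ⟨v, hv⟩ := hae.exists_right_inv
  have haH : ∀ h ∈ H, a h = 0 := by
    intro h hh
    have h1 : π h = 0 := by
      rw [← RingHom.mem_ker, hkπ]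
      exact Ideal.subset_span hh
    show algebraMap Q V (π h) = 0
    rw [h1, map_zero]
  have hbH : ∀ h ∈ H, b h = 0 := by
    intro h hh
    have h1 : π1 h = 0 := by
      rw [← RingHom.mem_ker, hkπ1]
      exact Ideal.mem_sup_left (Ideal.subset_span hh)
    show algebraMap Q1 L1 (π1 h) = 0
    rw [h1, map_zero]
  have hbe : b e = 1 := by
    have h1 : π1 (e - 1) = 0 := by
      rw [← RingHom.mem_ker, hkπ1]
      exact Ideal.mem_sup_right (Ideal.mem_span_singleton_self _)
    rw [map_sub, map_one, sub_eq_zero] at h1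
    show algebraMap Q1 L1 (π1 e) = 1
    rw [h1, map_one]
  -- the map `V' → V`
  let ψ0 : MvPolynomial τ k →+* V := (Polynomial.eval₂RingHom a v).comp (homog w)
  have hψ0 : ∀ (p : MvPolynomial τ k) (d : ℕ), homog w p = Polynomial.C p * Polynomial.X ^ d →
      ψ0 p = a p * v ^ d := by
    intro p d hp
    show Polynomial.eval₂ a v (homog w p) = _
    rw [hp, Polynomial.eval₂_mul, Polynomial.eval₂_C, Polynomial.eval₂_X_pow]
  have hψ0e : ψ0 e = 1 := by rw [hψ0 e 1 he, pow_one, hv]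
  have hψ0s : ψ0 s = a s := by rw [hψ0 s 0 hs, pow_zero, mul_one]
  have hψk : ∀ p ∈ RingHom.ker π1, ψ0 p = 0 := by
    have h1 : RingHom.ker π1 ≤ RingHom.ker ψ0 := by
      rw [hkπ1, sup_le_iff, Ideal.span_le, Ideal.span_le]
      refine ⟨fun h hh => ?_, ?_⟩
      · obtain ⟨d, hd⟩ := hH h hh
        show ψ0 h = 0
        rw [hψ0 h d hd, haH h hh, zero_mul]
      · rw [Set.singleton_subset_iff]
        show ψ0 (e - 1) = 0
        rw [map_sub, hψ0e, map_one, sub_self]
    exact fun p hp => h1 hp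
  let ψ1 : Q1 →+* V := (RingHom.liftOfSurjective π1 hπ1 ⟨ψ0, hψk⟩)
  have hψ1 : ∀ p, ψ1 (π1 p) = ψ0 p := fun p =>
    RingHom.liftOfRightInverse_comp_apply π1 _ _ ⟨ψ0, hψk⟩ p
  have hψ1s : IsUnit (ψ1 (π1 s)) := by
    rw [hψ1, hψ0s]
    exact has
  let ψ2 : L1 →+* V := IsLocalization.Away.lift (π1 s) hψ1s
  have hψ2 : ∀ q, ψ2 (algebraMap Q1 L1 q) = ψ1 q := fun q => IsLocalization.Away.lift_eq _ _ _
  let ψ3 : Polynomial L1 →+* V := Polynomial.eval₂RingHom ψ2 (a e)
  have hψ3X : ψ3 Polynomial.X = a e := Polynomial.eval₂_X _ _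
  have hψ3C : ∀ r, ψ3 (Polynomial.C r) = ψ2 r := fun r => Polynomial.eval₂_C _ _
  have hψ3u : IsUnit (ψ3 Polynomial.X) := by
    rw [hψ3X]
    exact hae
  let ψ : V' →+* V := IsLocalization.Away.lift (Polynomial.X : Polynomial L1) hψ3u
  have hψ : ∀ q, ψ (algebraMap (Polynomial L1) V' q) = ψ3 q :=
    fun q => IsLocalization.Away.lift_eq _ _ _
  have hψc : ∀ p, ψ (c (b p)) = ψ0 p := by
    intro p
    show ψ (algebraMap _ _ (Polynomial.C (algebraMap Q1 L1 (π1 p)))) = _
    rw [hψ, hψ3C, hψ2, hψ1]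
  have hψx : ψ x = a e := by
    show ψ (algebraMap _ _ _) = _
    rw [hψ, hψ3X]
  -- the map `V → V'`
  let χ0 : MvPolynomial τ k →+* V' := (Polynomial.eval₂RingHom (c.comp b) x).comp (homog w)
  have hχ0 : ∀ (p : MvPolynomial τ k) (d : ℕ), homog w p = Polynomial.C p * Polynomial.X ^ d →
      χ0 p = c (b p) * x ^ d := by
    intro p d hp
    show Polynomial.eval₂ (c.comp b) x (homog w p) = _
    rw [hp, Polynomial.eval₂_mul, Polynomial.eval₂_C, Polynomial.eval₂_X_pow]
    rfl
  have hχ0e : χ0 e = x := by rw [hχ0 e 1 he, hbe, map_one, one_mul, pow_one]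
  have hχ0s : χ0 s = c (b s) := by rw [hχ0 s 0 hs, pow_zero, mul_one]
  have hχk : ∀ p ∈ RingHom.ker π, χ0 p = 0 := by
    have h1 : RingHom.ker π ≤ RingHom.ker χ0 := by
      rw [hkπ, Ideal.span_le]
      intro h hh
      obtain ⟨d, hd⟩ := hH h hh
      show χ0 h = 0
      rw [hχ0 h d hd, hbH h hh, map_zero, zero_mul]
    exact fun p hp => h1 hp
  let χ1 : Q →+* V' := (RingHom.liftOfSurjective π hπ ⟨χ0, hχk⟩)
  have hχ1 : ∀ p, χ1 (π p) = χ0 p := fun p =>
    RingHom.liftOfRightInverse_comp_apply π _ _ ⟨χ0, hχk⟩ p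
  have hχ1u : IsUnit (χ1 (π (e * s))) := by
    rw [hχ1, map_mul, hχ0e, hχ0s]
    exact hx.mul (hbs.map c)
  let χ : V →+* V' := IsLocalization.Away.lift (π (e * s)) hχ1u
  have hχ : ∀ q, χ (algebraMap Q V q) = χ1 q := fun q => IsLocalization.Away.lift_eq _ _ _
  have hχa : ∀ p, χ (a p) = χ0 p := by
    intro p
    show χ (algebraMap _ _ (π p)) = _
    rw [hχ, hχ1]
  have hXj : ∀ (j : τ), homog w (MvPolynomial.X j : MvPolynomial τ k) =
      Polynomial.C (MvPolynomial.X j) * Polynomial.X ^ (w j) := fun j => homog_X w j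
  have hCr : ∀ (r : k), homog w (MvPolynomial.C r : MvPolynomial τ k) =
      Polynomial.C (MvPolynomial.C r) * Polynomial.X ^ 0 := fun r => by
    rw [homog_C, pow_zero, mul_one]
  -- the compositions
  have h1 : ∀ p, ψ (χ0 p) = a p := by
    have h2 : ψ.comp χ0 = a := by
      refine MvPolynomial.ringHom_ext (fun r => ?_) (fun j => ?_)
      · rw [RingHom.comp_apply, hχ0 _ 0 (hCr r), map_mul, hψc, hψ0 _ 0 (hCr r)]
        simp
      · rw [RingHom.comp_apply, hχ0 _ _ (hXj j), map_mul, map_pow, hψc, hψx, hψ0 _ _ (hXj j),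
          mul_assoc, ← mul_pow, mul_comm v, hv, one_pow, mul_one]
    exact fun p => RingHom.congr_fun h2 p
  have h3 : ∀ p, χ (ψ0 p) = c (b p) := by
    have hχv : x * χ v = 1 := by
      rw [← hχ0e, ← hχa, ← map_mul, hv, map_one]
    have h2 : χ.comp ψ0 = c.comp b := by
      refine MvPolynomial.ringHom_ext (fun r => ?_) (fun j => ?_)
      · rw [RingHom.comp_apply, hψ0 _ 0 (hCr r), map_mul, hχa, hχ0 _ 0 (hCr r)]
        simp
      · rw [RingHom.comp_apply, hψ0 _ _ (hXj j), map_mul, map_pow, hχa, hχ0 _ _ (hXj j),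
          mul_assoc, ← mul_pow, hχv, one_pow, mul_one]
        rfl
    exact fun p => RingHom.congr_fun h2 p
  refine ⟨RingEquiv.ofRingHom χ ψ ?_ ?_⟩
  · refine IsLocalization.ringHom_ext (Submonoid.powers (Polynomial.X : Polynomial L1)) ?_
    refine Polynomial.ringHom_ext' ?_ ?_
    · refine IsLocalization.ringHom_ext (Submonoid.powers (π1 s)) ?_
      refine RingHom.ext fun q => ?_
      obtain ⟨p, rfl⟩ := hπ1 q
      show χ (ψ (c (b p))) = c (b p)
      rw [hψc, h3]
    · show χ (ψ x) = x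
      rw [hψx, hχa, hχ0e]
  · refine IsLocalization.ringHom_ext (Submonoid.powers (π (e * s))) ?_
    refine RingHom.ext fun q => ?_
    obtain ⟨p, rfl⟩ := hπ q
    show ψ (χ (a p)) = a p
    rw [hχa, h1]

end

/-- dehomogenisation for a class -/
theorem Cls.deh {G : (R : Type) → [CommRing R] → Prop} (hG : Cls G) {k τ : Type} [CommRing k]
    [IsNoetherianRing k] [Finite τ] (w : τ → ℕ) (H : Set (MvPolynomial τ k))
    (hH : ∀ h ∈ H, ∃ d : ℕ, homog w h = Polynomial.C h * Polynomial.X ^ d)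
    (e s : MvPolynomial τ k) (he : homog w e = Polynomial.C e * Polynomial.X ^ 1)
    (hs : homog w s = Polynomial.C s * Polynomial.X ^ 0)
    (h : G (Localization.Away (Ideal.Quotient.mk (Ideal.span H) (e * s)))) :
    G (Localization.Away (Ideal.Quotient.mk (Ideal.span H ⊔ Ideal.span {e - 1}) s)) := by
  let L1 := Localization.Away (Ideal.Quotient.mk (Ideal.span H ⊔ Ideal.span {e - 1}) s)
  have hL1 : IsNoetherianRing L1 := noeth_away (V := L1)
    (Ideal.Quotient.mk (Ideal.span H ⊔ Ideal.span {e - 1}) s)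
  let V := Localization.Away (Ideal.Quotient.mk (Ideal.span H) (e * s))
  have hV : IsNoetherianRing V := noeth_away (V := V) (Ideal.Quotient.mk (Ideal.span H) (e * s))
  let V' := Localization.Away (Polynomial.X : Polynomial L1)
  have hV' : IsNoetherianRing V' := noeth_away (V := V') (Polynomial.X : Polynomial L1)
  obtain ⟨E⟩ := exists_deh (V := V) (L1 := L1) (V' := V') w H hH e s he hs
    (Ideal.Quotient.mk (Ideal.span H)) Ideal.Quotient.mk_surjective Ideal.mk_ker
    (Ideal.Quotient.mk (Ideal.span H ⊔ Ideal.span {e - 1})) Ideal.Quotient.mk_surjective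
    Ideal.mk_ker
  exact hG.of_lau L1 V' (hG.iso _ _ E h)

end Pool.Agent.GTH
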