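import Pool.Agent.GTH.Cls
import Pool.Agent.BassH.Dim1

/-!
# G-theories: closed subschemes of affine space from rings of bounded residual dimension
-/

set_option autoImplicit false
set_option linter.style.haveILetI false
set_option linter.unusedSectionVars false

namespace Pool.Agent.GTH

open Function MvPolynomial BassH

namespace Cls

variable {G : (R : Type) → [CommRing R] → Prop} (hG : Cls G)

include hG

theorem quot_quot {R : Type} [CommRing R] [IsNoetherianRing R] (I : Ideal R) (a : R)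
    (h : G (R ⧸ (I ⊔ Ideal.span {a}))) :
    G ((R ⧸ I) ⧸ Ideal.span {Ideal.Quotient.mk I a}) := by
  have e : (Ideal.span {a}).map (Ideal.Quotient.mk I) = Ideal.span {Ideal.Quotient.mk I a} := by
    rw [Ideal.map_span, Set.image_singleton]
  exact hG.iso _ _ ((DoubleQuot.quotQuotEquivQuotSup I (Ideal.span {a})).symm.trans
    (Ideal.quotEquivOfEq e)) h

/-- noetherian induction -/
theorem induct_all (R : Type) [CommRing R] [IsNoetherianRing R]
    (h : ∀ P : Ideal R, P.IsPrime → (∀ J : Ideal R, P < J → G (R ⧸ J)) → G (R ⧸ P))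
    (I : Ideal R) : G (R ⧸ I) := by
  revert I
  refine IsNoetherian.induction (P := fun I : Ideal R => G (R ⧸ I)) ?_
  intro I ih
  by_cases hp : Ideal.IsPrime I
  · exact h I hp ih
  by_cases htop : I = ⊤
  · subst htop
    haveI : Subsingleton (R ⧸ (⊤ : Ideal R)) := Ideal.Quotient.subsingleton_iff.mpr rfl
    exact hG.zero _
  have h1 : ∃ a b : R, a * b ∈ I ∧ a ∉ I ∧ b ∉ I := by
    by_contra hcon
    push Not at hcon
    refine hp ⟨htop, fun {a b} hab => ?_⟩
    by_cases ha : a ∈ I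
    · exact Or.inl ha
    · exact Or.inr (hcon a b hab ha)
  obtain ⟨a, b, hab, ha, hb⟩ := h1
  have hlt : ∀ x : R, x ∉ I → I < I ⊔ Ideal.span {x} := by
    intro x hx
    refine lt_of_le_of_ne le_sup_left fun he => hx ?_
    have h2 : x ∈ I ⊔ Ideal.span {x} :=
      le_sup_right (a := I) (Ideal.mem_span_singleton_self x)
    exact he.symm ▸ h2
  have hle : I ≤ I ⊔ Ideal.span {b} := le_sup_left
  let g : R ⧸ I →+* R ⧸ (I ⊔ Ideal.span {b}) := Ideal.Quotient.factor hle
  have hg : ∀ x, g (Ideal.Quotient.mk I x) = Ideal.Quotient.mk _ x := fun x => rfl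
  refine hG.glue g (Ideal.Quotient.mk I a) (Ideal.Quotient.mk _ a) (hg a) ?_ ?_
    (hG.quot_quot I a (ih _ (hlt a ha))) (ih _ (hlt b hb))
    (hG.quot_quot _ a (ih _ ((hlt b hb).trans_le le_sup_left)))
  · intro t
    obtain ⟨x, rfl⟩ := Ideal.Quotient.mk_surjective t
    exact ⟨0, Ideal.Quotient.mk I x, by rw [pow_zero, one_mul, hg]⟩
  · intro t' ht'
    obtain ⟨x, rfl⟩ := Ideal.Quotient.mk_surjective t'
    rw [hg, Ideal.Quotient.eq_zero_iff_mem] at ht'
    obtain ⟨y, hy, z, hz, rfl⟩ := Submodule.mem_sup.1 ht'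
    obtain ⟨c, rfl⟩ := Ideal.mem_span_singleton.1 hz
    refine ⟨1, ?_⟩
    rw [pow_one, ← map_mul, Ideal.Quotient.eq_zero_iff_mem, mul_add, ← mul_assoc]
    exact add_mem (Ideal.mul_mem_left I _ hy) (Ideal.mul_mem_right _ I hab)

theorem induct (R : Type) [CommRing R] [IsNoetherianRing R]
    (h : ∀ P : Ideal R, P.IsPrime → (∀ J : Ideal R, P < J → G (R ⧸ J)) → G (R ⧸ P)) : G R :=
  hG.iso _ _ (RingEquiv.quotientBot R) (hG.induct_all R h ⊥)

theorem of_prime (R : Type) [CommRing R] [IsNoetherianRing R]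
    (h : ∀ P : Ideal R, P.IsPrime → G (R ⧸ P)) : G R :=
  hG.induct R fun P hP _ => h P hP

end Cls

/-- the residue fields of the quotients of `ℤ / m` are prime fields -/
theorem resDimLE_zmod (m : ℕ) (I : Ideal (ZMod m)) (d : ℕ) : ResDimLE d (ZMod m ⧸ I) := by
  intro P hP
  let L := FractionRing ((ZMod m ⧸ I) ⧸ P)
  have h1 : ∀ x : (ZMod m ⧸ I) ⧸ P, ∃ z : ℤ, (z : (ZMod m ⧸ I) ⧸ P) = x := by
    intro x
    obtain ⟨x, rfl⟩ := Ideal.Quotient.mk_surjective x
    obtain ⟨x, rfl⟩ := Ideal.Quotient.mk_surjective x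
    obtain ⟨z, rfl⟩ := ZMod.intCast_surjective x
    exact ⟨z, by rw [map_intCast, map_intCast]⟩
  have h2 : ∀ x : (ZMod m ⧸ I) ⧸ P, algebraMap _ L x ∈ (⊥ : Subfield L) := by
    intro x
    obtain ⟨z, rfl⟩ := h1 x
    rw [map_intCast]
    exact intCast_mem _ z
  have h3 : ∀ x : L, x ∈ (⊥ : Subfield L) := by
    intro x
    obtain ⟨a, b, hb, rfl⟩ := IsFractionRing.div_surjective (A := (ZMod m ⧸ I) ⧸ P) x
    exact div_mem (h2 a) (h2 b)
  have h4 : Algebra.IsAlgebraic (⊥ : Subfield L) L := ⟨fun x =>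
    isAlgebraic_algebraMap (⟨x, h3 x⟩ : (⊥ : Subfield L))⟩
  have h5 : Algebra.trdeg (⊥ : Subfield L) L = 0 := trdeg_eq_zero
  show Algebra.trdeg (⊥ : Subfield L) L ≤ d
  rw [h5]
  exact zero_le

namespace Cls

variable {G : (R : Type) → [CommRing R] → Prop} (hG : Cls G)

include hG

/-- domains all of whose relations come from the base ring -/
theorem dim1_aux (k : Type) [CommRing k] [IsDomain k] [IsPrincipalIdealRing k]
    (hk : ∀ I : Ideal k, G (k ⧸ I)) (s : ℕ)
    (B : Type) [CommRing B] [IsDomain B] (f : MvPolynomial (Fin s) k →+* B) (hf : Surjective f)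
    (L : Type) [Field L] (g : B →+* L)
    (h : ∀ p : MvPolynomial (Fin s) k, g (f p) = 0 → ∀ v, g (f (C (coeff v p))) = 0) :
    G B := by
  haveI : IsNoetherianRing B := isNoetherianRing_of_surjective _ _ f hf
  have hk0 : G k := hG.iso _ _ (RingEquiv.quotientBot k) (hk ⊥)
  have hA : G (MvPolynomial (Fin s) k) := hG.mv k (Fin s) hk0
  let K : Ideal (MvPolynomial (Fin s) k) := RingHom.ker f
  haveI hKp : K.IsPrime := RingHom.ker_isPrime f
  let φ : k →+* L := (g.comp f).comp C
  let I0 : Ideal k := RingHom.ker φ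
  haveI hI0 : I0.IsPrime := RingHom.ker_isPrime φ
  have hle : K ≤ I0.map C := by
    intro p hp
    rw [mem_map_C_iff]
    intro v
    refine h p ?_ v
    have : f p = 0 := hp
    rw [this, map_zero]
  have hB : ∀ J : Ideal (MvPolynomial (Fin s) k), K = J →
      G (MvPolynomial (Fin s) k ⧸ J) → G B := by
    intro J hJ h1
    subst hJ
    exact hG.iso _ _ (RingHom.quotientKerEquivOfSurjective hf) h1
  obtain ⟨c, hc⟩ := (IsPrincipalIdealRing.principal I0).principal
  have hc' : I0 = Ideal.span {c} := hc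
  have hcI : c ∈ I0 := by rw [hc']; exact Ideal.mem_span_singleton_self c
  by_cases hCK : C c ∈ K
  · refine hB (I0.map C) (le_antisymm hle ?_) ?_
    · rw [hc', Ideal.map_span, Set.image_singleton, Ideal.span_singleton_le_iff_mem]
      exact hCK
    · exact hG.iso _ _ (quotientEquivQuotientMvPolynomial (σ := Fin s) I0).toRingEquiv
        (hG.mv _ (Fin s) (hk I0))
  · refine hB ⊥ ?_ (hG.iso _ _ (RingEquiv.quotientBot _).symm hA)
    rw [eq_bot_iff]
    intro x hx
    rw [Ideal.mem_bot]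
    by_contra hx0
    have key : ∀ n : ℕ, ∃ y ∈ K, x = (C c) ^ n * y := by
      intro n
      induction n with
      | zero => exact ⟨x, hx, by rw [pow_zero, one_mul]⟩
      | succ n ih =>
        obtain ⟨y, hy, hxy⟩ := ih
        have h1 := hle hy
        rw [hc', Ideal.map_span, Set.image_singleton, Ideal.mem_span_singleton] at h1
        obtain ⟨z, hz⟩ := h1
        refine ⟨z, ?_, ?_⟩
        · rw [hz] at hy
          exact (hKp.mem_or_mem hy).resolve_left hCK
        · rw [hxy, hz, pow_succ, mul_assoc]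
    have hu : ¬ IsUnit (C c : MvPolynomial (Fin s) k) := by
      intro hu
      have h1 : IsUnit (constantCoeff (C c : MvPolynomial (Fin s) k)) := hu.map constantCoeff
      rw [constantCoeff_C] at h1
      exact hI0.ne_top (Ideal.eq_top_of_isUnit_mem _ hcI h1)
    obtain ⟨n, hn⟩ := FiniteMultiplicity.of_not_isUnit hu hx0
    obtain ⟨y, -, hy⟩ := key (n + 1)
    exact hn ⟨y, hy⟩

theorem dim1 (m : ℕ) (hm : m = 0 ∨ m.Prime) (d : ℕ)
    (H : ∀ (C : Type) [CommRing C] [Algebra (ZMod m) C] [Algebra.FiniteType (ZMod m) C],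
      ResDimLE d C → G C) (I : Ideal (MvPolynomial (Fin (d + 1)) (ZMod m))) :
    G (MvPolynomial (Fin (d + 1)) (ZMod m) ⧸ I) := by
  obtain ⟨hdom, hpid⟩ : IsDomain (ZMod m) ∧ IsPrincipalIdealRing (ZMod m) := by
    rcases hm with rfl | hm
    · exact ⟨inferInstanceAs (IsDomain ℤ), inferInstanceAs (IsPrincipalIdealRing ℤ)⟩
    · haveI : Fact m.Prime := ⟨hm⟩
      exact ⟨inferInstance, inferInstance⟩
  haveI : IsNoetherianRing (MvPolynomial (Fin (d + 1)) (ZMod m) ⧸ I) := inferInstance
  refine hG.of_prime _ fun P hP => ?_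
  let A := MvPolynomial (Fin (d + 1)) (ZMod m)
  let B := (A ⧸ I) ⧸ P
  haveI : IsDomain B := Ideal.Quotient.isDomain P
  haveI : Algebra.FiniteType (ZMod m) B := inferInstance
  by_cases hres : ResDimLE d B
  · exact H B hres
  unfold ResDimLE at hres
  push Not at hres
  obtain ⟨Q, hQ, hlt⟩ := hres
  haveI := hQ
  let L := FractionRing (B ⧸ Q)
  let f : A →+* B := (Ideal.Quotient.mk P).comp (Ideal.Quotient.mk I)
  have hf : Surjective f :=
    Ideal.Quotient.mk_surjective.comp Ideal.Quotient.mk_surjective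
  let g : B →+* L := (algebraMap (B ⧸ Q) L).comp (Ideal.Quotient.mk Q)
  refine hG.dim1_aux (ZMod m) (fun I => H _ (resDimLE_zmod m I d)) (d + 1) B f hf L g ?_
  let F : Subfield L := ⊥
  let φ0 : ZMod m →+* L := (g.comp f).comp C
  have hφ0 : ∀ x : ZMod m, φ0 x ∈ F := by
    intro x
    obtain ⟨z, rfl⟩ := ZMod.intCast_surjective x
    rw [map_intCast]
    exact intCast_mem F z
  let φ : ZMod m →+* F := φ0.codRestrict F hφ0
  let t : Fin (d + 1) → L := fun i => g (f (X i))
  have hev : ∀ p : A, MvPolynomial.aeval t (MvPolynomial.map φ p) = g (f p) := by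
    intro p
    have h1 : ((MvPolynomial.aeval t : MvPolynomial (Fin (d + 1)) F →ₐ[F] L) :
        MvPolynomial (Fin (d + 1)) F →+* L).comp (MvPolynomial.map φ) = g.comp f := by
      apply MvPolynomial.ringHom_ext
      · intro a
        show MvPolynomial.aeval t (MvPolynomial.map φ (C a)) = g (f (C a))
        rw [map_C, aeval_C]
        rfl
      · intro i
        show MvPolynomial.aeval t (MvPolynomial.map φ (X i)) = g (f (X i))
        rw [map_X, aeval_X]
    exact RingHom.congr_fun h1 p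
  have hind : AlgebraicIndependent F t := by
    by_contra hdep
    refine absurd (trdeg_le_of_dep F L t ?_ hdep) (not_le.mpr hlt)
    intro x
    obtain ⟨⟨a, b⟩, hab⟩ := IsLocalization.surj (nonZeroDivisors (B ⧸ Q)) x
    obtain ⟨a, rfl⟩ := Ideal.Quotient.mk_surjective a
    obtain ⟨b, hb⟩ := b
    obtain ⟨b, rfl⟩ := Ideal.Quotient.mk_surjective b
    obtain ⟨a, rfl⟩ := hf a
    obtain ⟨b, rfl⟩ := hf b
    refine ⟨MvPolynomial.map φ a, MvPolynomial.map φ b, ?_, ?_⟩
    · rw [hev]
      show algebraMap (B ⧸ Q) L (Ideal.Quotient.mk Q (f b)) ≠ 0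
      exact IsFractionRing.to_map_ne_zero_of_mem_nonZeroDivisors hb
    · rw [hev, hev]
      exact hab
  intro p hp v
  rw [← hev] at hp
  have h1 : MvPolynomial.map φ p = 0 := algebraicIndependent_iff.1 hind _ hp
  have h2 := congrArg (coeff v) h1
  rw [coeff_map, coeff_zero] at h2
  exact congrArg Subtype.val h2

end Cls

end Pool.Agent.GTH
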