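import Pool.Agent.GTH.Dim1
import Pool.Agent.BassH.Dim2

/-!
# G-theories: rings of bounded residual dimension from closed subschemes of affine space
-/

set_option autoImplicit false
set_option linter.style.haveILetI false
set_option linter.unusedSectionVars false

namespace Pool.Agent.GTH

open Function MvPolynomial BassH
open Pool.Agent.Helper67.Bass (aw le_aw inv_mem_aw aw_le isLocAway finite_of_ess ess_int
  finiteType_mv)

namespace Cls

variable {G : (R : Type) → [CommRing R] → Prop} (hG : Cls G)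

include hG

theorem dim2 (m : ℕ) (d : ℕ)
    (H : ∀ I : Ideal (MvPolynomial (Fin (d + 1)) (ZMod m)),
      G (MvPolynomial (Fin (d + 1)) (ZMod m) ⧸ I))
    (C : Type) [CommRing C] [Algebra (ZMod m) C] [Algebra.FiniteType (ZMod m) C]
    (hres : ResDimLE d C) : G C := by
  haveI hZ : IsNoetherianRing (ZMod m) := isNoetherianRing_of_surjective ℤ (ZMod m)
    (Int.castRingHom (ZMod m)) (ZMod.ringHom_surjective _)
  haveI : IsNoetherianRing C := Algebra.FiniteType.isNoetherianRing (ZMod m) C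
  refine hG.induct C fun P hP hJ => ?_
  haveI := hP
  let B := C ⧸ P
  let L := FractionRing B
  -- `B` is finitely generated
  haveI : Algebra.FiniteType (ZMod m) B := inferInstance
  obtain ⟨n, f, hf⟩ := Algebra.FiniteType.iff_quotient_mvPolynomial''.mp
    (inferInstance : Algebra.FiniteType (ZMod m) B)
  obtain ⟨t, ht⟩ := @dim2_gens L _ (@ess_int B _ _ (ft_int B f.toRingHom hf) L _ _ _) d (hres P)
  let k := ZMod m
  let ι : B →+* L := algebraMap B L
  have hι : Injective ι := IsFractionRing.injective B L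
  let φ : k →+* L := ι.comp (algebraMap k B)
  let A := MvPolynomial (Fin (d + 1)) k
  let ψ : A →+* L := eval₂Hom φ t
  let B1 : Subring L := ι.range
  let C1 : Subring L := ψ.range
  have hφB : ∀ r, φ r ∈ B1 := fun r => ⟨_, rfl⟩
  have hφC : ∀ r, φ r ∈ C1 := fun r => ⟨MvPolynomial.C r, eval₂Hom_C _ _ _⟩
  have hfracB : ∀ x : L, ∃ a ∈ B1, ∃ b ∈ B1, b ≠ 0 ∧ x * b = a := by
    intro x
    obtain ⟨⟨a, b, hb⟩, hab⟩ := IsLocalization.surj (nonZeroDivisors B) x
    exact ⟨ι a, ⟨a, rfl⟩, ι b, ⟨b, rfl⟩,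
      IsFractionRing.to_map_ne_zero_of_mem_nonZeroDivisors hb, hab⟩
  have hfracC : ∀ x : L, ∃ a ∈ C1, ∃ b ∈ C1, b ≠ 0 ∧ x * b = a := by
    intro x
    have hx : x ∈ Subfield.closure (Set.range t) := by rw [ht]; trivial
    obtain ⟨y, hy, z, hz, rfl⟩ := Subfield.mem_closure_iff.mp hx
    have hle : Subring.closure (Set.range t) ≤ C1 := by
      rw [Subring.closure_le]
      rintro _ ⟨i, rfl⟩
      exact ⟨X i, eval₂Hom_X' _ _ _⟩
    by_cases hz0 : z = 0
    · exact ⟨0, zero_mem _, 1, one_mem _, one_ne_zero, by rw [hz0, div_zero, zero_mul]⟩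
    · exact ⟨y, hle hy, z, hle hz, hz0, div_mul_cancel₀ y hz0⟩
  -- the two denominators
  obtain ⟨s2, h2, h20, hC⟩ := exists_aw φ t B1 hφB hfracB
  obtain ⟨s1, h1, h10, hB⟩ := exists_aw φ (fun i => ι (f (X i))) C1 hφC hfracC
  have hB' : B1 ≤ aw C1 s1 h1 := by
    refine le_trans ?_ hB
    rintro _ ⟨b, rfl⟩
    obtain ⟨p, rfl⟩ := hf b
    refine ⟨p, ?_⟩
    have e : eval₂Hom φ (fun i => ι (f (X i))) = ι.comp (f : MvPolynomial (Fin n) k →+* B) := by
      apply MvPolynomial.ringHom_ext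
      · intro a
        rw [eval₂Hom_C]
        show ι (algebraMap k B a) = ι (f (MvPolynomial.C a))
        rw [← MvPolynomial.algebraMap_eq, AlgHom.commutes]
      · intro i
        rw [eval₂Hom_X']
        rfl
    exact RingHom.congr_fun e p
  obtain ⟨u, v, hu, hv, hu0, hv0, heq⟩ := exists_common_aw B1 C1 s1 s2 h1 h2 h10 h20 hB' hC
  obtain ⟨u', rfl⟩ := hu
  obtain ⟨v', rfl⟩ := hv
  -- `B[1/u']`
  let V : Subring L := aw B1 (ι u') ⟨u', rfl⟩
  have hFGV : G V := by
    have hVC : V = aw C1 (ψ v') ⟨v', rfl⟩ := heq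
    let A1 := A ⧸ RingHom.ker ψ
    let ψ' : A1 →+* L := RingHom.kerLift ψ
    have hψ' : Injective ψ' := RingHom.kerLift_injective ψ
    have hmk : ∀ a, ψ' (Ideal.Quotient.mk _ a) = ψ a := fun a => rfl
    have hmem : ∀ r, ψ' r ∈ V := by
      intro r
      obtain ⟨a, rfl⟩ := Ideal.Quotient.mk_surjective r
      rw [hmk, hVC]
      exact le_aw _ ⟨a, rfl⟩
    letI := (ψ'.codRestrict V hmem).toAlgebra
    haveI : IsLocalization.Away (Ideal.Quotient.mk (RingHom.ker ψ) v') V := by
      refine isLocAway ψ' hψ' (Ideal.Quotient.mk (RingHom.ker ψ) v') hv0 V hmem ?_ ?_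
      · rw [hmk, hVC]
        exact inv_mem_aw _ hv0
      · intro x hx
        rw [hVC] at hx
        obtain ⟨n, a, ha⟩ := hx
        exact ⟨n, Ideal.Quotient.mk _ a, ha.symm⟩
    haveI : IsNoetherianRing A1 := inferInstance
    exact hG.away A1 V (Ideal.Quotient.mk (RingHom.ker ψ) v') (H (RingHom.ker ψ))
      (hG.of_surj H ((Ideal.Quotient.mk _).comp (Ideal.Quotient.mk (RingHom.ker ψ)))
        (Ideal.Quotient.mk_surjective.comp Ideal.Quotient.mk_surjective))
  have hmem : ∀ r, ι r ∈ V := fun r => le_aw _ ⟨r, rfl⟩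
  letI := (ι.codRestrict V hmem).toAlgebra
  haveI : IsLocalization.Away u' V := by
    refine isLocAway ι hι u' hu0 V hmem (inv_mem_aw _ hu0) ?_
    intro x hx
    obtain ⟨n, a, ha⟩ := hx
    exact ⟨n, a, ha.symm⟩
  refine hG.of_away B V u' ?_ hFGV
  obtain ⟨w, rfl⟩ := Ideal.Quotient.mk_surjective u'
  have hw : w ∉ P := by
    intro hw
    apply hu0
    rw [Ideal.Quotient.eq_zero_iff_mem.mpr hw, map_zero]
  have hlt : P < P ⊔ Ideal.span {w} := by
    refine lt_of_le_of_ne le_sup_left fun he => hw ?_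
    have h2 : w ∈ P ⊔ Ideal.span {w} :=
      le_sup_right (a := P) (Ideal.mem_span_singleton_self w)
    exact he.symm ▸ h2
  exact hG.quot_quot P w (hJ _ hlt)

end Cls

end Pool.Agent.GTH
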