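import Pool.Agent.GTH.Cub
import Pool.Agent.GTH.SFG

/-!
# G-theories: reduction to smooth affine cubics
-/

set_option autoImplicit false

open Function

namespace Pool.Agent.GTH

universe u

theorem thm_E_aux (k : Type) [CommRing k] [IsNoetherianRing k] {N : WithTop ℤ}
    (𝒯 : GTheory.{u} N) {𝒮 : (G : Type u) → [AddCommGroup G] → Prop} (h𝒮 : Serre 𝒮) (M : ℤ)
    (hM : (M : WithTop ℤ) < N) (h : ∀ (ι : Type) [Fintype ι] (f : MvPolynomial ι k), f.totalDegree ≤ 3 →
      Algebra.Smooth k (MvPolynomial ι k ⧸ Ideal.span {f}) →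
      𝒮 (𝒯.T M (MvPolynomial ι k ⧸ Ideal.span {f}))) :
    ∀ (j : ℕ) (C : Type) [CommRing C] [Algebra k C] [Algebra.FiniteType k C],
      𝒮 (𝒯.T (M - j) C) := by
  intro j
  induction j with
  | zero =>
      intro C _ _ _
      obtain ⟨ι, _, f, hf, hs, hT⟩ := thm_A.{u} k C
      obtain ⟨e⟩ := (hT N 𝒯 M).2 hM
      have h1 := h ι f hf hs
      rw [Nat.cast_zero, sub_zero]
      exact h𝒮.of_surj ((AddMonoidHom.snd _ _).comp e.toAddMonoidHom)
        (Prod.snd_surjective.comp e.surjective) h1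
  | succ j ih =>
      intro C _ _ _
      have : IsNoetherianRing C := Algebra.FiniteType.isNoetherianRing k C
      have : Algebra.FiniteType k (Polynomial C) :=
        Algebra.FiniteType.trans (R := k) (S := C) (A := Polynomial C) inferInstance inferInstance
      have h1 := ih (Localization.Away (Polynomial.X : Polynomial C))
      have e1 : M - (j : ℤ) = M - ((j + 1 : ℕ) : ℤ) + 1 := by
        push_cast
        ring
      rw [e1] at h1
      refine SFG.of_lau_succ h𝒮 (SFG.isLau_std (A := C)) _ ?_ h1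
      refine lt_of_le_of_lt (WithTop.coe_le_coe.2 ?_) hM
      omega

/-- (E): reduction to smooth affine cubics, one degree -/
theorem thm_E (k : Type) [CommRing k] [IsNoetherianRing k] {N : WithTop ℤ} (𝒯 : GTheory.{u} N)
    {𝒮 : (G : Type u) → [AddCommGroup G] → Prop} (h𝒮 : Serre 𝒮) (M : ℤ)
    (hM : (M : WithTop ℤ) < N) :
    (∀ (C : Type) [CommRing C] [Algebra k C] [Algebra.FiniteType k C] (n : ℤ), n ≤ M →
      𝒮 (𝒯.T n C)) ↔
    ∀ (ι : Type) [Fintype ι] (f : MvPolynomial ι k), f.totalDegree ≤ 3 →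
      Algebra.Smooth k (MvPolynomial ι k ⧸ Ideal.span {f}) →
      𝒮 (𝒯.T M (MvPolynomial ι k ⧸ Ideal.span {f})) := by
  constructor
  · intro h ι _ f _ _
    exact h _ M le_rfl
  · intro h C _ _ _ n hn
    have h1 := thm_E_aux k 𝒯 h𝒮 M hM h (M - n).toNat C
    rw [Int.toNat_of_nonneg (by omega)] at h1
    rw [show n = M - (M - n) by ring]
    exact h1

end Pool.Agent.GTH
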