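import Pool.Agent.GTH.G0A
import Pool.Agent.HPow.Loc
import Pool.Agent.HPow.Fre

/-!
# The groups `G₀`: homotopy invariance and localization
-/

set_option autoImplicit false
set_option linter.unusedSectionVars false
set_option linter.style.haveILetI false

namespace Pool.Agent.GTH

open Pool.Agent.Helper11 Pool.Agent.Helper83.Bass Pool.Agent.Helper67.Bass Pool.Agent.HPow
open Function TensorProduct Polynomial

section poly

variable {A : Type} [CommRing A] [IsNoetherianRing A]

/-- `M ↦ [ker X] - [M / X M]` -/
noncomputable def sX (A : Type) [CommRing A] [IsNoetherianRing A] : FGMod A[X] → G0 A :=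
  perχ (fun M => G0.mk (desc (constantCoeff : A[X] →+* A) cc_surj M))
    (!![(X : A[X])]) (!![(0 : A[X])])

theorem ker_cc : RingHom.ker (constantCoeff : A[X] →+* A) = Ideal.span {(X : A[X])} := by
  refine Ideal.ext fun p => ?_
  rw [RingHom.mem_ker, Ideal.mem_span_singleton, X_dvd_iff]
  rfl

theorem isAdd_s0 : IsAdd (KilledBy (Ideal.span {(X : A[X])}))
    (fun M => G0.mk (desc (constantCoeff : A[X] →+* A) cc_surj M)) := by
  have h := isAdd_desc (constantCoeff : A[X] →+* A) cc_surj (G0.isAdd_mk (R := A))
  have e : (⊥ : Ideal A).comap (constantCoeff : A[X] →+* A) = Ideal.span {(X : A[X])} := by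
    rw [← ker_cc]
    rfl
  rw [e] at h
  exact h

theorem isAdd_sX : IsAdd (KilledBy (⊥ : Ideal A[X])) (sX A) := by
  refine isAdd_perχ isAdd_s0 _ _ ?_ ?_
  · intro t ht
    obtain ⟨r, rfl⟩ := Ideal.mem_span_singleton.1 ht
    refine NullH.nullK ⟨0, !![r], ?_, ?_⟩
    · ext i j
      fin_cases i
      fin_cases j
      simp
    · ext i j
      fin_cases i
      fin_cases j
      simp [mul_comm]
  · intro M _
    refine ⟨fun y => ?_, fun y => ?_⟩
    · ext i
      fin_cases i
      simp [act_apply]
    · ext i
      fin_cases i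
      simp [act_apply]

/-- the homomorphism `G₀(A[X]) → G₀(A)` -/
noncomputable def sG (A : Type) [CommRing A] [IsNoetherianRing A] : G0 A[X] →+ G0 A :=
  G0.lift (sX A) (fun M' M M'' f g hf hg hfg => isAdd_sX.add M' M M'' f g hf hg hfg
    (G0.killedBy_bot M))

theorem act0 (M : FGMod A[X]) (v : Fin 1 → M) : act (!![(0 : A[X])]) M v = 0 := by
  ext i
  fin_cases i
  simp [act_apply]

theorem actX (M : FGMod A[X]) (v : Fin 1 → M) : act (!![(X : A[X])]) M v = (X : A[X]) • v := by
  ext i
  fin_cases i
  simp [act_apply]

theorem sX_bc (N : FGMod A) : sX A (bc A A[X] N) = - G0.mk N := by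
  unfold sX perχ
  have h1 : G0.mk (desc (constantCoeff : A[X] →+* A) cc_surj
      (perH (!![(X : A[X])]) (!![(0 : A[X])]) (bc A A[X] N))) = 0 := by
    haveI : Subsingleton (perH (!![(X : A[X])]) (!![(0 : A[X])]) (bc A A[X] N)) := by
      refine ⟨fun x y => ?_⟩
      obtain ⟨⟨x, hx⟩, rfl⟩ := Submodule.Quotient.mk_surjective _ x
      obtain ⟨⟨y, hy⟩, rfl⟩ := Submodule.Quotient.mk_surjective _ y
      have h0 : ∀ v : Fin 1 → bc A A[X] N, act (!![(X : A[X])]) (bc A A[X] N) v = 0 →
          v = 0 := by
        intro v hv
        rw [actX] at hv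
        funext i
        exact X_inj N (v i) (congrFun hv i)
      have h2 : x = y := (h0 x hx).trans (h0 y hy).symm
      subst h2
      rfl
    exact isAdd_s0.zero _ (fun s _ m => Subsingleton.elim _ _)
  have h2 : G0.mk (desc (constantCoeff : A[X] →+* A) cc_surj
      (perH (!![(0 : A[X])]) (!![(X : A[X])]) (bc A A[X] N))) = G0.mk N := by
    let u : LinearMap.ker (act (!![(0 : A[X])]) (bc A A[X] N)) →ₗ[A[X]]
        restr (constantCoeff : A[X] →+* A) cc_surj N :=
      (q1 N) ∘ₗ (LinearMap.proj 0) ∘ₗ (Submodule.subtype _)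
    have hu : Surjective u := fun n => by
      obtain ⟨z, hz⟩ := q1_surj N n
      exact ⟨⟨fun _ => z, act0 _ _⟩, hz⟩
    have hk : (LinearMap.range (act (!![(X : A[X])]) (bc A A[X] N))).submoduleOf
        (LinearMap.ker (act (!![(0 : A[X])]) (bc A A[X] N))) = LinearMap.ker u := by
      refine Submodule.ext fun v => ?_
      change v.1 ∈ LinearMap.range (act (!![(X : A[X])]) (bc A A[X] N)) ↔ q1 N (v.1 0) = 0
      rw [q1_ker]
      constructor
      · rintro ⟨w, hw⟩
        rw [actX] at hw
        exact ⟨w 0, congrFun hw 0⟩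
      · rintro ⟨w, hw⟩
        refine ⟨fun _ => w, ?_⟩
        rw [actX]
        funext i
        fin_cases i
        exact hw
    have e : perH (!![(0 : A[X])]) (!![(X : A[X])]) (bc A A[X] N) ≃ₗ[A[X]]
        restr (constantCoeff : A[X] →+* A) cc_surj N :=
      (Submodule.quotEquivOfEq _ _ hk).trans (u.quotKerEquivOfSurjective hu)
    have h3 := isAdd_s0.iso e.symm (M := restr (constantCoeff : A[X] →+* A) cc_surj N) (by
      intro s hs m
      obtain ⟨r, rfl⟩ := Ideal.mem_span_singleton.1 hs
      apply (restrEquiv (constantCoeff : A[X] →+* A) cc_surj N).injective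
      rw [restrEquiv_smul, map_zero, map_mul]
      have : (constantCoeff : A[X] →+* A) X = 0 := coeff_X_zero
      rw [this, zero_mul, zero_smul])
    have h4 := desc_restr (constantCoeff : A[X] →+* A) cc_surj (G0.isAdd_mk (R := A)) N
      (G0.killedBy_bot N)
    exact h3.symm.trans h4
  exact (congrArg₂ (· - ·) h1 h2).trans (zero_sub _)

theorem sG_bc (x : G0 A) : sG A (bcG A A[X] x) = - x := by
  induction x using G0.induction with
  | hz => simp only [map_zero, neg_zero]
  | hm N =>
    rw [bcG_mk]
    exact (G0.lift_mk _ _ _).trans (sX_bc N)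
  | hn x hx => rw [map_neg, map_neg, hx]
  | ha x y hx hy => rw [map_add, map_add, hx, hy]; abel

/-- homotopy invariance -/
theorem bcG_poly_bij : Bijective (bcG A A[X]) := by
  refine ⟨fun x y h => ?_, ?_⟩
  · have h1 := congrArg (sG A) h
    rw [sG_bc, sG_bc, neg_inj] at h1
    exact h1
  · rw [← AddMonoidHom.range_eq_top, eq_top_iff, ← G0.closure_mk, AddSubgroup.closure_le]
    rintro _ ⟨M, rfl⟩
    exact gen_polynomial A _ (two3_closure (bcG A A[X]).range).toResClass
      (fun N => ⟨G0.mk N, bcG_mk A A[X] N⟩) M

end poly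

/-! ### localisation -/

section loc

variable {A C L : Type} [CommRing A] [IsNoetherianRing A] [CommRing C] [CommRing L]

theorem loc_iff [Algebra A L] [Module.Flat A L] (s : A) [IsLocalization.Away s L] (π : A →+* C)
    (hπ : Surjective π) (hk : RingHom.ker π = Ideal.span {s}) (x : G0 A) :
    bcG A L x = 0 ↔ ∃ y, surG π hπ y = x := by
  constructor
  · intro hx
    have h := loc_exact (V := L) s x hx
    have hle : AddSubgroup.closure {y | ∃ M : FGMod A, KilledBy (Ideal.span {s}) M ∧
        y = G0.mk M} ≤ (surG π hπ).range := by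
      rw [AddSubgroup.closure_le]
      rintro _ ⟨M, hM, rfl⟩
      rw [← hk] at hM
      obtain ⟨N, e, he⟩ := exists_desc π hπ M hM
      refine ⟨G0.mk N, ?_⟩
      rw [surG_mk]
      refine (mk_eq_of_iso ?_).symm
      exact { e.trans (restrEquiv π hπ N).symm with
        map_smul' := fun t x => he t x }
    exact hle h
  · rintro ⟨y, rfl⟩
    induction y using G0.induction with
    | hz => simp only [map_zero]
    | hm N =>
      rw [surG_mk, bcG_mk]
      haveI : Subsingleton (bc A L (restr π hπ N)) := by
        refine ⟨fun z w => ?_⟩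
        have h0 : ∀ z : bc A L (restr π hπ N), z = 0 := by
          intro z
          have hu : IsUnit (algebraMap A L s) := IsLocalization.Away.algebraMap_isUnit s
          have h1 : algebraMap A L s • z = 0 := by
            induction z using TensorProduct.induction_on with
            | zero => rw [smul_zero]
            | tmul l n =>
              rw [algebraMap_smul, ← TensorProduct.tmul_smul]
              have h2 : s • n = 0 := by
                apply (restrEquiv π hπ N).injective
                have h3 : π s = 0 := by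
                  rw [← RingHom.mem_ker, hk]
                  exact Ideal.mem_span_singleton_self s
                rw [restrEquiv_smul, map_zero, h3, zero_smul]
              rw [h2, TensorProduct.tmul_zero]
            | add x y hx hy => rw [smul_add, hx, hy, add_zero]
          exact (hu.smul_eq_zero).1 h1
        rw [h0 z, h0 w]
      exact mk_zero _
    | hn x hx => rw [map_neg, map_neg, hx, neg_zero]
    | ha x y hx hy => rw [map_add, map_add, hx, hy, add_zero]

end loc

end Pool.Agent.GTH
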