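import Pool.Agent.GTH.Defs
import Pool.Agent.GTH.G0B

/-!
# `G₀` is a G-theory of length `0`
-/

set_option autoImplicit false
set_option linter.unusedSectionVars false
set_option linter.style.haveILetI false

namespace Pool.Agent.GTH

open Pool.Agent.Helper11 Pool.Agent.Helper83.Bass Pool.Agent.Helper67.Bass Pool.Agent.HPow
open Function TensorProduct Polynomial

/-- `G` in degree `0`, and `0` in the other degrees -/
def K0n (n : ℤ) (G : Type 1) [AddCommGroup G] : AddSubgroup G where
  carrier := {x | n ≠ 0 → x = 0}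
  add_mem' := fun ha hb hn => by rw [ha hn, hb hn, add_zero]
  zero_mem' := fun _ => rfl
  neg_mem' := fun ha hn => by rw [ha hn, neg_zero]

/-- the restriction of a homomorphism -/
def K0map (n : ℤ) {G H : Type 1} [AddCommGroup G] [AddCommGroup H] (φ : G →+ H) :
    K0n n G →+ K0n n H :=
  (φ.comp (K0n n G).subtype).codRestrict (K0n n H) (fun x hn => by
    change φ x.1 = 0
    rw [x.2 hn, map_zero])

theorem K0map_coe (n : ℤ) {G H : Type 1} [AddCommGroup G] [AddCommGroup H] (φ : G →+ H)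
    (x : K0n n G) : (K0map n φ x : H) = φ x := rfl

theorem K0n_zero {n : ℤ} (hn : n ≠ 0) {G : Type 1} [AddCommGroup G] (x : K0n n G) : x = 0 :=
  Subtype.ext (x.2 hn)

open Classical in
/-- pull-back, as a total function -/
noncomputable def plT {R S : Type} [CommRing R] [CommRing S] (φ : R →+* S) : G0 R →+ G0 S :=
  if h : φ.Flat then plG φ h else 0

open Classical in
/-- push-forward, as a total function -/
noncomputable def psT {R S : Type} [CommRing R] [CommRing S] (φ : R →+* S) : G0 S →+ G0 R :=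
  if h : Surjective φ then surG φ h else 0

theorem plT_eq {R S : Type} [CommRing R] [CommRing S] (φ : R →+* S) (h : φ.Flat) :
    plT φ = plG φ h := dif_pos h

theorem psT_eq {R S : Type} [CommRing R] [CommRing S] (φ : R →+* S) (h : Surjective φ) :
    psT φ = surG φ h := dif_pos h

theorem plT_algebraMap (R S : Type) [CommRing R] [CommRing S] [Algebra R S] [Module.Flat R S] :
    plT (algebraMap R S) = bcG R S := by
  have h : (algebraMap R S).Flat := RingHom.flat_algebraMap_iff.2 inferInstance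
  rw [plT_eq _ h, plG_algebraMap]

theorem IsLoc.pull {A C L : Type} [CommRing A] [IsNoetherianRing A] [CommRing C] [CommRing L]
    {s : A} {π : A →+* C} {l : A →+* L} (h : IsLoc s π l) :
    Surjective (plT l) ∧ ∀ x : G0 A, plT l x = 0 ↔ ∃ y, psT π y = x := by
  letI := l.toAlgebra
  haveI : IsLocalization.Away s L := h.loc
  haveI : Module.Flat A L := h.flat
  have h1 : plT l = bcG A L := plT_algebraMap A L
  rw [h1, psT_eq π h.surj]
  exact ⟨bcG_surj_away s, loc_iff s π h.surj h.ker⟩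

/-- `G₀` is a G-theory of length `0`. -/
noncomputable def G0Theory : GTheory.{1} 0 where
  T n A _ := AddCommGrpCat.of (K0n n (G0 A))
  pull n A B _ _ φ := K0map n (plT φ)
  push n A B _ _ φ := K0map n (psT φ)
  bd m n A C L _ _ _ s π l := 0
  pull_id n A _ _ x := by
    refine Subtype.ext ?_
    rw [K0map_coe, plT_eq _ (RingHom.Flat.id A), plG_id]
  pull_comp n A B C _ _ _ _ _ _ φ ψ hφ hψ x := by
    refine Subtype.ext ?_
    rw [K0map_coe, K0map_coe, K0map_coe, plT_eq _ hφ, plT_eq _ hψ, plT_eq _ (hφ.comp hψ)]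
    exact plG_comp φ ψ hφ hψ _ _
  push_id n A _ _ x := by
    refine Subtype.ext ?_
    rw [K0map_coe, psT_eq _ surjective_id]
    exact surG_id _ _ (fun _ => rfl) _
  push_comp n A B C _ _ _ _ _ _ φ ψ hφ hψ x := by
    refine Subtype.ext ?_
    rw [K0map_coe, K0map_coe, K0map_coe, psT_eq _ hφ, psT_eq _ hψ,
      psT_eq (ψ.comp φ) (hψ.comp hφ), surG_surG]
  base_change n A A' C C' _ _ _ _ _ _ _ _ φ hφ π hπ π' hπ' hk ψ hψ h x := by
    refine Subtype.ext ?_
    rw [K0map_coe, K0map_coe, K0map_coe, K0map_coe, plT_eq _ hφ, plT_eq _ hψ, psT_eq _ hπ,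
      psT_eq _ hπ']
    exact plG_surG φ hφ π hπ π' hπ' hk ψ hψ h _
  exA n A C L _ _ _ _ _ _ s π l h x := by
    by_cases hn : n = 0
    · subst hn
      constructor
      · intro hx
        obtain ⟨y, hy⟩ := (h.pull.2 x.1).1 (congrArg Subtype.val hx)
        exact ⟨⟨y, fun h => absurd rfl h⟩, Subtype.ext hy⟩
      · rintro ⟨y, hy⟩
        refine Subtype.ext ((h.pull.2 x.1).2 ⟨y.1, congrArg Subtype.val hy⟩)
    · exact ⟨fun _ => ⟨0, (K0n_zero hn _).trans (K0n_zero hn _).symm⟩, fun _ => K0n_zero hn _⟩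
  exL m n hmn A C L _ _ _ _ _ _ s π l h x := by
    refine ⟨fun _ => ?_, fun _ => rfl⟩
    by_cases hm : m = 0
    · subst hm
      obtain ⟨y, hy⟩ := h.pull.1 x.1
      exact ⟨⟨y, fun h => absurd rfl h⟩, Subtype.ext hy⟩
    · exact ⟨0, (K0n_zero hm _).trans (K0n_zero hm _).symm⟩
  exC m n hmn hn A C L _ _ _ _ _ _ s π l h x := by
    have hn' : n ≠ 0 := by
      rintro rfl
      exact absurd hn (lt_irrefl _)
    exact ⟨fun _ => ⟨0, (K0n_zero hn' _).trans (K0n_zero hn' _).symm⟩,
      fun _ => by rw [K0n_zero hn' x, map_zero]⟩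
  bd_pull m n hmn A C L _ _ _ _ _ _ s π l h A' C' L' _ _ _ _ _ _ s' π' l' h' φ hφ hs ψ hψ h1 χ
    hχ h2 x := by
    change (0 : K0n n (G0 C')) = K0map n (plT ψ) 0
    rw [map_zero]
  homotopy n A _ _ := by
    have h : plT (C : A →+* A[X]) = bcG A A[X] := plT_algebraMap A A[X]
    by_cases hn : n = 0
    · subst hn
      have hb := bcG_poly_bij (A := A)
      rw [← h] at hb
      refine ⟨fun x y hxy => Subtype.ext (hb.1 (congrArg Subtype.val hxy)), fun y => ?_⟩
      obtain ⟨x, hx⟩ := hb.2 y.1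
      exact ⟨⟨x, fun h => absurd rfl h⟩, Subtype.ext hx⟩
    · exact ⟨fun x y _ => (K0n_zero hn x).trans (K0n_zero hn y).symm,
        fun y => ⟨0, (K0n_zero hn _).trans (K0n_zero hn _).symm⟩⟩
  push_zero n A _ _ x := by
    refine Subtype.ext ?_
    rw [K0map_coe, psT_eq _ cc_surj, surG_cc]
    rfl

theorem exists_G0Theory : ∃ T : GTheory.{1} 0,
    (∀ (A : Type) [CommRing A], Nonempty (T.T 0 A ≃+ G0 A)) ∧
      ∀ n : ℤ, n ≠ 0 → ∀ (A : Type) [CommRing A], Subsingleton (T.T n A) := by
  refine ⟨G0Theory, fun A _ => ⟨?_⟩, fun n hn A _ => ?_⟩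
  · exact
      { toFun := fun x => x.1
        invFun := fun x => ⟨x, fun h => absurd rfl h⟩
        left_inv := fun _ => rfl
        right_inv := fun _ => rfl
        map_add' := fun _ _ => rfl }
  · exact ⟨fun x y => (K0n_zero hn x).trans (K0n_zero hn y).symm⟩

end Pool.Agent.GTH
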