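import Pool.Agent.GTH.SFG
import Pool.Agent.BassH.Hier

/-!
# G-theories: the statements of the hierarchy
-/

set_option autoImplicit false

namespace Pool.Agent.GTH

open BassH MvPolynomial

/-- all finitely generated `k`-algebras `C` whose residue fields have transcendence degree at most
`d` over their prime fields are in the class `G` -/
def ResG (G : (R : Type) → [CommRing R] → Prop) (k : Type) [CommRing k] (d : ℕ) : Prop :=
  ∀ (C : Type) [CommRing C] [Algebra k C] [Algebra.FiniteType k C], ResDimLE d C → G C

/-- all closed subschemes of affine `n`-space over `k` are in the class `G` -/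
def AffG (G : (R : Type) → [CommRing R] → Prop) (k : Type) [CommRing k] (n : ℕ) : Prop :=
  ∀ I : Ideal (MvPolynomial (Fin n) k), G (MvPolynomial (Fin n) k ⧸ I)

/-- all trilinear hypersurfaces `F = 0` of format `(a, b, c)` are in the class `G` -/
def TriG (G : (R : Type) → [CommRing R] → Prop) (k : Type) [CommRing k] (a : ℕ) : Prop :=
  ∀ (b c : ℕ) (t : Fin a → Fin b → Fin c → k), G (TriRing t)

/-- all cubics `F = T² - T` of format `(a, b, c)` are in the class `G` -/
def CubG (G : (R : Type) → [CommRing R] → Prop) (k : Type) [CommRing k] (a : ℕ) : Prop :=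
  ∀ (b c : ℕ) (t : Fin a → Fin b → Fin c → k), G (CubRing t)

/-- all complements `F ≠ 0`, `F` a nonzero form of format `(a, b, c)`, are in the class `G` -/
def CompG (G : (R : Type) → [CommRing R] → Prop) (k : Type) [CommRing k] (a : ℕ) : Prop :=
  ∀ (b c : ℕ) (t : Fin a → Fin b → Fin c → k), triF t ≠ 0 → G (CompRing t)

end Pool.Agent.GTH
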