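import Pool.Agent.GTH.Back
import Pool.Agent.GTH.Hier
import Pool.Agent.GTH.E
import Pool.Agent.GTH.G0T
import Pool.Agent.GTH.Dim2
import Pool.Agent.BassH.All
import Pool.Agent.Helper83.Bass.Main

/-!
# G-theories: assembly
-/

set_option autoImplicit false
set_option linter.unusedSectionVars false

open Function

namespace Pool.Agent.GTH

universe u

open BassH (triF cubF TriRing CubRing CompRing ResDimLE)
open Pool.Agent.Helper11 (G0 FGMod)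

section

variable {N : WithTop ℤ} (𝒯 : GTheory.{u} N) {𝒮 : (G : Type u) → [AddCommGroup G] → Prop}
  (h𝒮 : Serre 𝒮)

include h𝒮

/-- (2) to (5) over a noetherian ring -/
theorem fin_25 (k : Type) [CommRing k] [IsNoetherianRing k] (M : ℤ) (hM : (M : WithTop ℤ) < N)
    (h0 : ∀ i : ℤ, i ≤ M + 1 → 𝒮 (𝒯.T i k)) (n : ℕ) :
    List.TFAE [AffG (fun R _ => SFG 𝒯 𝒮 M R) k n, TriG (fun R _ => SFG 𝒯 𝒮 M R) k (n + 1),
      CubG (fun R _ => SFG 𝒯 𝒮 M R) k (n + 1), CompG (fun R _ => SFG 𝒯 𝒮 (M + 1) R) k (n + 1)] :=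
  tfae_25 𝒯 h𝒮 M hM h0 n

/-- the forward half, up to the length -/
theorem fin_fwd (k : Type) [CommRing k] [IsNoetherianRing k] (M : ℤ) (hM : (M : WithTop ℤ) ≤ N)
    (n : ℕ) (h : AffG (fun R _ => SFG 𝒯 𝒮 M R) k n) :
    TriG (fun R _ => SFG 𝒯 𝒮 M R) k (n + 1) ∧ CubG (fun R _ => SFG 𝒯 𝒮 M R) k (n + 1) :=
  ⟨fun b c t => sfg_tri h𝒮 𝒯 M k n h b c t,
    fun b c t => sfg_cub h𝒮 𝒯 M hM k (sfg_base 𝒯 h𝒮 M n h) n h b c t⟩

/-- (1) and (2) -/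
theorem fin_12 (m : ℕ) (hm : m = 0 ∨ m.Prime) (M : ℤ) (d : ℕ) :
    ResG (fun R _ => SFG 𝒯 𝒮 M R) (ZMod m) d ↔ AffG (fun R _ => SFG 𝒯 𝒮 M R) (ZMod m) (d + 1) := by
  have hG := cls_SFG 𝒯 h𝒮 M
  exact ⟨fun h I => hG.dim1 m hm d (fun C _ _ _ hC => h C hC) I,
    fun h C _ _ _ hC => hG.dim2 m d h C hC⟩

/-- (1) to (5) -/
theorem fin_15 (m : ℕ) (hm : m = 0 ∨ m.Prime) (M : ℤ) (hM : (M : WithTop ℤ) < N)
    (h0 : ∀ i : ℤ, i ≤ M + 1 → 𝒮 (𝒯.T i (ZMod m))) (d : ℕ) :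
    List.TFAE [ResG (fun R _ => SFG 𝒯 𝒮 M R) (ZMod m) d,
      AffG (fun R _ => SFG 𝒯 𝒮 M R) (ZMod m) (d + 1), TriG (fun R _ => SFG 𝒯 𝒮 M R) (ZMod m) (d + 2),
      CubG (fun R _ => SFG 𝒯 𝒮 M R) (ZMod m) (d + 2),
      CompG (fun R _ => SFG 𝒯 𝒮 (M + 1) R) (ZMod m) (d + 2)] := by
  have hZ : IsNoetherianRing (ZMod m) := isNoetherianRing_of_surjective ℤ (ZMod m)
    (Int.castRingHom (ZMod m)) (ZMod.ringHom_surjective _)
  exact List.tfae_cons_of_mem (List.mem_cons_self) |>.2 ⟨fin_12 𝒯 h𝒮 m hm M d,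
    fin_25 𝒯 h𝒮 (ZMod m) M hM h0 (d + 1)⟩

end

/-- (A), with `G₀` -/
theorem thm_A' (k : Type) [CommRing k] [IsNoetherianRing k] (B : Type) [CommRing B] [Algebra k B]
    [Algebra.FiniteType k B] :
    ∃ (ι : Type) (_ : Fintype ι) (f : MvPolynomial ι k), f.totalDegree ≤ 3 ∧
      Algebra.Smooth k (MvPolynomial ι k ⧸ Ideal.span {f}) ∧
      Nonempty (G0 (MvPolynomial ι k ⧸ Ideal.span {f}) ≃+ G0 k × G0 B) ∧
      ∀ (N : WithTop ℤ) (𝒯 : GTheory.{u} N) (n : ℤ), (n : WithTop ℤ) < N →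
        Nonempty (𝒯.T n (MvPolynomial ι k ⧸ Ideal.span {f}) ≃+ 𝒯.T n k × 𝒯.T n B) := by
  obtain ⟨τ, _, r, π, g, hπ, hker, hdeg⟩ := Pool.Agent.Helper83.Bass.exists_quad (k := k) B
  obtain ⟨e0, -⟩ := Pool.Agent.Helper83.Bass.exists_iso π.toRingHom hπ g hker
  refine ⟨τ ⊕ Fin r ⊕ Unit, inferInstance, Pool.Agent.Helper83.Bass.cub g,
    Pool.Agent.Helper83.Bass.totalDegree_cub g hdeg, Pool.Agent.Helper83.Bass.smooth_WW g,
    ⟨e0⟩, ?_⟩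
  intro N 𝒯 n hn
  exact thm_A_aux k B π g hπ hker 𝒯 n hn

/-- `G₀` and `G0Theory` -/
theorem sfg_G0 {𝒮 : (G : Type 1) → [AddCommGroup G] → Prop} (h𝒮 : Serre 𝒮) (R : Type)
    [CommRing R] : SFG G0Theory 𝒮 0 R ↔ 𝒮 (G0 R) := by
  have h1 : 𝒮 (K0n 0 (G0 R)) ↔ 𝒮 (G0 R) :=
    h𝒮.of_bij (K0n 0 (G0 R)).subtype ⟨Subtype.val_injective, fun x => ⟨⟨x, fun h => absurd rfl h⟩, rfl⟩⟩
  constructor
  · intro h
    exact h1.1 (h 0 le_rfl)
  · intro h n hn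
    by_cases h0 : n = 0
    · subst h0
      exact h1.2 h
    · have : Subsingleton (G0Theory.T n R) :=
        ⟨fun x y => (K0n_zero (G := G0 R) h0 x).trans (K0n_zero (G := G0 R) h0 y).symm⟩
      exact h𝒮.zero _

/-- the equivalences for `G₀` and a Serre class -/
theorem fin_G0 {𝒮 : (G : Type 1) → [AddCommGroup G] → Prop} (h𝒮 : Serre 𝒮) (m : ℕ)
    (hm : m = 0 ∨ m.Prime) (d : ℕ) :
    List.TFAE [ResG (fun R _ => 𝒮 (G0 R)) (ZMod m) d, AffG (fun R _ => 𝒮 (G0 R)) (ZMod m) (d + 1),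
      TriG (fun R _ => 𝒮 (G0 R)) (ZMod m) (d + 2), CubG (fun R _ => 𝒮 (G0 R)) (ZMod m) (d + 2)] := by
  obtain ⟨hd, hp⟩ := BassH.final_zmod m hm
  have hZ : IsNoetherianRing (ZMod m) := inferInstance
  have h1 : (fun (R : Type) (i : CommRing R) => @SFG 0 G0Theory 𝒮 0 R i) =
      fun (R : Type) (i : CommRing R) => 𝒮 (@G0 R i) := by
    funext R i
    exact propext (@sfg_G0 𝒮 h𝒮 R i)
  have e12 := fin_12 G0Theory h𝒮 m hm 0 d
  have e24 := fin_fwd G0Theory h𝒮 (ZMod m) 0 le_rfl (d + 1)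
  rw [h1] at e12 e24
  have hq : ∀ {G H : Type 1} [AddCommGroup G] [AddCommGroup H], Pool.Agent.Helper11.SurjectsOnto G H →
      𝒮 G → 𝒮 H := fun h h' => by
    obtain ⟨f, hf⟩ := h
    exact h𝒮.of_surj f hf h'
  tfae_have 1 ↔ 2 := e12
  tfae_have 2 → 3 := fun h => (e24 h).1
  tfae_have 2 → 4 := fun h => (e24 h).2
  tfae_have 3 → 2 := fun h I => by
    obtain ⟨b, c, t, -, -, h3, -⟩ := BassH.thm_Enc (ZMod m) (d + 1) I
    exact hq h3 (h b c t)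
  tfae_have 4 → 2 := fun h I => by
    obtain ⟨b, c, t, -, -, -, h3⟩ := BassH.thm_Enc (ZMod m) (d + 1) I
    exact hq h3 (h b c t)
  tfae_finish

/-- the degree `0` part of `K0n` -/
def K0e (G : Type 1) [AddCommGroup G] : K0n 0 G ≃+ G where
  toFun x := x.1
  invFun x := ⟨x, fun h => absurd rfl h⟩
  left_inv _ := rfl
  right_inv _ := rfl
  map_add' _ _ := rfl

open TensorProduct in
/-- `G₀` is a G-theory of length `0`, with its usual pull-backs and push-forwards -/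
theorem exists_G0' : ∃ (T : GTheory.{1} 0) (e : ∀ (A : Type) [CommRing A], T.T 0 A ≃+ G0 A),
    (∀ (A B : Type) [CommRing A] [CommRing B] [Algebra A B] [Module.Flat A B] (M : FGMod A),
      e B (T.pull 0 (algebraMap A B) ((e A).symm (G0.mk M))) = G0.mk (FGMod.of B (B ⊗[A] M))) ∧
    ∀ (A B : Type) [CommRing A] [CommRing B] (π : A →+* B) (hπ : Surjective π) (M : FGMod B),
      e A (T.push 0 π ((e B).symm (G0.mk M))) = G0.mk (Pool.Agent.Helper11.restr π hπ M) := by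
  refine ⟨G0Theory, fun A _ => K0e (G0 A), fun A B _ _ _ _ M => ?_, fun A B _ _ π hπ M => ?_⟩
  · change plT (algebraMap A B) (G0.mk M) = _
    rw [plT_algebraMap, Pool.Agent.HPow.bcG_mk]
  · change psT π (G0.mk M) = _
    rw [psT_eq _ hπ, Pool.Agent.HPow.surG_mk]

end Pool.Agent.GTH
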