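import Pool.Agent.HPow.Cl
import Pool.Agent.Helper11.Periodic

/-!
# The groups `G₀`: flat pull-backs, push-forwards for surjections, homotopy invariance
-/

set_option autoImplicit false
set_option linter.unusedSectionVars false
set_option linter.style.haveILetI false

namespace Pool.Agent.GTH

open Pool.Agent.Helper11 Pool.Agent.Helper83.Bass Pool.Agent.Helper67.Bass Pool.Agent.HPow
open Function TensorProduct Polynomial

/-- pull-back along a flat homomorphism -/
noncomputable def plG {R S : Type} [CommRing R] [CommRing S] (φ : R →+* S) (h : φ.Flat) :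
    G0 R →+ G0 S :=
  letI := φ.toAlgebra
  haveI : Module.Flat R S := h
  bcG R S

theorem plG_algebraMap (R S : Type) [CommRing R] [CommRing S] [i : Algebra R S]
    [hi : Module.Flat R S] (h : (algebraMap R S).Flat) : plG (algebraMap R S) h = bcG R S := by
  have key : ∀ (j : Algebra R S) (hj : @Module.Flat R S _ _ j.toModule) (_ : j = i),
      @bcG R S _ _ j hj = @bcG R S _ _ i hi := by
    rintro j hj rfl
    rfl
  exact key _ _ toAlgebra_algebraMap

theorem plG_id {A : Type} [CommRing A] (h : (RingHom.id A).Flat) (x : G0 A) :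
    plG (RingHom.id A) h x = x := by
  have h1 : plG (algebraMap A A) h x = x := by
    rw [plG_algebraMap A A]
    induction x using G0.induction with
    | hz => rw [map_zero]
    | hm M =>
      rw [bcG_mk]
      exact mk_eq_of_iso (TensorProduct.lid A M)
    | hn x hx => rw [map_neg, hx]
    | ha x y hx hy => rw [map_add, hx, hy]
  exact h1

theorem plG_comp {A B C : Type} [CommRing A] [CommRing B] [CommRing C] (φ : A →+* B)
    (ψ : B →+* C) (hφ : φ.Flat) (hψ : ψ.Flat) (h : (ψ.comp φ).Flat) (x : G0 A) :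
    plG (ψ.comp φ) h x = plG ψ hψ (plG φ hφ x) := by
  algebraize [φ, ψ, ψ.comp φ]
  haveI : Module.Flat A B := hφ
  haveI : Module.Flat B C := hψ
  haveI : Module.Flat A C := h
  have key : bcG A C x = bcG B C (bcG A B x) := by
    induction x using G0.induction with
    | hz => rw [map_zero, map_zero, map_zero]
    | hm M =>
      rw [bcG_mk, bcG_mk, bcG_mk]
      exact (mk_eq_of_iso (AlgebraTensorModule.cancelBaseChange A B C C M)).symm
    | hn x hx => rw [map_neg, map_neg, map_neg, hx]
    | ha x y hx hy => rw [map_add, map_add, map_add, hx, hy]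
  exact key

/-- fibre products with closed subschemes -/
theorem pushout_of_surj (A A' C C' : Type) [CommRing A] [CommRing A'] [CommRing C] [CommRing C']
    [Algebra A A'] [Algebra A C] [Algebra A C'] [Algebra A' C'] [Algebra C C']
    [IsScalarTower A A' C'] [IsScalarTower A C C'] (hs : Surjective (algebraMap A C))
    (hs' : Surjective (algebraMap A' C'))
    (hk : RingHom.ker (algebraMap A' C') =
      (RingHom.ker (algebraMap A C)).map (algebraMap A A')) : Algebra.IsPushout A A' C C' := by
  refine ⟨?_⟩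
  let t : A' ⊗[A] C →ₗ[A] C' := TensorProduct.lift
    (((Algebra.linearMap A' <| Module.End A' (C →ₗ[A] C')).flip
      (IsScalarTower.toAlgHom A C C').toLinearMap).restrictScalars A)
  have ht : ∀ (a : A') (c : C), t (a ⊗ₜ c) = algebraMap A' C' a * algebraMap C C' c := by
    intro a c
    change a • (algebraMap C C' c) = _
    rw [Algebra.smul_def]
  have h1 : ∀ z : A' ⊗[A] C, ∃ a : A', z = a ⊗ₜ (1 : C) := by
    intro z
    induction z using TensorProduct.induction_on with
    | zero => exact ⟨0, (TensorProduct.zero_tmul _ _).symm⟩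
    | tmul a c =>
      obtain ⟨r, rfl⟩ := hs c
      refine ⟨r • a, ?_⟩
      rw [TensorProduct.smul_tmul, Algebra.smul_def, mul_one]
    | add x y hx hy =>
      obtain ⟨a, rfl⟩ := hx
      obtain ⟨b, rfl⟩ := hy
      exact ⟨a + b, (TensorProduct.add_tmul _ _ _).symm⟩
  have h2 : ∀ a ∈ (RingHom.ker (algebraMap A C)).map (algebraMap A A'),
      a ⊗ₜ[A] (1 : C) = 0 := by
    intro a ha
    induction ha using Submodule.span_induction with
    | mem a ha =>
      obtain ⟨r, hr, rfl⟩ := ha
      have hr' : algebraMap A C r = 0 := hr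
      rw [Algebra.algebraMap_eq_smul_one, TensorProduct.smul_tmul, Algebra.smul_def, mul_one,
        hr', TensorProduct.tmul_zero]
    | zero => exact TensorProduct.zero_tmul _ _
    | add a b _ _ ha hb => rw [TensorProduct.add_tmul, ha, hb, add_zero]
    | smul c a _ ha =>
      have : (c • a) ⊗ₜ[A] (1 : C) = c • (a ⊗ₜ[A] (1 : C)) := rfl
      rw [this, ha, smul_zero]
  refine ⟨?_, ?_⟩
  · intro x y hxy
    obtain ⟨a, rfl⟩ := h1 x
    obtain ⟨b, rfl⟩ := h1 y
    have h3 : t (a ⊗ₜ 1) = t (b ⊗ₜ 1) := hxy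
    rw [ht, ht, map_one, mul_one, mul_one, ← sub_eq_zero, ← map_sub] at h3
    have h4 : a - b ∈ RingHom.ker (algebraMap A' C') := h3
    rw [hk] at h4
    have h5 := h2 _ h4
    rw [TensorProduct.sub_tmul, sub_eq_zero] at h5
    exact h5
  · intro y
    obtain ⟨a, rfl⟩ := hs' y
    refine ⟨a ⊗ₜ 1, ?_⟩
    have h3 := ht a 1
    rw [map_one, mul_one] at h3
    exact h3

theorem base_iso {A A' C C' : Type} [CommRing A] [CommRing A'] [CommRing C] [CommRing C']
    (φ : A →+* A') (π : A →+* C) (hπ : Surjective π) (π' : A' →+* C') (hπ' : Surjective π')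
    (hk : RingHom.ker π' = (RingHom.ker π).map φ) (ψ : C →+* C')
    (h : ψ.comp π = π'.comp φ) (M : FGMod C) :
    letI := φ.toAlgebra
    letI := ψ.toAlgebra
    Nonempty (bc A A' (restr π hπ M) ≃ₗ[A'] restr π' hπ' (bc C C' M)) := by
  letI := φ.toAlgebra
  letI := ψ.toAlgebra
  letI := π.toAlgebra
  letI := π'.toAlgebra
  letI := (ψ.comp π).toAlgebra
  haveI : IsScalarTower A C C' := IsScalarTower.of_algebraMap_eq' rfl
  haveI : IsScalarTower A A' C' := IsScalarTower.of_algebraMap_eq' h
  haveI : Algebra.IsPushout A A' C C' := pushout_of_surj A A' C C' hπ hπ' hk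
  letI : Module A M := Module.compHom M π
  haveI : IsScalarTower A C M := ⟨fun a c m => by
    rw [Algebra.smul_def, mul_smul]
    rfl⟩
  let e : C' ⊗[C] M ≃ₗ[A'] A' ⊗[A] M := Algebra.IsPushout.cancelBaseChange A A' C C' M
  exact ⟨{ e.symm.toAddEquiv.trans (restrEquiv π' hπ' (bc C C' M)).symm with
    map_smul' := fun a z => by
      exact (e.symm.map_smul a z).trans
        (algebraMap_smul (R := A') C' a (e.symm z : C' ⊗[C] M)).symm }⟩

/-- base change -/
theorem plG_surG {A A' C C' : Type} [CommRing A] [CommRing A'] [CommRing C] [CommRing C']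
    (φ : A →+* A') (hφ : φ.Flat) (π : A →+* C) (hπ : Surjective π) (π' : A' →+* C')
    (hπ' : Surjective π') (hk : RingHom.ker π' = (RingHom.ker π).map φ) (ψ : C →+* C')
    (hψ : ψ.Flat) (h : ψ.comp π = π'.comp φ) (x : G0 C) :
    plG φ hφ (surG π hπ x) = surG π' hπ' (plG ψ hψ x) := by
  induction x using G0.induction with
  | hz => simp only [map_zero]
  | hm M =>
    obtain ⟨e⟩ := base_iso φ π hπ π' hπ' hk ψ h M
    rw [surG_mk]
    letI := φ.toAlgebra
    letI := ψ.toAlgebra
    haveI : Module.Flat A A' := hφ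
    haveI : Module.Flat C C' := hψ
    change bcG A A' (G0.mk (restr π hπ M)) = surG π' hπ' (bcG C C' (G0.mk M))
    rw [bcG_mk, bcG_mk, surG_mk]
    exact mk_eq_of_iso e
  | hn x hx => simp only [map_neg, hx]
  | ha x y hx hy => simp only [map_add, hx, hy]

/-! ### polynomials -/

section poly

variable {A : Type} [CommRing A]

theorem cc_surj : Surjective (constantCoeff : A[X] →+* A) := fun a => ⟨C a, by simp⟩

/-- multiplication by `X` -/
noncomputable def mX (A : Type) [CommRing A] : A[X] →ₗ[A] A[X] := LinearMap.mulLeft A (X : A[X])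

/-- division by `X` -/
noncomputable def dX (A : Type) [CommRing A] : A[X] →ₗ[A] A[X] where
  toFun := divX
  map_add' _ _ := divX_add
  map_smul' a p := by
    rw [smul_eq_C_mul, divX_C_mul, RingHom.id_apply, smul_eq_C_mul]

theorem divX_X_mul' (p : A[X]) : divX (X * p) = p := by
  refine Polynomial.ext fun n => ?_
  rw [coeff_divX, coeff_X_mul]

theorem dX_mX : (dX A).comp (mX A) = LinearMap.id :=
  LinearMap.ext fun p => divX_X_mul' p

theorem exact_mX : Function.Exact (mX A) (lcoeff A 0) := by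
  intro p
  rw [lcoeff_apply, ← X_dvd_iff]
  constructor
  · rintro ⟨r, hr⟩
    exact ⟨r, hr.symm⟩
  · rintro ⟨r, hr⟩
    exact ⟨r, hr.symm⟩

variable (N : FGMod A)

theorem rT_mX (z : A[X] ⊗[A] N) : (mX A).rTensor N z = (X : A[X]) • z := by
  induction z using TensorProduct.induction_on with
  | zero => rw [map_zero, smul_zero]
  | tmul p n => rw [LinearMap.rTensor_tmul, TensorProduct.smul_tmul']; rfl
  | add x y hx hy => rw [map_add, hx, hy, smul_add]

theorem X_inj (z : A[X] ⊗[A] N) (h : (X : A[X]) • z = 0) : z = 0 := by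
  have h1 : (dX A).rTensor N ((mX A).rTensor N z) = z := by
    rw [← LinearMap.comp_apply, ← LinearMap.rTensor_comp, dX_mX, LinearMap.rTensor_id]
    rfl
  rw [← h1, rT_mX, h, map_zero]

/-- `p ⊗ n ↦ p(0) n` -/
noncomputable def q0 : A[X] ⊗[A] N →ₗ[A] N :=
  (TensorProduct.lid A N).toLinearMap ∘ₗ (lcoeff A 0).rTensor N

theorem q0_tmul (p : A[X]) (n : N) : q0 N (p ⊗ₜ n) = p.coeff 0 • n := rfl

theorem q0_smul (p : A[X]) (z : A[X] ⊗[A] N) :
    q0 N (p • z) = constantCoeff p • q0 N z := by
  induction z using TensorProduct.induction_on with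
  | zero => simp only [smul_zero, map_zero]
  | tmul r n =>
    rw [TensorProduct.smul_tmul', q0_tmul, q0_tmul, smul_eq_mul, mul_coeff_zero, mul_smul]
    rfl
  | add x y hx hy => rw [smul_add, map_add, hx, hy, map_add, smul_add]

theorem q0_surj : Surjective (q0 N) := fun n => ⟨(1 : A[X]) ⊗ₜ n, by
  rw [q0_tmul, coeff_one_zero, one_smul]⟩

theorem q0_ker (z : A[X] ⊗[A] N) : q0 N z = 0 ↔ ∃ w, (X : A[X]) • w = z := by
  have h1 : q0 N z = 0 ↔ (lcoeff A 0).rTensor N z = 0 := by
    change TensorProduct.lid A N _ = 0 ↔ _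
    rw [LinearEquiv.map_eq_zero_iff]
  rw [h1]
  have h2 := rTensor_exact N (exact_mX (A := A)) (fun a => ⟨C a, by simp⟩) z
  rw [h2]
  constructor
  · rintro ⟨w, hw⟩
    exact ⟨w, by rw [← rT_mX, hw]⟩
  · rintro ⟨w, hw⟩
    exact ⟨w, by rw [rT_mX, hw]⟩

/-- the projection -/
noncomputable def q1 : bc A A[X] N →ₗ[A[X]] restr (constantCoeff : A[X] →+* A) cc_surj N where
  toFun z := (restrEquiv _ cc_surj N).symm (q0 N z)
  map_add' x y := by rw [map_add, map_add]
  map_smul' p z := by
    rw [q0_smul]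
    rfl

theorem q1_surj : Surjective (q1 N) := fun n => by
  obtain ⟨z, hz⟩ := q0_surj N (restrEquiv _ cc_surj N n)
  exact ⟨z, hz⟩

theorem q1_ker (z : bc A A[X] N) : q1 N z = 0 ↔ ∃ w : bc A A[X] N, (X : A[X]) • w = z :=
  q0_ker N z

/-- the push-forward along `X = 0` is zero -/
theorem surG_cc (x : G0 A) : surG (constantCoeff : A[X] →+* A) cc_surj x = 0 := by
  induction x using G0.induction with
  | hz => rw [map_zero]
  | hm N =>
    rw [surG_mk]
    have h := G0.mk_add (bc A A[X] N) (bc A A[X] N) (restr constantCoeff cc_surj N)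
      (LinearMap.lsmul A[X] (bc A A[X] N) X) (q1 N)
      (by
        rw [injective_iff_map_eq_zero]
        exact fun z hz => X_inj N z hz) (q1_surj N)
      (fun z => (q1_ker N z).trans ⟨fun ⟨w, hw⟩ => ⟨w, hw⟩, fun ⟨w, hw⟩ => ⟨w, hw⟩⟩)
    rw [left_eq_add] at h
    exact h
  | hn x hx => rw [map_neg, hx, neg_zero]
  | ha x y hx hy => rw [map_add, hx, hy, add_zero]

end poly

end Pool.Agent.GTH
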