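import Pool.Agent.GTH.W

/-!
# G-theories: the groups of `W`
-/

set_option autoImplicit false

open Function

namespace Pool.Agent.GTH

universe u

section Idem

variable {P : Type} [CommRing P]

/-- `T ↦ 0` -/
def qz (a : P) (ha : a = 0) : Qd a →+* P := qlift (RingHom.id P) 0 (by rw [ha]; simp)

/-- `T ↦ 1` -/
def qo (a : P) (ha : a = 0) : Qd a →+* P := qlift (RingHom.id P) 1 (by rw [ha]; simp)

theorem qz_apply (a : P) (ha : a = 0) (z : Qd a) : qz a ha z = z.re := by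
  show z.re + z.im * 0 = z.re
  ring

theorem qo_apply (a : P) (ha : a = 0) (z : Qd a) : qo a ha z = z.re + z.im := by
  show z.re + z.im * 1 = _
  ring

theorem isLoc_zo (a : P) (ha : a = 0) : IsLoc (qT a) (qz a ha) (qo a ha) := by
  refine isLoc_mk (fun p => ⟨⟨p, 0⟩, qz_apply _ _ _⟩) (fun z => ?_) ?_ (fun z => ?_)
    (fun z hz => ?_)
  · rw [qz_apply]
    constructor
    · intro h
      refine ⟨⟨z.im, 0⟩, ?_⟩
      apply QuadraticAlgebra.ext
      · rw [QuadraticAlgebra.re_mul]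
        show z.re = 0 * z.im + a * 1 * 0
        rw [h]
        ring
      · rw [QuadraticAlgebra.im_mul]
        show z.im = 0 * 0 + 1 * z.im + 1 * 1 * 0
        ring
    · rintro ⟨w, rfl⟩
      rw [QuadraticAlgebra.re_mul]
      show 0 * w.re + a * 1 * w.im = 0
      linear_combination w.im * ha
  · have h1 : qo a ha (qT a) = 1 := by
      rw [qo_apply]
      show (0 : P) + 1 = 1
      ring
    rw [h1]
    exact isUnit_one
  · exact ⟨0, ⟨z, 0⟩, by rw [pow_zero, mul_one, qo_apply]; show z = z + 0; ring⟩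
  · refine ⟨1, ?_⟩
    rw [qo_apply] at hz
    rw [pow_one]
    apply QuadraticAlgebra.ext
    · rw [QuadraticAlgebra.re_mul]
      show 0 * z.re + a * 1 * z.im = 0
      linear_combination z.im * ha
    · rw [QuadraticAlgebra.im_mul]
      show 0 * z.im + 1 * z.re + 1 * 1 * z.im = 0
      linear_combination hz

theorem isLoc_oz (a : P) (ha : a = 0) : IsLoc (1 - qT a) (qo a ha) (qz a ha) := by
  have hre : ∀ w : Qd a, ((1 - qT a) * w).re = w.re := by
    intro w
    rw [sub_mul, one_mul, QuadraticAlgebra.re_sub, QuadraticAlgebra.re_mul]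
    show w.re - (0 * w.re + a * 1 * w.im) = w.re
    linear_combination (- w.im) * ha
  have him : ∀ w : Qd a, ((1 - qT a) * w).im = - w.re := by
    intro w
    rw [sub_mul, one_mul, QuadraticAlgebra.im_sub, QuadraticAlgebra.im_mul]
    show w.im - (0 * w.im + 1 * w.re + 1 * 1 * w.im) = - w.re
    ring
  refine isLoc_mk (fun p => ⟨⟨p, 0⟩, by rw [qo_apply]; show p + 0 = p; ring⟩) (fun z => ?_) ?_
    (fun z => ?_) (fun z hz => ?_)
  · rw [qo_apply]
    constructor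
    · intro h
      refine ⟨⟨z.re, 0⟩, ?_⟩
      apply QuadraticAlgebra.ext
      · rw [hre]
      · rw [him]
        show z.im = - z.re
        linear_combination h
    · rintro ⟨w, rfl⟩
      rw [hre, him]
      ring
  · have h1 : qz a ha (1 - qT a) = 1 := by
      rw [qz_apply]
      show (1 : P) - 0 = 1
      ring
    rw [h1]
    exact isUnit_one
  · exact ⟨0, ⟨z, 0⟩, by rw [pow_zero, mul_one, qz_apply]⟩
  · refine ⟨1, ?_⟩
    rw [qz_apply] at hz
    rw [pow_one]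
    apply QuadraticAlgebra.ext
    · rw [hre, hz]
      rfl
    · rw [him, hz]
      show -(0 : P) = 0
      ring

end Idem

variable {N : WithTop ℤ} (𝒯 : GTheory.{u} N) {σ : Type} [Fintype σ]

/-- the comparison map -/
noncomputable def Phi {A B : Type} [CommRing A] [CommRing B] (g : σ → A) (π : A →+* B)
    (h : ∀ j, π (g j) = 0) (n : ℤ) (a : 𝒯.T n A) (b : 𝒯.T n B) : 𝒯.T n (WR g) :=
  𝒯.pull n (wC g) a + 𝒯.push n (we g π h) (𝒯.pull n MvPolynomial.C b)

/-- the comparison map is surjective for `n ≤ N` and injective for `n < N` -/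
def Good {A B : Type} [CommRing A] [CommRing B] (g : σ → A) (π : A →+* B)
    (h : ∀ j, π (g j) = 0) : Prop :=
  (∀ n : ℤ, (n : WithTop ℤ) ≤ N → ∀ w : 𝒯.T n (WR g), ∃ a b, Phi 𝒯 g π h n a b = w) ∧
  ∀ n : ℤ, (n : WithTop ℤ) < N → ∀ a b, Phi 𝒯 g π h n a b = 0 → a = 0 ∧ b = 0

theorem push_inj_of_bijective {A B : Type} [CommRing A] [IsNoetherianRing A] [CommRing B]
    [IsNoetherianRing B] {φ : A →+* B} (h : Bijective φ) (n : ℤ) (x : 𝒯.T n B)
    (hx : 𝒯.push n φ x = 0) : x = 0 := by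
  have h1 : φ.comp ((RingEquiv.ofBijective φ h).symm : B →+* A) = RingHom.id B := by
    refine RingHom.ext fun b => ?_
    exact (RingEquiv.ofBijective φ h).apply_symm_apply b
  have h2 := 𝒯.push_push n h1 (RingEquiv.ofBijective φ h).symm.surjective h.surjective x
  rw [𝒯.push_id] at h2
  rw [← h2, hx, map_zero]

theorem good_base {A B : Type} [CommRing A] [IsNoetherianRing A] [CommRing B]
    [IsNoetherianRing B] (g : σ → A) (hg : ∀ j, g j = 0) (π : A →+* B) (hπ : Bijective π)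
    (h : ∀ j, π (g j) = 0) : Good 𝒯 g π h := by
  have ha : qf g = 0 := qf_zero g hg
  have hP : Bijective (MvPolynomial.map π : MvPolynomial σ A →+* MvPolynomial σ B) :=
    ⟨MvPolynomial.map_injective π hπ.1, MvPolynomial.map_surjective π hπ.2⟩
  have hwe : we g π h = (MvPolynomial.map π).comp (qz (qf g) ha) := by
    refine RingHom.ext fun z => ?_
    show _ = MvPolynomial.map π (qz (qf g) ha z)
    rw [we_apply, qz_apply]
  have hloc : IsLoc (qT (qf g)) (we g π h) (qo (qf g) ha) := by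
    have h1 := (isLoc_zo (qf g) ha).congr (RingEquiv.ofBijective _ hP)
      (RingEquiv.refl (MvPolynomial σ A))
    exact h1.of_eq rfl (by rw [hwe]; rfl) rfl
  have hof : (qo (qf g) ha).Flat := hloc.flat
  have hzf : (qz (qf g) ha).Flat := (isLoc_oz (qf g) ha).flat
  have hoC : (qo (qf g) ha).comp (wC g) = MvPolynomial.C := by
    refine RingHom.ext fun a => ?_
    show qo (qf g) ha (qC (qf g) (MvPolynomial.C a)) = _
    rw [qo_apply, qC_re, qC_im, add_zero]
  have hC := (GTheory.HI.mvPolynomial (𝒯 := 𝒯) σ A).2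
  have hCB := (GTheory.HI.mvPolynomial (𝒯 := 𝒯) σ B).2
  have hws := we_surj g π h hπ.2
  have hinj : ∀ (n : ℤ) (x : 𝒯.T n (MvPolynomial σ B)), 𝒯.push n (we g π h) x = 0 → x = 0 := by
    intro n x hx
    refine push_inj_of_bijective 𝒯 hP n x ?_
    have hk : RingHom.ker (MvPolynomial.map π : MvPolynomial σ A →+* MvPolynomial σ B) =
        (RingHom.ker (we g π h)).map (qz (qf g) ha) := by
      have h1 : RingHom.ker (MvPolynomial.map π : MvPolynomial σ A →+* MvPolynomial σ B) = ⊥ :=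
        (RingHom.injective_iff_ker_eq_bot _).1 hP.1
      rw [h1, eq_comm, eq_bot_iff, Ideal.map_le_iff_le_comap]
      intro z hz
      rw [RingHom.mem_ker, we_apply] at hz
      rw [Ideal.mem_comap, Ideal.mem_bot, qz_apply]
      exact hP.1 (hz.trans (map_zero _).symm)
    have h2 := 𝒯.base_change n (qz (qf g) ha) hzf (we g π h) hws (MvPolynomial.map π) hP.2 hk
      (RingHom.id _) (RingHom.Flat.id _) (by rw [RingHom.id_comp, hwe]) x
    rw [hx, map_zero, 𝒯.pull_id] at h2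
    exact h2.symm
  refine ⟨fun n _ w => ?_, fun n _ a b hab => ?_⟩
  · obtain ⟨a, ha'⟩ := (hC n).2 (𝒯.pull n (qo (qf g) ha) w)
    have h1 : 𝒯.pull n (qo (qf g) ha) (w - 𝒯.pull n (wC g) a) = 0 := by
      rw [map_sub, 𝒯.pull_pull n hoC (wC_flat g) hof, ha', sub_self]
    obtain ⟨x, hx⟩ := (𝒯.exA n hloc _).1 h1
    obtain ⟨b, hb⟩ := (hCB n).2 x
    refine ⟨a, b, ?_⟩
    rw [Phi, hb, hx]
    abel
  · have h1 : 𝒯.pull n (qo (qf g) ha) (𝒯.push n (we g π h) (𝒯.pull n MvPolynomial.C b)) = 0 :=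
      (𝒯.exA n hloc _).2 ⟨_, rfl⟩
    have h2 : 𝒯.pull n (qo (qf g) ha) (Phi 𝒯 g π h n a b) = 0 := by
      rw [hab, map_zero]
    rw [Phi, map_add, h1, add_zero, 𝒯.pull_pull n hoC (wC_flat g) hof] at h2
    have h3 : a = 0 := (hC n).1 (h2.trans (map_zero _).symm)
    refine ⟨h3, ?_⟩
    rw [Phi, h3, map_zero, zero_add] at hab
    exact (hCB n).1 ((hinj n _ hab).trans (map_zero _).symm)

theorem lt_of_pred {n : ℤ} (h : (n : WithTop ℤ) ≤ N) : ((n - 1 : ℤ) : WithTop ℤ) < N := by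
  refine lt_of_lt_of_le ?_ h
  exact WithTop.coe_lt_coe.2 (by omega)

theorem good_step {A A1 A2 B : Type} [CommRing A] [IsNoetherianRing A] [CommRing A1]
    [IsNoetherianRing A1] [CommRing A2] [IsNoetherianRing A2] [CommRing B] [IsNoetherianRing B]
    (g : σ → A) (π : A →+* B) (h : ∀ j, π (g j) = 0) (j : σ) (μ : A →+* A1) (l : A →+* A2)
    (hl : IsLoc (g j) μ l) (π1 : A1 →+* B) (hπ1 : Surjective π1) (hμ : π1.comp μ = π)
    (h1 : ∀ i, π1 (μ (g i)) = 0) (hG : Good 𝒯 (fun i => μ (g i)) π1 h1) : Good 𝒯 g π h := by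
  have hW : IsLoc (wC g (g j)) (wmap μ g (fun i => μ (g i)) (fun _ => rfl))
      (wmap l g (fun i => l (g i)) (fun _ => rfl)) := isLoc_W hl g _ _ _ _
  have hU : 𝒯.HI (wC (fun i => l (g i))) := HI.wC_of_unit _ j hl.unit
  have e1 := wmap_wC μ g (fun i => μ (g i)) (fun _ => rfl)
  have e2 := wmap_wC l g (fun i => l (g i)) (fun _ => rfl)
  have e3 := we_wmap g μ (fun i => μ (g i)) (fun _ => rfl) π π1 h h1 hμ
  have hs1 := we_surj (fun i => μ (g i)) π1 h1 hπ1
  -- push of the pull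
  have hbc : ∀ (n : ℤ) (a1 : 𝒯.T n A1), 𝒯.push n (wmap μ g (fun i => μ (g i)) (fun _ => rfl))
      (𝒯.pull n (wC (fun i => μ (g i))) a1) = 𝒯.pull n (wC g) (𝒯.push n μ a1) := by
    intro n a1
    refine (𝒯.base_change n (wC g) (wC_flat g) μ hl.surj _ hW.surj ?_ _ (wC_flat _) e1.symm
      a1).symm
    rw [hW.ker, hl.ker, Ideal.map_span, Set.image_singleton]
  have hpp : ∀ (n : ℤ) (y : 𝒯.T n (MvPolynomial σ B)),
      𝒯.push n (wmap μ g (fun i => μ (g i)) (fun _ => rfl))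
        (𝒯.push n (we (fun i => μ (g i)) π1 h1) y) = 𝒯.push n (we g π h) y :=
    fun n y => 𝒯.push_push n e3 hW.surj hs1 y
  have hPhi : ∀ (n : ℤ) (a1 : 𝒯.T n A1) (b : 𝒯.T n B),
      𝒯.push n (wmap μ g (fun i => μ (g i)) (fun _ => rfl))
        (Phi 𝒯 (fun i => μ (g i)) π1 h1 n a1 b) = Phi 𝒯 g π h n (𝒯.push n μ a1) b := by
    intro n a1 b
    rw [Phi, Phi, map_add, hbc, hpp]
  have hbd : ∀ (m n : ℤ) (_ : m = n + 1) (x : 𝒯.T m A2),
      𝒯.bd m n (wC g (g j)) (wmap μ g (fun i => μ (g i)) (fun _ => rfl))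
        (wmap l g (fun i => l (g i)) (fun _ => rfl)) (𝒯.pull m (wC (fun i => l (g i))) x) =
      𝒯.pull n (wC (fun i => μ (g i))) (𝒯.bd m n (g j) μ l x) := by
    intro m n hmn x
    exact 𝒯.bd_pull m n hmn hl hW (wC g) (wC_flat g) rfl (wC _) (wC_flat _) e1.symm (wC _)
      (wC_flat _) e2.symm x
  have hll : ∀ (n : ℤ) (a : 𝒯.T n A), 𝒯.pull n (wmap l g (fun i => l (g i)) (fun _ => rfl))
      (𝒯.pull n (wC g) a) = 𝒯.pull n (wC (fun i => l (g i))) (𝒯.pull n l a) := by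
    intro n a
    rw [𝒯.pull_pull n e2 (wC_flat g) hW.flat, 𝒯.pull_pull n rfl hl.flat (wC_flat _)]
  refine ⟨fun n hn w => ?_, fun n hn a b hab => ?_⟩
  · obtain ⟨a2, ha2⟩ := (hU.2 n).2 (𝒯.pull n (wmap l g (fun i => l (g i)) (fun _ => rfl)) w)
    have h2 : 𝒯.pull (n - 1) (wC (fun i => μ (g i))) (𝒯.bd n (n - 1) (g j) μ l a2) = 0 := by
      rw [← hbd n (n - 1) (by omega), ha2]
      exact (𝒯.exL n (n - 1) (by omega) hW _).2 ⟨w, rfl⟩
    have h3 : 𝒯.bd n (n - 1) (g j) μ l a2 = 0 := by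
      refine (hG.2 (n - 1) (lt_of_pred hn) _ 0 ?_).1
      rw [Phi, map_zero, map_zero, add_zero, h2]
    obtain ⟨a, ha⟩ := (𝒯.exL n (n - 1) (by omega) hl a2).1 h3
    have h4 : 𝒯.pull n (wmap l g (fun i => l (g i)) (fun _ => rfl))
        (w - 𝒯.pull n (wC g) a) = 0 := by
      rw [map_sub, hll, ha, ha2, sub_self]
    obtain ⟨w1, hw1⟩ := (𝒯.exA n hW _).1 h4
    obtain ⟨a1, b, hab⟩ := hG.1 n hn w1
    refine ⟨a + 𝒯.push n μ a1, b, ?_⟩
    rw [← hab, hPhi, Phi] at hw1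
    rw [Phi, map_add, add_assoc, hw1]
    abel
  · have h2 : 𝒯.pull n (wmap l g (fun i => l (g i)) (fun _ => rfl))
        (𝒯.push n (we g π h) (𝒯.pull n MvPolynomial.C b)) = 0 := by
      rw [← hpp]
      exact (𝒯.exA n hW _).2 ⟨_, rfl⟩
    have h3 : 𝒯.pull n (wmap l g (fun i => l (g i)) (fun _ => rfl)) (Phi 𝒯 g π h n a b) = 0 := by
      rw [hab, map_zero]
    rw [Phi, map_add, h2, add_zero, hll] at h3
    have h4 : 𝒯.pull n l a = 0 := (hU.2 n).1 (h3.trans (map_zero _).symm)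
    obtain ⟨a1, ha1⟩ := (𝒯.exA n hl a).1 h4
    rw [← ha1, ← hPhi] at hab
    obtain ⟨y, hy⟩ := (𝒯.exC (n + 1) n rfl hn hW _).1 hab
    obtain ⟨a2, ha2⟩ := (hU.2 (n + 1)).2 y
    rw [← ha2, hbd (n + 1) n rfl] at hy
    have h5 : Phi 𝒯 (fun i => μ (g i)) π1 h1 n (a1 - 𝒯.bd (n + 1) n (g j) μ l a2) b = 0 := by
      rw [Phi, map_sub, hy, Phi]
      abel
    obtain ⟨h6, h7⟩ := hG.2 n hn _ _ h5
    refine ⟨?_, h7⟩
    rw [sub_eq_zero] at h6
    rw [← ha1, h6]
    exact (𝒯.exC (n + 1) n rfl hn hl _).2 ⟨a2, rfl⟩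

theorem good_aux (B : Type) [CommRing B] [IsNoetherianRing B] : ∀ (k : ℕ) (A : Type) [CommRing A]
    [IsNoetherianRing A] (g : σ → A) (π : A →+* B) (_ : Surjective π) (h : ∀ j, π (g j) = 0)
    (_ : RingHom.ker π = Ideal.span (Set.range g)), {j | g j ≠ 0}.ncard = k → Good 𝒯 g π h := by
  intro k
  induction k using Nat.strong_induction_on with
  | _ k ih =>
    intro A _ _ g π hπ h hk hcard
    by_cases hg : ∀ j, g j = 0
    · refine good_base 𝒯 g hg π ⟨?_, hπ⟩ h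
      rw [RingHom.injective_iff_ker_eq_bot, hk, Ideal.span_eq_bot]
      rintro _ ⟨j, rfl⟩
      exact hg j
    · push Not at hg
      obtain ⟨j, hj⟩ := hg
      have hl := isLoc_std (g j)
      have h0 : ∀ a ∈ Ideal.span {g j}, π a = 0 := by
        intro a ha
        obtain ⟨b, rfl⟩ := Ideal.mem_span_singleton.1 ha
        rw [map_mul, h, zero_mul]
      let π1 : (A ⧸ Ideal.span {g j}) →+* B := Ideal.Quotient.lift (Ideal.span {g j}) π h0
      have hμ : π1.comp (Ideal.Quotient.mk (Ideal.span {g j})) = π := RingHom.ext fun a => rfl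
      have h1 : ∀ i, π1 (Ideal.Quotient.mk (Ideal.span {g j}) (g i)) = 0 := fun i => h i
      have hπ1 : Surjective π1 := fun b => by
        obtain ⟨a, ha⟩ := hπ b
        exact ⟨Ideal.Quotient.mk _ a, ha⟩
      have hlt : {i | Ideal.Quotient.mk (Ideal.span {g j}) (g i) ≠ 0}.ncard < k := by
        rw [← hcard]
        refine Set.ncard_lt_ncard ⟨fun i hi h2 => hi (by rw [h2, map_zero]), fun h2 => ?_⟩
          (Set.toFinite _)
        have h3 := h2 (show j ∈ {i | g i ≠ 0} from hj)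
        exact h3 (Ideal.Quotient.eq_zero_iff_mem.2 (Ideal.mem_span_singleton_self _))
      have hk1 : RingHom.ker π1 = Ideal.span (Set.range fun i =>
          Ideal.Quotient.mk (Ideal.span {g j}) (g i)) := by
        have h2 : RingHom.ker π1 = (RingHom.ker π).map (Ideal.Quotient.mk (Ideal.span {g j})) := by
          ext x
          obtain ⟨a, rfl⟩ := Ideal.Quotient.mk_surjective x
          rw [RingHom.mem_ker, Ideal.mem_map_iff_of_surjective _ Ideal.Quotient.mk_surjective]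
          constructor
          · intro ha
            exact ⟨a, ha, rfl⟩
          · rintro ⟨b, hb, hb'⟩
            rw [← hb']
            exact hb
        rw [h2, hk, Ideal.map_span, ← Set.range_comp]
        rfl
      exact good_step 𝒯 g π h j _ _ hl π1 hπ1 hμ h1
        (ih _ hlt _ (fun i => Ideal.Quotient.mk (Ideal.span {g j}) (g i)) π1 hπ1 h1 hk1 rfl)

/-- THE GROUPS OF `W` -/
theorem good {A B : Type} [CommRing A] [IsNoetherianRing A] [CommRing B] [IsNoetherianRing B]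
    (g : σ → A) (π : A →+* B) (hπ : Surjective π)
    (hk : RingHom.ker π = Ideal.span (Set.range g)) :
    (∀ n : ℤ, (n : WithTop ℤ) ≤ N → ∃ f : 𝒯.T n A × 𝒯.T n B →+ 𝒯.T n (WR g), Surjective f) ∧
    ∀ n : ℤ, (n : WithTop ℤ) < N → Nonempty (𝒯.T n (WR g) ≃+ 𝒯.T n A × 𝒯.T n B) := by
  have h : ∀ j, π (g j) = 0 := fun j => by
    rw [← RingHom.mem_ker, hk]
    exact Ideal.subset_span ⟨j, rfl⟩
  have hG := good_aux 𝒯 B _ A g π hπ h hk rfl
  have key : ∀ n : ℤ, ∃ f : 𝒯.T n A × 𝒯.T n B →+ 𝒯.T n (WR g),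
      ∀ a b, f (a, b) = Phi 𝒯 g π h n a b := by
    intro n
    refine ⟨(𝒯.pull n (wC g)).coprod ((𝒯.push n (we g π h)).comp (𝒯.pull n MvPolynomial.C)),
      fun a b => rfl⟩
  refine ⟨fun n hn => ?_, fun n hn => ?_⟩
  · obtain ⟨f, hf⟩ := key n
    refine ⟨f, fun w => ?_⟩
    obtain ⟨a, b, hab⟩ := hG.1 n hn w
    exact ⟨(a, b), (hf a b).trans hab⟩
  · obtain ⟨f, hf⟩ := key n
    refine ⟨(AddEquiv.ofBijective f ⟨?_, fun w => ?_⟩).symm⟩
    · rw [injective_iff_map_eq_zero]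
      rintro ⟨a, b⟩ hab
      rw [hf] at hab
      obtain ⟨h1, h2⟩ := hG.2 n hn a b hab
      rw [h1, h2]
      rfl
    · obtain ⟨a, b, hab⟩ := hG.1 n hn.le w
      exact ⟨(a, b), (hf a b).trans hab⟩

end Pool.Agent.GTH
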