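import Pool.Agent.GTH.Lin

/-!
# G-theories: homogeneous ideals of a polynomial ring in `n + 1` variables
-/

set_option autoImplicit false
set_option linter.style.haveILetI false
set_option linter.unusedSectionVars false

namespace Pool.Agent.GTH

namespace Cls

open Function MvPolynomial

attribute [local instance] MvPolynomial.weightedGradedAlgebra

section hom

variable {k : Type} [CommRing k] {n : ℕ}

theorem homId_comp {I : Ideal (MvPolynomial (Fin n) k)} (hI : HomId I)
    {p : MvPolynomial (Fin n) k} (hp : p ∈ I) (d : ℕ) : homogeneousComponent d p ∈ I := by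
  classical
  have h := hI (d : ℤ) hp
  have e : ((DirectSum.decompose (weightedHomogeneousSubmodule k (fun _ : Fin n => (1 : ℤ))) p
      (d : ℤ) : weightedHomogeneousSubmodule k (fun _ : Fin n => (1 : ℤ)) (d : ℤ)) :
      MvPolynomial (Fin n) k) = weightedHomogeneousComponent (fun _ : Fin n => (1 : ℤ)) (d : ℤ) p :=
    weightedDecomposition.decompose'_apply k (fun _ : Fin n => (1 : ℤ)) p (d : ℤ)
  rw [e] at h
  have e2 : weightedHomogeneousComponent (fun _ : Fin n => (1 : ℤ)) (d : ℤ) p =
      homogeneousComponent d p := by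
    ext v
    rw [coeff_weightedHomogeneousComponent, coeff_homogeneousComponent]
    have e3 : Finsupp.weight (fun _ : Fin n => (1 : ℤ)) v = ((v.degree : ℕ) : ℤ) := by
      rw [Finsupp.weight_apply, Finsupp.degree]
      simp [Finsupp.sum]
    rw [e3]
    simp only [Nat.cast_inj]
  rwa [e2] at h

/-- dehomogenisation -/
noncomputable def dhm : MvPolynomial (Fin (n + 1)) k →+* MvPolynomial (Fin n) k :=
  eval₂Hom C (Fin.cases 1 X)

/-- `x₀ ↦ t`, `xᵢ ↦ zᵢ t` -/
noncomputable def dht : MvPolynomial (Fin (n + 1)) k →+* Polynomial (MvPolynomial (Fin n) k) :=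
  eval₂Hom (Polynomial.C.comp C) (Fin.cases Polynomial.X (fun i => Polynomial.C (X i) * Polynomial.X))

theorem dht_X (i : Fin (n + 1)) :
    dht (k := k) (X i) = Polynomial.C (dhm (X i)) * Polynomial.X := by
  unfold dht dhm
  rw [eval₂Hom_X', eval₂Hom_X']
  refine Fin.cases ?_ (fun i => ?_) i
  · simp
  · simp

theorem dht_C (a : k) : dht (n := n) (C a) = Polynomial.C (dhm (C a)) := by
  unfold dht dhm
  rw [eval₂Hom_C, eval₂Hom_C]
  rfl

theorem dht_monomial (v : Fin (n + 1) →₀ ℕ) (a : k) :
    dht (monomial v a) = Polynomial.C (dhm (monomial v a)) * Polynomial.X ^ v.degree := by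
  rw [monomial_eq, map_mul, map_mul, dht_C, Finsupp.prod, map_prod, map_prod]
  have e : ∀ i ∈ v.support, dht (k := k) (X i ^ v i) =
      Polynomial.C (dhm (X i ^ v i)) * Polynomial.X ^ v i := by
    intro i _
    rw [map_pow, dht_X, map_pow, mul_pow, map_pow]
  rw [Finset.prod_congr rfl e, Finset.prod_mul_distrib, Finset.prod_pow_eq_pow_sum, map_mul,
    map_prod, mul_assoc]
  rfl

theorem dht_hom {p : MvPolynomial (Fin (n + 1)) k} {d : ℕ} (hp : p.IsHomogeneous d) :
    dht p = Polynomial.C (dhm p) * Polynomial.X ^ d := by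
  have e := support_sum_monomial_coeff p
  have e1 : ∀ v ∈ p.support, dht (monomial v (coeff v p)) =
      Polynomial.C (dhm (monomial v (coeff v p))) * Polynomial.X ^ d := by
    intro v hv
    rw [dht_monomial]
    have : v.degree = d := by
      have h := hp (mem_support_iff.mp hv)
      rw [← h, Finsupp.weight_apply, Finsupp.degree]
      simp [Finsupp.sum]
    rw [this]
  calc dht p = dht (∑ v ∈ p.support, monomial v (coeff v p)) := by rw [e]
    _ = ∑ v ∈ p.support, Polynomial.C (dhm (monomial v (coeff v p))) * Polynomial.X ^ d := by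
      rw [map_sum, Finset.sum_congr rfl e1]
    _ = Polynomial.C (dhm (∑ v ∈ p.support, monomial v (coeff v p))) * Polynomial.X ^ d := by
      rw [map_sum, map_sum, Finset.sum_mul]
    _ = _ := by rw [e]

end hom

variable {G : (R : Type) → [CommRing R] → Prop} (hG : Cls G)

include hG

theorem thm_Hom (k : Type) [CommRing k] [IsNoetherianRing k] (n : ℕ)
    (hk : ∀ I : Ideal (MvPolynomial (Fin n) k), G (MvPolynomial (Fin n) k ⧸ I))
    (I : Ideal (MvPolynomial (Fin (n + 1)) k)) (hI : HomId I) :
    G (MvPolynomial (Fin (n + 1)) k ⧸ I) := by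
  let A := MvPolynomial (Fin (n + 1)) k
  let R := MvPolynomial (Fin n) k
  let B := A ⧸ I
  let mkI : A →+* B := Ideal.Quotient.mk I
  let J : Ideal R := I.map dhm
  let mkJ : R →+* R ⧸ J := Ideal.Quotient.mk J
  let s' : B := mkI (X 0)
  -- the map to the polynomial ring
  let g0 : A →+* Polynomial (R ⧸ J) := (Polynomial.mapRingHom mkJ).comp dht
  have hg0 : ∀ p ∈ I, g0 p = 0 := by
    intro p hp
    rw [← sum_homogeneousComponent p, map_sum]
    refine Finset.sum_eq_zero fun d _ => ?_
    have h1 := homId_comp hI hp d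
    show Polynomial.mapRingHom mkJ (dht (homogeneousComponent d p)) = 0
    rw [dht_hom (homogeneousComponent_isHomogeneous d p), map_mul]
    have h2 : mkJ (dhm (homogeneousComponent d p)) = 0 :=
      Ideal.Quotient.eq_zero_iff_mem.mpr (Ideal.mem_map_of_mem dhm h1)
    have h3 : Polynomial.mapRingHom mkJ (Polynomial.C (dhm (homogeneousComponent d p))) = 0 := by
      rw [Polynomial.coe_mapRingHom, Polynomial.map_C, h2, map_zero]
    rw [h3, zero_mul]
  let g : B →+* Polynomial (R ⧸ J) := Ideal.Quotient.lift I g0 hg0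
  have hg : ∀ p : A, g (mkI p) = Polynomial.mapRingHom mkJ (dht p) := fun p =>
    Ideal.Quotient.lift_mk _ _ _
  have hgs : g s' = Polynomial.X := by
    rw [hg, dht_X]
    have : dhm (k := k) (n := n) (X 0) = 1 := by unfold dhm; rw [eval₂Hom_X']; rfl
    rw [this, map_one, one_mul, Polynomial.coe_mapRingHom, Polynomial.map_X]
  haveI : IsNoetherianRing (R ⧸ J) := inferInstance
  haveI : IsNoetherianRing (Polynomial (R ⧸ J)) := inferInstance
  refine hG.glue (T' := B) (T := Polynomial (R ⧸ J)) g s' Polynomial.X hgs ?_ ?_ ?_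
    (hG.polynomial (hk J)) (hG.polynomial_quot (hk J))
  · -- almost surjective
    have key : ∀ r : R, ∃ (m : ℕ) (p : A), dht p = Polynomial.C r * Polynomial.X ^ m := by
      intro r
      induction r using MvPolynomial.induction_on with
      | C a => exact ⟨0, C a, by
          rw [dht_C, pow_zero, mul_one]
          unfold dhm
          rw [eval₂Hom_C]⟩
      | add p q hp hq =>
        obtain ⟨m, t, ht⟩ := hp
        obtain ⟨m', r, hr⟩ := hq
        refine ⟨m + m', t * X 0 ^ m' + r * X 0 ^ m, ?_⟩
        have h0 : dht (k := k) (n := n) (X 0) = Polynomial.X := by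
          rw [dht_X]
          have : dhm (k := k) (n := n) (X 0) = 1 := by unfold dhm; rw [eval₂Hom_X']; rfl
          rw [this, map_one, one_mul]
        rw [map_add, map_mul, map_mul, map_pow, map_pow, h0, ht, hr, map_add]
        ring
      | mul_X p j hp =>
        obtain ⟨m, t, ht⟩ := hp
        refine ⟨m + 1, t * X j.succ, ?_⟩
        have h0 : dht (k := k) (n := n) (X j.succ) = Polynomial.C (X j) * Polynomial.X := by
          rw [dht_X]
          have : dhm (k := k) (n := n) (X j.succ) = X j := by unfold dhm; rw [eval₂Hom_X']; rfl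
          rw [this]
        rw [map_mul, h0, ht, map_mul]
        ring
    intro y
    induction y using Polynomial.induction_on' with
    | add p q hp hq =>
      obtain ⟨m, t, ht⟩ := hp
      obtain ⟨m', r, hr⟩ := hq
      refine ⟨m + m', s' ^ m' * t + s' ^ m * r, ?_⟩
      rw [map_add, map_mul, map_mul, map_pow, map_pow, hgs, ← ht, ← hr]
      ring
    | monomial j a =>
      obtain ⟨r, rfl⟩ := Ideal.Quotient.mk_surjective a
      obtain ⟨m, p, hp⟩ := key r
      refine ⟨m, mkI p * s' ^ j, ?_⟩
      rw [map_mul, map_pow, hgs, hg, hp, ← Polynomial.C_mul_X_pow_eq_monomial, map_mul, map_pow,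
        Polynomial.coe_mapRingHom, Polynomial.map_X, Polynomial.map_C]
      show Polynomial.X ^ m * (Polynomial.C (mkJ r) * Polynomial.X ^ j) = _
      ring
  · -- the kernel
    let L := Localization.Away s'
    let al : B →+* L := algebraMap B L
    have hunit : IsUnit (al s') := IsLocalization.Away.algebraMap_isUnit _
    obtain ⟨w, hw⟩ := isUnit_iff_exists_inv.1 hunit
    let ψ : R →+* L := eval₂Hom ((al.comp mkI).comp C) (fun i => w * al (mkI (X i.succ)))
    let E0 : Polynomial R →+* L := Polynomial.eval₂RingHom ψ (al s')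
    have hE0 : E0.comp dht = al.comp mkI := by
      apply MvPolynomial.ringHom_ext
      · intro a
        show E0 (dht (C a)) = al (mkI (C a))
        rw [dht_C]
        unfold dhm
        rw [eval₂Hom_C]
        show Polynomial.eval₂ ψ (al s') (Polynomial.C (C a)) = _
        rw [Polynomial.eval₂_C]
        show eval₂Hom ((al.comp mkI).comp C) _ (C a) = _
        rw [eval₂Hom_C]
        rfl
      · intro i
        show E0 (dht (X i)) = al (mkI (X i))
        rw [dht_X]
        show Polynomial.eval₂ ψ (al s') (Polynomial.C (dhm (X i)) * Polynomial.X) = _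
        rw [Polynomial.eval₂_mul, Polynomial.eval₂_C, Polynomial.eval₂_X]
        refine Fin.cases ?_ (fun i => ?_) i
        · have : dhm (k := k) (n := n) (X 0) = 1 := by unfold dhm; rw [eval₂Hom_X']; rfl
          rw [this, map_one, one_mul]
        · have : dhm (k := k) (n := n) (X i.succ) = X i := by unfold dhm; rw [eval₂Hom_X']; rfl
          rw [this]
          show eval₂Hom ((al.comp mkI).comp C) _ (X i) * al s' = _
          rw [eval₂Hom_X', mul_comm w, mul_assoc, mul_comm w, hw, mul_one]
    have hE0' : ∀ p : A, E0 (dht p) = al (mkI p) := fun p => congrArg (fun f => f p) hE0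
    have hψ : ∀ q ∈ I, ψ (dhm q) = 0 := by
      intro q hq
      rw [← sum_homogeneousComponent q, map_sum, map_sum]
      refine Finset.sum_eq_zero fun d _ => ?_
      have h1 := homId_comp hI hq d
      have h2 := hE0' (homogeneousComponent d q)
      rw [dht_hom (homogeneousComponent_isHomogeneous d q)] at h2
      have h3 : mkI (homogeneousComponent d q) = 0 := Ideal.Quotient.eq_zero_iff_mem.mpr h1
      rw [h3, map_zero] at h2
      have h4 : ψ (dhm (homogeneousComponent d q)) * (al s') ^ d = 0 := by
        rw [← h2]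
        show _ = Polynomial.eval₂ ψ (al s') (Polynomial.C (dhm (homogeneousComponent d q)) *
          Polynomial.X ^ d)
        rw [Polynomial.eval₂_mul, Polynomial.eval₂_C, Polynomial.eval₂_X_pow]
      exact ((hunit.pow d).mul_left_eq_zero).mp h4
    have hJ : ∀ r ∈ J, ψ r = 0 := by
      intro r hr
      have hle : J ≤ RingHom.ker ψ := by
        rw [Ideal.map_le_iff_le_comap]
        intro q hq
        exact hψ q hq
      exact hle hr
    let ψ' : R ⧸ J →+* L := Ideal.Quotient.lift J ψ hJ
    let E : Polynomial (R ⧸ J) →+* L := Polynomial.eval₂RingHom ψ' (al s')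
    have hE : ∀ y : Polynomial R, E (Polynomial.mapRingHom mkJ y) = E0 y := by
      intro y
      show Polynomial.eval₂ ψ' (al s') (Polynomial.map mkJ y) = Polynomial.eval₂ ψ (al s') y
      rw [Polynomial.eval₂_map]
      rfl
    intro b hb
    obtain ⟨p, rfl⟩ := Ideal.Quotient.mk_surjective b
    have h1 : g (mkI p) = 0 := hb
    have h2 : al (mkI p) = 0 := by
      rw [← hE0', ← hE, ← hg, h1, map_zero]
    obtain ⟨⟨_, m, rfl⟩, hm⟩ := (IsLocalization.map_eq_zero_iff
      (Submonoid.powers s') L (mkI p)).1 h2
    exact ⟨m, hm⟩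
  · -- the quotient
    let q : B →+* B ⧸ Ideal.span {s'} := Ideal.Quotient.mk _
    have hq0 : q s' = 0 :=
      Ideal.Quotient.eq_zero_iff_mem.mpr (Ideal.mem_span_singleton_self s')
    let f : R →+* B ⧸ Ideal.span {s'} :=
      eval₂Hom ((q.comp mkI).comp C) (fun i => q (mkI (X i.succ)))
    have hfC : ∀ a, f (C a) = q (mkI (C a)) := fun a => MvPolynomial.eval₂Hom_C _ _ a
    have hfX : ∀ i, f (X i) = q (mkI (X i.succ)) := fun i => MvPolynomial.eval₂Hom_X' _ _ i
    refine hG.of_surj hk f ?_
    intro y
    obtain ⟨b, rfl⟩ := Ideal.Quotient.mk_surjective y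
    obtain ⟨p, rfl⟩ := Ideal.Quotient.mk_surjective b
    show ∃ r, f r = q (mkI p)
    induction p using MvPolynomial.induction_on with
    | C a => exact ⟨C a, hfC a⟩
    | add p r hp hr =>
      obtain ⟨u, hu⟩ := hp
      obtain ⟨v, hv⟩ := hr
      exact ⟨u + v, by rw [map_add, hu, hv, map_add, map_add]⟩
    | mul_X p j hp =>
      obtain ⟨u, hu⟩ := hp
      refine Fin.cases ?_ (fun j => ?_) j
      · refine ⟨0, ?_⟩
        have h5 : q (mkI p * s') = 0 := Ideal.Quotient.eq_zero_iff_mem.mpr
          (Ideal.mul_mem_left _ _ (Ideal.mem_span_singleton_self s'))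
        have h6 : mkI (p * X 0) = mkI p * s' := map_mul mkI _ _
        rw [h6, h5, map_zero]
      · exact ⟨u * X j, by rw [map_mul, hu, hfX, map_mul, map_mul]⟩

end Cls

end Pool.Agent.GTH
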