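import Pool.Agent.GTH.Basic

/-!
# G-theories: localisation triples of rings
-/

set_option autoImplicit false

open Function

namespace Pool.Agent.GTH

section

variable {A C L : Type} [CommRing A] [CommRing C] [CommRing L]

/-- the elementary form of localisation away from an element -/
theorem isLoc_mk {s : A} {π : A →+* C} {l : A →+* L} (h1 : Surjective π)
    (h2 : ∀ a, π a = 0 ↔ ∃ b, a = s * b) (h3 : IsUnit (l s))
    (h4 : ∀ z : L, ∃ (k : ℕ) (a : A), z * l s ^ k = l a)
    (h5 : ∀ a : A, l a = 0 → ∃ k : ℕ, s ^ k * a = 0) : IsLoc s π l := by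
  refine ⟨h1, ?_, ?_⟩
  · ext a
    rw [RingHom.mem_ker, h2, Ideal.mem_span_singleton]
    rfl
  · let _ := l.toAlgebra
    refine ⟨?_, ?_, ?_⟩
    · rintro ⟨y, k, rfl⟩
      have h6 : algebraMap A L (s ^ k) = l s ^ k := map_pow l s k
      rw [h6]
      exact h3.pow k
    · intro z
      obtain ⟨k, a, hk⟩ := h4 z
      refine ⟨(a, ⟨s ^ k, k, rfl⟩), ?_⟩
      have h6 : algebraMap A L (s ^ k) = l s ^ k := map_pow l s k
      rw [h6]
      exact hk
    · intro x y hxy
      have h6 : l (x - y) = 0 := by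
        rw [map_sub, sub_eq_zero]
        exact hxy
      obtain ⟨k, hk⟩ := h5 _ h6
      refine ⟨⟨s ^ k, k, rfl⟩, ?_⟩
      rw [mul_sub, sub_eq_zero] at hk
      exact hk

namespace IsLoc

variable {s : A} {π : A →+* C} {l : A →+* L} (h : IsLoc s π l)

include h

theorem map_eq_zero_iff (a : A) : π a = 0 ↔ ∃ b, a = s * b := by
  rw [← RingHom.mem_ker, h.ker, Ideal.mem_span_singleton]
  rfl

theorem map_self : π s = 0 := (h.map_eq_zero_iff s).2 ⟨1, (mul_one s).symm⟩

theorem unit : IsUnit (l s) := by
  let _ := l.toAlgebra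
  have := h.loc
  exact IsLocalization.Away.algebraMap_isUnit (S := L) s

theorem surjL (z : L) : ∃ (k : ℕ) (a : A), z * l s ^ k = l a := by
  let _ := l.toAlgebra
  have := h.loc
  obtain ⟨k, a, hk⟩ := IsLocalization.Away.surj (S := L) s z
  exact ⟨k, a, by
    have h1 : algebraMap A L s = l s := rfl
    rw [← h1]
    exact hk⟩

theorem eqL (a : A) (ha : l a = 0) : ∃ k : ℕ, s ^ k * a = 0 := by
  let _ := l.toAlgebra
  have := h.loc
  have h1 : algebraMap A L a = algebraMap A L 0 := by
    rw [map_zero]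
    exact ha
  obtain ⟨⟨c, k, rfl⟩, hc⟩ := (IsLocalization.eq_iff_exists (Submonoid.powers s) L).1 h1
  refine ⟨k, ?_⟩
  rw [mul_zero] at hc
  exact hc

/-- change of the quotient and of the localisation -/
theorem congr {C' L' : Type} [CommRing C'] [CommRing L'] (e : C ≃+* C') (e' : L ≃+* L') :
    IsLoc s ((e : C →+* C').comp π) ((e' : L →+* L').comp l) := by
  refine isLoc_mk (e.surjective.comp h.surj) (fun a => ?_) ?_ (fun z => ?_) (fun a ha => ?_)
  · rw [← h.map_eq_zero_iff]
    exact _root_.map_eq_zero_iff e e.injective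
  · exact h.unit.map e'
  · obtain ⟨k, a, hk⟩ := h.surjL (e'.symm z)
    refine ⟨k, a, ?_⟩
    show z * (e' (l s)) ^ k = e' (l a)
    rw [← hk, map_mul, e'.apply_symm_apply, map_pow]
  · exact h.eqL a ((_root_.map_eq_zero_iff e' e'.injective).1 ha)

end IsLoc

/-- the standard triple -/
theorem isLoc_std (s : A) : IsLoc s (Ideal.Quotient.mk (Ideal.span {s}))
    (algebraMap A (Localization.Away s)) := by
  refine ⟨Ideal.Quotient.mk_surjective, Ideal.mk_ker, ?_⟩
  have h : (algebraMap A (Localization.Away s)).toAlgebra =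
      (inferInstance : Algebra A (Localization.Away s)) := by
    apply Algebra.algebra_ext
    intro r
    rfl
  rw [h]
  infer_instance

/-- polynomial rings -/
theorem IsLoc.mvPolynomial {s : A} {π : A →+* C} {l : A →+* L} (h : IsLoc s π l) (σ : Type) :
    IsLoc (MvPolynomial.C s : MvPolynomial σ A) (MvPolynomial.map π) (MvPolynomial.map l) := by
  refine ⟨MvPolynomial.map_surjective π h.surj, ?_, ?_⟩
  · rw [MvPolynomial.ker_map, h.ker, Ideal.map_span, Set.image_singleton]
  · let _ := l.toAlgebra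
    let _ : Algebra (MvPolynomial σ A) (MvPolynomial σ L) := MvPolynomial.algebraMvPolynomial
    have := h.loc
    have h1 : IsLocalization ((Submonoid.powers s).map (MvPolynomial.C (σ := σ)))
        (MvPolynomial σ L) := MvPolynomial.isLocalization (Submonoid.powers s) L
    rw [Submonoid.map_powers] at h1
    exact h1

theorem IsLoc.of_eq {s s' : A} {π π' : A →+* C} {l l' : A →+* L} (h : IsLoc s π l) (h1 : s = s')
    (h2 : π = π') (h3 : l = l') : IsLoc s' π' l' := by
  subst h1 h2 h3
  exact h

end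

end Pool.Agent.GTH
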