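import Pool.Agent.GTH.Fin

/-!
# Bass's finiteness question for all `K'_n`: smooth affine cubics and trilinear forms
-/

set_option autoImplicit false

namespace Pool.Agent.GTH.OldSmoothCubics

open Pool.Agent.Helper11 Pool.Agent.GTH BassH MvPolynomial TensorProduct Function

universe u

/-- (A) Every finitely generated algebra `B` over a noetherian ring `k` and one smooth affine cubic
hypersurface `X = Spec k[x]/(f)`: `G₀(X) ≅ G₀(k) × G₀(B)`, and `T_n(X) ≅ T_n(k) × T_n(B)` for every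
G-theory of length `N` and all `n < N`. -/
def EncodedInCubic (k : Type) [CommRing k] (B : Type) [CommRing B] : Prop :=
  ∃ (ι : Type) (_ : Fintype ι) (f : MvPolynomial ι k), f.totalDegree ≤ 3 ∧
    Algebra.Smooth k (MvPolynomial ι k ⧸ Ideal.span {f}) ∧
    Nonempty (G0 (MvPolynomial ι k ⧸ Ideal.span {f}) ≃+ G0 k × G0 B) ∧
    ∀ (N : WithTop ℤ) (𝒯 : GTheory.{u} N) (n : ℤ), (n : WithTop ℤ) < N →
      Nonempty (𝒯.T n (MvPolynomial ι k ⧸ Ideal.span {f}) ≃+ 𝒯.T n k × 𝒯.T n B)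

/-- (B), hypothesis: `T_M` of all smooth affine cubic hypersurfaces over `k` is in the class `𝒮`. -/
def SmoothCubicsIn (k : Type) [CommRing k] {N : WithTop ℤ} (𝒯 : GTheory.{u} N)
    (𝒮 : (G : Type u) → [AddCommGroup G] → Prop) (M : ℤ) : Prop :=
  ∀ (ι : Type) [Fintype ι] (f : MvPolynomial ι k), f.totalDegree ≤ 3 →
    Algebra.Smooth k (MvPolynomial ι k ⧸ Ideal.span {f}) →
    𝒮 (𝒯.T M (MvPolynomial ι k ⧸ Ideal.span {f}))

/-- (B), conclusion: `T_n`, `n ≤ M`, of all finitely generated `k`-algebras is in the class `𝒮`. -/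
def AllIn (k : Type) [CommRing k] {N : WithTop ℤ} (𝒯 : GTheory.{u} N)
    (𝒮 : (G : Type u) → [AddCommGroup G] → Prop) (M : ℤ) : Prop :=
  ∀ (C : Type) [CommRing C] [Algebra k C] [Algebra.FiniteType k C] (n : ℤ), n ≤ M → 𝒮 (𝒯.T n C)

/-- (D) The equivalences for a G-theory `T` of length `N`, a class `𝒮` and degrees `n ≤ M`: (1) and (2)
in general; (1), (2), (3), (4), (5) if `M < N` and `T_n(k)` is in `𝒮` for `n ≤ M + 1`, `k = ℤ/m`. -/
def Equivalences (m d : ℕ) {N : WithTop ℤ} (𝒯 : GTheory.{u} N)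
    (𝒮 : (G : Type u) → [AddCommGroup G] → Prop) (M : ℤ) : Prop :=
  (ResG (fun R _ => SFG 𝒯 𝒮 M R) (ZMod m) d ↔
    AffG (fun R _ => SFG 𝒯 𝒮 M R) (ZMod m) (d + 1)) ∧
  ((M : WithTop ℤ) < N → (∀ i : ℤ, i ≤ M + 1 → 𝒮 (𝒯.T i (ZMod m))) →
    List.TFAE [ResG (fun R _ => SFG 𝒯 𝒮 M R) (ZMod m) d,
      AffG (fun R _ => SFG 𝒯 𝒮 M R) (ZMod m) (d + 1),
      TriG (fun R _ => SFG 𝒯 𝒮 M R) (ZMod m) (d + 2),
      CubG (fun R _ => SFG 𝒯 𝒮 M R) (ZMod m) (d + 2),
      CompG (fun R _ => SFG 𝒯 𝒮 (M + 1) R) (ZMod m) (d + 2)])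

/-- (E) The equivalences (1) to (4) for `G₀` and a class `𝒮`. -/
def EquivalencesG0 (m d : ℕ) (𝒮 : (G : Type 1) → [AddCommGroup G] → Prop) : Prop :=
  List.TFAE [ResG (fun R _ => 𝒮 (G0 R)) (ZMod m) d, AffG (fun R _ => 𝒮 (G0 R)) (ZMod m) (d + 1),
    TriG (fun R _ => 𝒮 (G0 R)) (ZMod m) (d + 2), CubG (fun R _ => 𝒮 (G0 R)) (ZMod m) (d + 2)]

/-- (F) `K₁` and `G₀`, finitely generated groups: the equivalences and the known cases. -/
def EquivalencesK1 (m d : ℕ) : Prop :=
  List.TFAE [ResFG (ZMod m) d, AffFG (ZMod m) (d + 1), TriFG (ZMod m) (d + 2),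
    CubFG (ZMod m) (d + 2), CompFG (ZMod m) (d + 2)] ∧
  ((m = 0 → d = 0) → d ≤ 1 → ResFG (ZMod m) d ∧ AffFG (ZMod m) (d + 1) ∧
    TriFG (ZMod m) (d + 2) ∧ CubFG (ZMod m) (d + 2) ∧ CompFG (ZMod m) (d + 2))

/-- (G) `G₀` of a closed subscheme of affine `(d + 1)`-space is a quotient of the groups of one nonzero
form of format `(d + 2, b, c)`. -/
def EncodedInForm (m d : ℕ) (I : Ideal (MvPolynomial (Fin (d + 1)) (ZMod m))) : Prop :=
  ∃ (b c : ℕ) (t : Fin (d + 2) → Fin b → Fin c → ZMod m), triF t ≠ 0 ∧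
    SurjectsOnto (G0 (TriRing t)) (G0 (MvPolynomial (Fin (d + 1)) (ZMod m) ⧸ I)) ∧
    SurjectsOnto (G0 (CubRing t)) (G0 (MvPolynomial (Fin (d + 1)) (ZMod m) ⧸ I)) ∧
    SurjectsOnto (K1 (CompRing t)) (G0 (MvPolynomial (Fin (d + 1)) (ZMod m) ⧸ I))

/-- (H) `G₀` is a G-theory of length `0`, with its usual pull-backs and push-forwards. -/
def G0IsTheory : Prop :=
  ∃ (T : GTheory.{1} 0) (e : ∀ (A : Type) [CommRing A], T.T 0 A ≃+ G0 A),
    (∀ (A B : Type) [CommRing A] [CommRing B] [Algebra A B] [Module.Flat A B] (M : FGMod A),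
      e B (T.pull 0 (algebraMap A B) ((e A).symm (G0.mk M))) = G0.mk (FGMod.of B (B ⊗[A] M))) ∧
    ∀ (A B : Type) [CommRing A] [CommRing B] (π : A →+* B) (hπ : Surjective π) (M : FGMod B),
      e A (T.push 0 π ((e B).symm (G0.mk M))) = G0.mk (restr π hπ M)

/-- A G-theory of length `N` (`GTheory N`) has groups `T_n(A)` (`n ∈ ℤ`, `A` a noetherian ring), with
flat pull-backs, push-forwards for surjective homomorphisms and the formal properties of Quillen's
groups `K'_n`, the localisation sequence for `A / s` and `A[1/s]` being exact at `T_n(A / s)` for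
`n < N`. A Serre class (`Serre 𝒮`) is a class of abelian groups closed under subgroups, quotients and
extensions; the class of finitely generated groups is one.

(A) Let `k` be a noetherian ring. For every finitely generated `k`-algebra `B` there is a polynomial
`f` over `k` of degree at most three such that `X = Spec k[x]/(f)` is smooth over `k`,
`G₀(X) ≅ G₀(k) ⊕ G₀(B)`, and `T_n(X) ≅ T_n(k) ⊕ T_n(B)` for every G-theory of length `N` and all
`n < N`.

(B) Let `k` be a noetherian ring, `T` a G-theory of length `N`, `𝒮` a Serre class and `M < N`. If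
`T_M(X)` is in `𝒮` for all smooth affine cubic hypersurfaces `X` as in (A), then `T_n(C)` is in
`𝒮` for all finitely generated `k`-algebras `C` and all `n ≤ M`.

Let now `k = ℤ` (`m = 0`) or `k = 𝔽_p` (`m = p`), and `d ≥ 0`. For a tensor `t` of format
`(d + 2, b, c)` over `k` let `F = ∑ t i j l xᵢ yⱼ z_l`.

(C) The cubic `F = T² - T` is smooth over `k`.

(D) Let `T` be a G-theory of length `N`, `𝒮` a Serre class and `M` an integer. The following are
equivalent: (1) `T_n(C)`, `n ≤ M`, is in `𝒮` for all finitely generated `k`-algebras `C` all of whose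
residue fields have transcendence degree at most `d` over their prime field; (2) the same for the
closed subschemes of affine `(d + 1)`-space over `k`. If `M < N` and `T_n(k)` is in `𝒮` for all
`n ≤ M + 1`, then these are equivalent to: (3) the same for the hypersurfaces `F = 0` of format
`(d + 2, b, c)`; (4) the same for the smooth cubics `F = T² - T`; (5) `T_n`, `n ≤ M + 1`, is in `𝒮` for
the complements `F ≠ 0`, `F` a nonzero form of this format.

(E) For every Serre class `𝒮`, (1) to (4) are equivalent for `G₀`.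

(F) The following are equivalent: (1), (2), (3), (4) for `G₀` and the finitely generated groups, and:
`K₁` is finitely generated for the complements `F ≠ 0` in (5). For `k = ℤ`, `d = 0` and for `k = 𝔽_p`,
`d ≤ 1` all this is true.

(G) For every closed subscheme of affine `(d + 1)`-space over `k` there is one form of this format
so that its `G₀` is a quotient of the last three groups.

(H) `G₀` is a G-theory of length `0`, with its usual pull-backs and push-forwards. -/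
theorem result :
    -- (A)
    (∀ (k : Type) [CommRing k] [IsNoetherianRing k] (B : Type) [CommRing B] [Algebra k B]
      [Algebra.FiniteType k B], EncodedInCubic.{u} k B) ∧
    -- (B)
    (∀ (k : Type) [CommRing k] [IsNoetherianRing k] (N : WithTop ℤ) (𝒯 : GTheory.{u} N)
      (𝒮 : (G : Type u) → [AddCommGroup G] → Prop), Serre 𝒮 → ∀ M : ℤ, (M : WithTop ℤ) < N →
      SmoothCubicsIn k 𝒯 𝒮 M → AllIn k 𝒯 𝒮 M) ∧
    (∀ m : ℕ, m = 0 ∨ m.Prime → ∀ d : ℕ,
      -- (C)
      (∀ (b c : ℕ) (t : Fin (d + 2) → Fin b → Fin c → ZMod m),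
        Algebra.Smooth (ZMod m) (CubRing t)) ∧
      -- (D)
      (∀ (N : WithTop ℤ) (𝒯 : GTheory.{u} N) (𝒮 : (G : Type u) → [AddCommGroup G] → Prop),
        Serre 𝒮 → ∀ M : ℤ, Equivalences m d 𝒯 𝒮 M) ∧
      -- (E), (F), (G)
      (∀ (𝒮 : (G : Type 1) → [AddCommGroup G] → Prop), Serre 𝒮 → EquivalencesG0 m d 𝒮) ∧
      EquivalencesK1 m d ∧
      ∀ I : Ideal (MvPolynomial (Fin (d + 1)) (ZMod m)), EncodedInForm m d I) ∧
    -- (H)
    G0IsTheory := by
  refine ⟨fun k _ _ B _ _ _ => thm_A' k B, fun k _ _ N 𝒯 𝒮 h𝒮 M hM h C _ _ _ n hn =>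
    (thm_E k 𝒯 h𝒮 M hM).2 h C n hn, fun m hm d => ?_, exists_G0'⟩
  obtain ⟨hs, ht⟩ := all_Final m hm d
  obtain ⟨hd, hp⟩ := final_zmod m hm
  have ht' : List.TFAE [ResFG (ZMod m) d, AffFG (ZMod m) (d + 1), TriFG (ZMod m) (d + 2),
      CubFG (ZMod m) (d + 2), CompFG (ZMod m) (d + 2)] := ht
  refine ⟨hs, fun N 𝒯 𝒮 h𝒮 M => ⟨fin_12 𝒯 h𝒮 m hm M d, fun hM h0 => fin_15 𝒯 h𝒮 m hm M hM h0 d⟩,
    fun 𝒮 h𝒮 => fin_G0 h𝒮 m hm d, ⟨ht', fun h0 h1 => ?_⟩, fun I => ?_⟩
  · have h2 : AffFG (ZMod m) (d + 1) := fun I => thm_Small m d h0 h1 I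
    exact ⟨(ht'.out 1 0 rfl rfl).mp h2, h2, (ht'.out 1 2 rfl rfl).mp h2,
      (ht'.out 1 3 rfl rfl).mp h2, (ht'.out 1 4 rfl rfl).mp h2⟩
  · obtain ⟨b, c, t, h1, h2, h3, h4⟩ := thm_Enc (ZMod m) (d + 1) I
    exact ⟨b, c, t, h1, h3, h4, h2⟩

end Pool.Agent.GTH.OldSmoothCubics
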