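import Pool.Agent.GTH.Loc

/-!
# G-theories: the rings `P[T] / (T² - T - a)`
-/

set_option autoImplicit false

open Function

namespace Pool.Agent.GTH

/-- the ring `P[T] / (T² - T - a)`, with elements `re + im * T` -/
abbrev Qd {P : Type} [CommRing P] (a : P) : Type := QuadraticAlgebra P a 1

section

variable {P P' R : Type} [CommRing P] [CommRing P'] [CommRing R]

/-- the homomorphism given by `f` and `T ↦ r` -/
def qlift {a : P} (f : P →+* R) (r : R) (h : r * r = f a + r) : Qd a →+* R where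
  toFun z := f z.re + f z.im * r
  map_one' := by
    show f 1 + f 0 * r = 1
    rw [map_one, map_zero, zero_mul, add_zero]
  map_zero' := by
    show f 0 + f 0 * r = 0
    rw [map_zero, zero_mul, add_zero]
  map_add' z w := by
    show f (z.re + w.re) + f (z.im + w.im) * r = _
    rw [map_add, map_add]
    ring
  map_mul' z w := by
    rw [QuadraticAlgebra.re_mul, QuadraticAlgebra.im_mul]
    simp only [map_add, map_mul, map_one]
    linear_combination (-(f z.im * f w.im)) * h

theorem qlift_apply {a : P} (f : P →+* R) (r : R) (h : r * r = f a + r) (z : Qd a) :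
    qlift f r h z = f z.re + f z.im * r := rfl

/-- the constants -/
def qC (a : P) : P →+* Qd a := algebraMap P (Qd a)

/-- the element `T` -/
def qT (a : P) : Qd a := ⟨0, 1⟩

theorem qC_re (a p : P) : (qC a p).re = p := rfl

theorem qC_im (a p : P) : (qC a p).im = 0 := rfl

theorem q_eq {a : P} (z : Qd a) : z = qC a z.re + qC a z.im * qT a := by
  apply QuadraticAlgebra.ext
  · rw [QuadraticAlgebra.re_add, QuadraticAlgebra.re_mul, qC_re, qC_re, qC_im]
    show z.re = z.re + (z.im * 0 + a * 0 * 1)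
    ring
  · rw [QuadraticAlgebra.im_add, QuadraticAlgebra.im_mul, qC_re, qC_im, qC_im]
    show z.im = 0 + (z.im * 1 + 0 * 0 + 1 * 0 * 1)
    ring

theorem qT_mul (a : P) : qT a * qT a = qC a a + qT a := by
  apply QuadraticAlgebra.ext
  · rw [QuadraticAlgebra.re_add, QuadraticAlgebra.re_mul]
    show (0 : P) * 0 + a * 1 * 1 = a + 0
    ring
  · rw [QuadraticAlgebra.im_add, QuadraticAlgebra.im_mul]
    show (0 : P) * 1 + 1 * 0 + 1 * 1 * 1 = 0 + 1
    ring

theorem qlift_C {a : P} (f : P →+* R) (r : R) (h : r * r = f a + r) (p : P) :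
    qlift f r h (qC a p) = f p := by
  rw [qlift_apply, qC_re, qC_im, map_zero, zero_mul, add_zero]

theorem qlift_T {a : P} (f : P →+* R) (r : R) (h : r * r = f a + r) :
    qlift f r h (qT a) = r := by
  rw [qlift_apply]
  show f 0 + f 1 * r = r
  rw [map_zero, map_one, zero_add, one_mul]

theorem q_hom_ext {a : P} {f g : Qd a →+* R} (h : f.comp (qC a) = g.comp (qC a))
    (h' : f (qT a) = g (qT a)) : f = g := by
  refine RingHom.ext fun z => ?_
  rw [q_eq z, map_add, map_add, map_mul, map_mul, h']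
  have h1 : ∀ p, f (qC a p) = g (qC a p) := fun p => RingHom.congr_fun h p
  rw [h1, h1]

/-- functoriality -/
def qmap {a : P} {a' : P'} (f : P →+* P') (h : f a = a') : Qd a →+* Qd a' :=
  qlift ((qC a').comp f) (qT a') (by
    rw [RingHom.comp_apply, h]
    exact qT_mul a')

theorem qmap_C {a : P} {a' : P'} (f : P →+* P') (h : f a = a') (p : P) :
    qmap f h (qC a p) = qC a' (f p) := qlift_C _ _ _ _

theorem qmap_T {a : P} {a' : P'} (f : P →+* P') (h : f a = a') : qmap f h (qT a) = qT a' :=
  qlift_T _ _ _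

theorem qmap_re {a : P} {a' : P'} (f : P →+* P') (h : f a = a') (z : Qd a) :
    (qmap f h z).re = f z.re := by
  have h1 : qmap f h z = qC a' (f z.re) + qC a' (f z.im) * qT a' := rfl
  rw [h1, QuadraticAlgebra.re_add, QuadraticAlgebra.re_mul, qC_re, qC_re, qC_im]
  show f z.re + (f z.im * 0 + a' * 0 * 1) = f z.re
  ring

theorem qmap_im {a : P} {a' : P'} (f : P →+* P') (h : f a = a') (z : Qd a) :
    (qmap f h z).im = f z.im := by
  have h1 : qmap f h z = qC a' (f z.re) + qC a' (f z.im) * qT a' := rfl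
  rw [h1, QuadraticAlgebra.im_add, QuadraticAlgebra.im_mul, qC_re, qC_im, qC_im]
  show 0 + (f z.im * 1 + 0 * 0 + 1 * 0 * 1) = f z.im
  ring

theorem qC_flat (a : P) : (qC a).Flat := by
  have h1 : Module.Flat P (Qd a) := inferInstance
  exact RingHom.flat_algebraMap_iff.2 h1

instance [IsNoetherianRing P] (a : P) : IsNoetherianRing (Qd a) :=
  IsNoetherianRing.of_finite P (Qd a)

end

theorem qC_mul_re {P : Type} [CommRing P] (a p : P) (z : Qd a) : (qC a p * z).re = p * z.re := by
  rw [QuadraticAlgebra.re_mul, qC_re, qC_im]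
  ring

theorem qC_mul_im {P : Type} [CommRing P] (a p : P) (z : Qd a) : (qC a p * z).im = p * z.im := by
  rw [QuadraticAlgebra.im_mul, qC_re, qC_im]
  ring

/-- localisation triples -/
theorem IsLoc.quad {P C L : Type} [CommRing P] [CommRing C] [CommRing L] {s : P} {π : P →+* C}
    {l : P →+* L} (h : IsLoc s π l) {a : P} {c : C} {b : L} (h1 : π a = c) (h2 : l a = b) :
    IsLoc (qC a s) (qmap π h1) (qmap l h2) := by
  refine isLoc_mk (fun z => ?_) (fun z => ?_) ?_ (fun z => ?_) (fun z hz => ?_)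
  · obtain ⟨x, hx⟩ := h.surj z.re
    obtain ⟨y, hy⟩ := h.surj z.im
    refine ⟨⟨x, y⟩, ?_⟩
    apply QuadraticAlgebra.ext
    · rw [qmap_re]
      exact hx
    · rw [qmap_im]
      exact hy
  · constructor
    · intro hz
      have h3 : π z.re = 0 := by
        rw [← qmap_re π h1, hz]
        rfl
      have h4 : π z.im = 0 := by
        rw [← qmap_im π h1, hz]
        rfl
      obtain ⟨x, hx⟩ := (h.map_eq_zero_iff _).1 h3
      obtain ⟨y, hy⟩ := (h.map_eq_zero_iff _).1 h4
      refine ⟨⟨x, y⟩, ?_⟩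
      apply QuadraticAlgebra.ext
      · rw [qC_mul_re]
        exact hx
      · rw [qC_mul_im]
        exact hy
    · rintro ⟨w, rfl⟩
      rw [map_mul, qmap_C, h.map_self, map_zero, zero_mul]
  · rw [qmap_C]
    exact h.unit.map _
  · obtain ⟨k, x, hx⟩ := h.surjL z.re
    obtain ⟨j, y, hy⟩ := h.surjL z.im
    refine ⟨k + j, ⟨s ^ j * x, s ^ k * y⟩, ?_⟩
    rw [qmap_C, ← map_pow, mul_comm]
    apply QuadraticAlgebra.ext
    · rw [qC_mul_re, qmap_re]
      show l s ^ (k + j) * z.re = l (s ^ j * x)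
      rw [map_mul, map_pow, ← hx]
      ring
    · rw [qC_mul_im, qmap_im]
      show l s ^ (k + j) * z.im = l (s ^ k * y)
      rw [map_mul, map_pow, ← hy]
      ring
  · have h3 : l z.re = 0 := by
      rw [← qmap_re l h2, hz]
      rfl
    have h4 : l z.im = 0 := by
      rw [← qmap_im l h2, hz]
      rfl
    obtain ⟨k, hk⟩ := h.eqL _ h3
    obtain ⟨j, hj⟩ := h.eqL _ h4
    refine ⟨k + j, ?_⟩
    rw [← map_pow]
    apply QuadraticAlgebra.ext
    · rw [qC_mul_re]
      show s ^ (k + j) * z.re = 0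
      rw [pow_add, mul_comm (s ^ k), mul_assoc, hk, mul_zero]
    · rw [qC_mul_im]
      show s ^ (k + j) * z.im = 0
      rw [pow_add, mul_assoc, hj, mul_zero]

end Pool.Agent.GTH
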