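import Pool.Agent.GTH.Deh
import Pool.Agent.GTH.Fwd
import Pool.Agent.BassH.Enc

/-!
# G-theories: from the complements `F ≠ 0` to the cubics `T² - T = F`
-/

set_option autoImplicit false
set_option linter.unusedSectionVars false

open Function

namespace Pool.Agent.GTH

universe u

section T

variable {σ A V L : Type} [Fintype σ] [CommRing A] [CommRing V] [CommRing L]

/-- `W[1/T] = A[y][1/(1 + F)]` -/
theorem exists_T (q : σ → A) [Algebra (WR q) V] [IsLocalization.Away (qT (qf q)) V]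
    [Algebra (MvPolynomial σ A) L] [IsLocalization.Away (1 + qf q) L] : Nonempty (V ≃+* L) := by
  let a : WR q →+* V := algebraMap (WR q) V
  let b : MvPolynomial σ A →+* L := algebraMap (MvPolynomial σ A) L
  have hT : IsUnit (a (qT (qf q))) := IsLocalization.Away.algebraMap_isUnit (S := V) (qT (qf q))
  have hu : IsUnit (b (1 + qf q)) := IsLocalization.Away.algebraMap_isUnit (S := L) (1 + qf q)
  obtain ⟨v, hv⟩ := hT.exists_right_inv
  have hrel : a (qT (qf q)) * a (qT (qf q)) = a (qC (qf q) (qf q)) + a (qT (qf q)) := by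
    rw [← map_mul, ← map_add, qT_mul]
  -- `V → L`
  let ψa : MvPolynomial σ A →+* L := MvPolynomial.eval₂Hom (b.comp MvPolynomial.C)
    (fun j => b (MvPolynomial.X j) * b (1 + qf q))
  have hψaC : ∀ r, ψa (MvPolynomial.C r) = b (MvPolynomial.C r) := fun r =>
    MvPolynomial.eval₂Hom_C _ _ r
  have hψaX : ∀ j, ψa (MvPolynomial.X j) = b (MvPolynomial.X j) * b (1 + qf q) := fun j =>
    MvPolynomial.eval₂Hom_X' _ _ _
  have hψaF : ψa (qf q) = b (qf q) * b (1 + qf q) := by
    have h1 : qf q = ∑ j, MvPolynomial.C (q j) * MvPolynomial.X j := rfl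
    conv_lhs => rw [h1]
    conv_rhs => arg 1; rw [h1]
    rw [map_sum, map_sum, Finset.sum_mul]
    refine Finset.sum_congr rfl fun j _ => ?_
    rw [map_mul, map_mul, hψaC, hψaX, mul_assoc]
  let ψ1 : WR q →+* L := qlift ψa (b (1 + qf q)) (by
    rw [hψaF, map_add, map_one]
    ring)
  have hψ1C : ∀ p, ψ1 (qC (qf q) p) = ψa p := fun p => qlift_C _ _ _ _
  have hψ1T : ψ1 (qT (qf q)) = b (1 + qf q) := qlift_T _ _ _
  have hψ1u : IsUnit (ψ1 (qT (qf q))) := by
    rw [hψ1T]
    exact hu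
  let ψ : V →+* L := IsLocalization.Away.lift (qT (qf q)) hψ1u
  have hψ : ∀ w, ψ (a w) = ψ1 w := fun w => IsLocalization.Away.lift_eq _ _ _
  -- `L → V`
  let χ0 : MvPolynomial σ A →+* V := MvPolynomial.eval₂Hom (a.comp (wC q))
    (fun j => a (qC (qf q) (MvPolynomial.X j)) * v)
  have hχ0C : ∀ r, χ0 (MvPolynomial.C r) = a (wC q r) := fun r =>
    MvPolynomial.eval₂Hom_C _ _ r
  have hχ0X : ∀ j, χ0 (MvPolynomial.X j) = a (qC (qf q) (MvPolynomial.X j)) * v := fun j =>
    MvPolynomial.eval₂Hom_X' _ _ _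
  have hχ0F : χ0 (qf q) = a (qC (qf q) (qf q)) * v := by
    have h1 : qf q = ∑ j, MvPolynomial.C (q j) * MvPolynomial.X j := rfl
    have h2 : qC (qf q) (qf q) = ∑ j, qC (qf q) (MvPolynomial.C (q j)) *
        qC (qf q) (MvPolynomial.X j) := by
      conv_lhs => arg 2; rw [h1]
      rw [map_sum]
      exact Finset.sum_congr rfl fun j _ => map_mul _ _ _
    rw [h2]
    conv_lhs => rw [h1]
    rw [map_sum, map_sum, Finset.sum_mul]
    refine Finset.sum_congr rfl fun j _ => ?_
    rw [map_mul, map_mul, hχ0C, hχ0X, mul_assoc]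
    rfl
  have hχ0u : χ0 (1 + qf q) = a (qT (qf q)) := by
    rw [map_add, map_one, hχ0F]
    linear_combination (-v) * hrel + (a (qT (qf q)) - 1) * hv
  have hχu : IsUnit (χ0 (1 + qf q)) := by
    rw [hχ0u]
    exact hT
  let χ : L →+* V := IsLocalization.Away.lift (1 + qf q) hχu
  have hχ : ∀ p, χ (b p) = χ0 p := fun p => IsLocalization.Away.lift_eq _ _ _
  have hψv : b (1 + qf q) * ψ v = 1 := by
    rw [← hψ1T, ← hψ, ← map_mul, hv, map_one]
  refine ⟨RingEquiv.ofRingHom ψ χ ?_ ?_⟩
  · refine IsLocalization.ringHom_ext (Submonoid.powers (1 + qf q)) ?_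
    refine MvPolynomial.ringHom_ext (fun r => ?_) (fun j => ?_)
    · show ψ (χ (b _)) = b _
      rw [hχ, hχ0C, hψ]
      show ψ1 (qC (qf q) (MvPolynomial.C r)) = _
      rw [hψ1C, hψaC]
    · show ψ (χ (b _)) = b _
      rw [hχ, hχ0X, map_mul, hψ, hψ1C, hψaX, mul_assoc, hψv, mul_one]
  · refine IsLocalization.ringHom_ext (Submonoid.powers (qT (qf q))) ?_
    refine q_hom_ext (MvPolynomial.ringHom_ext (fun r => ?_) (fun j => ?_)) ?_
    · show χ (ψ (a (qC (qf q) (MvPolynomial.C r)))) = a (qC (qf q) (MvPolynomial.C r))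
      rw [hψ, hψ1C, hψaC, hχ, hχ0C]
      rfl
    · show χ (ψ (a (qC (qf q) (MvPolynomial.X j)))) = a (qC (qf q) (MvPolynomial.X j))
      rw [hψ, hψ1C, hψaX, map_mul, hχ, hχ, hχ0X, hχ0u, mul_assoc, mul_comm v, hv, mul_one]
    · show χ (ψ (a (qT (qf q)))) = a (qT (qf q))
      rw [hψ, hψ1T, hχ, hχ0u]

end T

/-- `F = 0` and `1 + F ≠ 0` give `T² - T = F` -/
theorem Cls.of_T {G : (R : Type) → [CommRing R] → Prop} (hG : Cls G) {σ A : Type} [Fintype σ]
    [CommRing A] [IsNoetherianRing A] (q : σ → A)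
    (h1 : G (MvPolynomial σ A ⧸ Ideal.span {qf q}))
    (h2 : G (Localization.Away (1 + qf q))) : G (WR q) := by
  let V := Localization.Away (qT (qf q))
  have hV : IsNoetherianRing V := noeth_away (V := V) (qT (qf q))
  have hL : IsNoetherianRing (Localization.Away (1 + qf q)) := noeth_away (1 + qf q)
  obtain ⟨E⟩ := exists_T (V := V) (L := Localization.Away (1 + qf q)) q
  refine hG.of_away (WR q) V (qT (qf q)) ?_ (hG.iso _ _ E.symm h2)
  let π : WR q →+* MvPolynomial σ A ⧸ Ideal.span {qf q} :=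
    qlift (Ideal.Quotient.mk (Ideal.span {qf q})) 0 (by
      rw [Ideal.Quotient.eq_zero_iff_mem.2 (Ideal.mem_span_singleton_self _)]
      ring)
  have hπ : ∀ z, π z = Ideal.Quotient.mk (Ideal.span {qf q}) z.re := by
    intro z
    have h3 : π z = Ideal.Quotient.mk (Ideal.span {qf q}) z.re +
      Ideal.Quotient.mk (Ideal.span {qf q}) z.im * 0 := rfl
    rw [h3, mul_zero, add_zero]
  have hs : Surjective π := by
    intro x
    obtain ⟨p, rfl⟩ := Ideal.Quotient.mk_surjective x
    exact ⟨⟨p, 0⟩, hπ _⟩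
  have hk : RingHom.ker π = Ideal.span {qT (qf q)} := by
    ext z
    rw [RingHom.mem_ker, hπ, Ideal.Quotient.eq_zero_iff_mem, Ideal.mem_span_singleton,
      Ideal.mem_span_singleton]
    constructor
    · rintro ⟨c, hc⟩
      refine ⟨⟨z.im - c, c⟩, ?_⟩
      apply QuadraticAlgebra.ext
      · rw [QuadraticAlgebra.re_mul, hc]
        show _ = 0 * (z.im - c) + qf q * 1 * c
        ring
      · rw [QuadraticAlgebra.im_mul]
        show z.im = 0 * c + 1 * (z.im - c) + 1 * 1 * c
        ring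
    · rintro ⟨w, rfl⟩
      refine ⟨w.im, ?_⟩
      rw [QuadraticAlgebra.re_mul]
      show 0 * w.re + qf q * 1 * w.im = qf q * w.im
      ring
  exact hG.iso _ _ ((Ideal.quotEquivOfEq hk.symm).trans
    (RingHom.quotientKerEquivOfSurjective hs)).symm h1

/-- `F ≠ 0` gives `1 + F = 0` -/
theorem Cls.of_F {G : (R : Type) → [CommRing R] → Prop} (hG : Cls G) {σ A V : Type} [Fintype σ]
    [CommRing A] [IsNoetherianRing A] (q : σ → A) [CommRing V] [Algebra (MvPolynomial σ A) V]
    [IsLocalization.Away (qf q) V] (h : G V) :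
    G (MvPolynomial σ A ⧸ Ideal.span {1 + qf q}) := by
  have hVn : IsNoetherianRing V := noeth_away (V := V) (qf q)
  let Q1 := MvPolynomial σ A ⧸ Ideal.span {1 + qf q}
  let π1 : MvPolynomial σ A →+* Q1 := Ideal.Quotient.mk _
  have hl : IsLocalization.Away (π1 1) Q1 := by
    rw [map_one]
    exact IsLocalization.away_of_isUnit_of_bijective Q1 isUnit_one Function.bijective_id
  have hVl : IsLocalization.Away (RingHom.id (MvPolynomial σ A) (-(qf q) * 1)) V := by
    rw [mul_one, RingHom.id_apply]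
    exact IsLocalization.Away.of_associated (r := qf q) ⟨-1, by simp⟩
  let V' := Localization.Away (Polynomial.X : Polynomial Q1)
  have hV' : IsNoetherianRing V' := noeth_away (V := V') (Polynomial.X : Polynomial Q1)
  have hhom0 : Pool.Agent.Helper11.homog (fun _ => 1) (qf q) =
      Polynomial.C (qf q) * Polynomial.X ^ 1 := by
    unfold qf
    rw [map_sum, map_sum, Finset.sum_mul]
    refine Finset.sum_congr rfl fun j _ => ?_
    rw [map_mul, Pool.Agent.Helper11.homog_C, Pool.Agent.Helper11.homog_X, map_mul, mul_assoc]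
  have hhom : Pool.Agent.Helper11.homog (fun _ => 1) (-(qf q)) =
      Polynomial.C (-(qf q)) * Polynomial.X ^ 1 := by
    rw [map_neg, hhom0, map_neg]
    ring
  obtain ⟨E⟩ := exists_deh (Q := MvPolynomial σ A) (V := V) (L1 := Q1) (V' := V') (fun _ => 1) ∅
    (by simp) (-(qf q)) 1 hhom (by rw [map_one, map_one, pow_zero, mul_one]) (RingHom.id _)
    Function.surjective_id (by
      rw [Ideal.span_empty]
      exact (RingHom.injective_iff_ker_eq_bot _).1 Function.injective_id)
    π1 Ideal.Quotient.mk_surjective (by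
      rw [Ideal.span_empty, bot_sup_eq, Ideal.mk_ker, ← Ideal.span_singleton_neg]
      congr 2
      ring)
  exact hG.of_lau Q1 V' (hG.iso _ _ E h)

end Pool.Agent.GTH
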