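import Pool.Agent.GTH.Quad

/-!
# G-theories: the rings `W = A[x, T] / (T² - T - ∑ x_j g_j)`
-/

set_option autoImplicit false

open Function

namespace Pool.Agent.GTH

universe u

variable {σ : Type} [Fintype σ] {A A' B C L : Type} [CommRing A] [CommRing A'] [CommRing B]
  [CommRing C] [CommRing L]

/-- the linear form `∑ g_j x_j` -/
noncomputable def qf (g : σ → A) : MvPolynomial σ A :=
  ∑ j, MvPolynomial.C (g j) * MvPolynomial.X j

theorem map_qf (φ : A →+* A') (g : σ → A) (g' : σ → A') (h : ∀ j, φ (g j) = g' j) :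
    MvPolynomial.map φ (qf g) = qf g' := by
  unfold qf
  rw [map_sum]
  refine Finset.sum_congr rfl fun j _ => ?_
  rw [map_mul, MvPolynomial.map_C, MvPolynomial.map_X, h]

theorem qf_zero (g : σ → A) (h : ∀ j, g j = 0) : qf g = 0 := by
  unfold qf
  refine Finset.sum_eq_zero fun j _ => ?_
  rw [h, map_zero, zero_mul]

/-- the ring `W` -/
abbrev WR (g : σ → A) : Type := Qd (qf g)

/-- functoriality of `W` -/
noncomputable def wmap (φ : A →+* A') (g : σ → A) (g' : σ → A') (h : ∀ j, φ (g j) = g' j) :
    WR g →+* WR g' :=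
  qmap (MvPolynomial.map φ) (map_qf φ g g' h)

/-- the constants of `W` -/
noncomputable def wC (g : σ → A) : A →+* WR g := (qC (qf g)).comp MvPolynomial.C

theorem wC_flat (g : σ → A) : (wC g).Flat := by
  have h1 : (MvPolynomial.C : A →+* MvPolynomial σ A).Flat := by
    have h2 : Module.Flat A (MvPolynomial σ A) := inferInstance
    rw [← MvPolynomial.algebraMap_eq]
    exact RingHom.flat_algebraMap_iff.2 h2
  exact h1.comp (qC_flat _)

theorem wmap_wC (φ : A →+* A') (g : σ → A) (g' : σ → A') (h : ∀ j, φ (g j) = g' j) :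
    (wmap φ g g' h).comp (wC g) = (wC g').comp φ := by
  refine RingHom.ext fun a => ?_
  show qmap (MvPolynomial.map φ) (map_qf φ g g' h) (qC _ (MvPolynomial.C a)) =
    qC _ (MvPolynomial.C (φ a))
  rw [qmap_C, MvPolynomial.map_C]

theorem isLoc_W {s : A} {π : A →+* C} {l : A →+* L} (h : IsLoc s π l) (g : σ → A) (gC : σ → C)
    (gL : σ → L) (h1 : ∀ j, π (g j) = gC j) (h2 : ∀ j, l (g j) = gL j) :
    IsLoc (wC g s) (wmap π g gC h1) (wmap l g gL h2) :=
  (h.mvPolynomial σ).quad _ _

/-- the section `T = 0` over `B = A / (g)` -/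
noncomputable def we (g : σ → A) (π : A →+* B) (h : ∀ j, π (g j) = 0) :
    WR g →+* MvPolynomial σ B :=
  qlift (MvPolynomial.map π) 0 (by
    rw [map_qf π g (fun _ => 0) h, qf_zero _ (fun _ => rfl)]
    ring)

theorem we_apply (g : σ → A) (π : A →+* B) (h : ∀ j, π (g j) = 0) (z : WR g) :
    we g π h z = MvPolynomial.map π z.re := by
  have h1 : we g π h z = MvPolynomial.map π z.re + MvPolynomial.map π z.im * 0 := rfl
  rw [h1, mul_zero, add_zero]

theorem we_surj (g : σ → A) (π : A →+* B) (h : ∀ j, π (g j) = 0) (hπ : Surjective π) :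
    Surjective (we g π h) := by
  intro p
  obtain ⟨q, hq⟩ := MvPolynomial.map_surjective π hπ p
  exact ⟨⟨q, 0⟩, by rw [we_apply]; exact hq⟩

theorem we_wmap (g : σ → A) (φ : A →+* A') (g' : σ → A') (hφ : ∀ j, φ (g j) = g' j)
    (π : A →+* B) (π' : A' →+* B) (h : ∀ j, π (g j) = 0) (h' : ∀ j, π' (g' j) = 0)
    (e : π'.comp φ = π) : (we g' π' h').comp (wmap φ g g' hφ) = we g π h := by
  refine RingHom.ext fun z => ?_
  show we g' π' h' (qmap (MvPolynomial.map φ) (map_qf φ g g' hφ) z) = _
  rw [we_apply, we_apply, qmap_re, MvPolynomial.map_map, e]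

section Unit

variable [DecidableEq σ]

/-- `W → A[x]` if `g j` is a unit -/
noncomputable def wu (g : σ → A) (j : σ) (v : A) (hv : g j * v = 1) :
    WR g →+* MvPolynomial σ A :=
  qlift (MvPolynomial.eval₂Hom MvPolynomial.C (fun i => if i = j then
      MvPolynomial.C v * (MvPolynomial.X j * MvPolynomial.X j - MvPolynomial.X j -
        ∑ i ∈ Finset.univ.erase j, MvPolynomial.C (g i) * MvPolynomial.X i)
      else MvPolynomial.X i)) (MvPolynomial.X j) (by
    have h1 : (MvPolynomial.eval₂Hom (MvPolynomial.C : A →+* MvPolynomial σ A)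
        (fun i => if i = j then
          MvPolynomial.C v * (MvPolynomial.X j * MvPolynomial.X j - MvPolynomial.X j -
            ∑ i ∈ Finset.univ.erase j, MvPolynomial.C (g i) * MvPolynomial.X i)
          else MvPolynomial.X i)) (qf g) = MvPolynomial.X j * MvPolynomial.X j -
            MvPolynomial.X j := by
      unfold qf
      rw [← Finset.add_sum_erase Finset.univ _ (Finset.mem_univ j), map_add, map_mul, map_sum,
        MvPolynomial.coe_eval₂Hom, MvPolynomial.eval₂_C, MvPolynomial.eval₂_X, if_pos rfl]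
      have h2 : ∑ x ∈ Finset.univ.erase j, MvPolynomial.eval₂ (MvPolynomial.C :
          A →+* MvPolynomial σ A) (fun i => if i = j then
          MvPolynomial.C v * (MvPolynomial.X j * MvPolynomial.X j - MvPolynomial.X j -
            ∑ i ∈ Finset.univ.erase j, MvPolynomial.C (g i) * MvPolynomial.X i)
          else MvPolynomial.X i) (MvPolynomial.C (g x) * MvPolynomial.X x) =
          ∑ i ∈ Finset.univ.erase j, MvPolynomial.C (g i) * MvPolynomial.X i := by
        refine Finset.sum_congr rfl fun i hi => ?_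
        rw [MvPolynomial.eval₂_mul, MvPolynomial.eval₂_C, MvPolynomial.eval₂_X,
          if_neg (Finset.ne_of_mem_erase hi)]
      rw [h2, ← mul_assoc, ← map_mul, hv, map_one]
      ring
    rw [h1]
    ring)

/-- `A[x] → W` -/
noncomputable def wv (g : σ → A) (j : σ) : MvPolynomial σ A →+* WR g :=
  MvPolynomial.eval₂Hom (wC g) (fun i => if i = j then qT (qf g) else
    qC (qf g) (MvPolynomial.X i))

theorem wu_wv (g : σ → A) (j : σ) (v : A) (hv : g j * v = 1) :
    (wu g j v hv).comp (wv g j) = RingHom.id _ := by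
  refine MvPolynomial.ringHom_ext (fun a => ?_) (fun i => ?_)
  · show wu g j v hv (wv g j (MvPolynomial.C a)) = _
    have h1 : wv g j (MvPolynomial.C a) = qC (qf g) (MvPolynomial.C a) := by
      show MvPolynomial.eval₂ _ _ _ = _
      rw [MvPolynomial.eval₂_C]
      rfl
    rw [h1]
    show qlift _ _ _ _ = _
    rw [qlift_C]
    show MvPolynomial.eval₂ _ _ _ = _
    rw [MvPolynomial.eval₂_C]
    rfl
  · show wu g j v hv (wv g j (MvPolynomial.X i)) = _
    by_cases hi : i = j
    · have h1 : wv g j (MvPolynomial.X i) = qT (qf g) := by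
        show MvPolynomial.eval₂ _ _ _ = _
        rw [MvPolynomial.eval₂_X, if_pos hi]
      rw [h1]
      show qlift _ _ _ _ = _
      rw [qlift_T, hi]
      rfl
    · have h1 : wv g j (MvPolynomial.X i) = qC (qf g) (MvPolynomial.X i) := by
        show MvPolynomial.eval₂ _ _ _ = _
        rw [MvPolynomial.eval₂_X, if_neg hi]
      rw [h1]
      show qlift _ _ _ _ = _
      rw [qlift_C]
      show MvPolynomial.eval₂ _ _ _ = _
      rw [MvPolynomial.eval₂_X, if_neg hi]
      rfl

theorem wv_wu (g : σ → A) (j : σ) (v : A) (hv : g j * v = 1) :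
    (wv g j).comp (wu g j v hv) = RingHom.id _ := by
  have hC : ∀ a : A, wv g j (MvPolynomial.C a) = qC (qf g) (MvPolynomial.C a) := by
    intro a
    show MvPolynomial.eval₂ _ _ _ = _
    rw [MvPolynomial.eval₂_C]
    rfl
  have hj : wv g j (MvPolynomial.X j) = qT (qf g) := by
    show MvPolynomial.eval₂ _ _ _ = _
    rw [MvPolynomial.eval₂_X, if_pos rfl]
  have hX : ∀ i, i ≠ j → wv g j (MvPolynomial.X i) = qC (qf g) (MvPolynomial.X i) := by
    intro i hi
    show MvPolynomial.eval₂ _ _ _ = _
    rw [MvPolynomial.eval₂_X, if_neg hi]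
  refine q_hom_ext ?_ ?_
  · refine MvPolynomial.ringHom_ext (fun a => ?_) (fun i => ?_)
    · show wv g j (qlift _ _ _ (qC _ _)) = qC _ _
      rw [qlift_C]
      show wv g j (MvPolynomial.eval₂ _ _ _) = _
      rw [MvPolynomial.eval₂_C, hC]
    · show wv g j (qlift _ _ _ (qC _ _)) = qC _ _
      rw [qlift_C]
      show wv g j (MvPolynomial.eval₂ _ _ _) = _
      rw [MvPolynomial.eval₂_X]
      by_cases hi : i = j
      · rw [if_pos hi, map_mul, hC, map_sub, map_sub, map_mul, hj, map_sum, qT_mul]
        have h2 : ∑ x ∈ Finset.univ.erase j, wv g j (MvPolynomial.C (g x) * MvPolynomial.X x) =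
            qC (qf g) (∑ x ∈ Finset.univ.erase j, MvPolynomial.C (g x) * MvPolynomial.X x) := by
          rw [map_sum]
          refine Finset.sum_congr rfl fun i hi => ?_
          rw [map_mul, map_mul, hC, hX i (Finset.ne_of_mem_erase hi)]
        rw [h2, add_sub_cancel_right, ← map_sub, ← map_mul]
        refine congrArg (qC (qf g)) ?_
        have h3 : qf g - ∑ x ∈ Finset.univ.erase j, MvPolynomial.C (g x) * MvPolynomial.X x =
            MvPolynomial.C (g j) * MvPolynomial.X j := by
          unfold qf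
          rw [← Finset.add_sum_erase Finset.univ _ (Finset.mem_univ j), add_sub_cancel_right]
        rw [h3, ← mul_assoc, ← map_mul, mul_comm v, hv, map_one, one_mul, hi]
      · rw [if_neg hi, hX i hi]
  · show wv g j (qlift _ _ _ (qT _)) = qT _
    rw [qlift_T, hj]

end Unit

/-- if some `g j` is a unit, then `W` is a polynomial ring over `A` -/
theorem HI.wC_of_unit {N : WithTop ℤ} {𝒯 : GTheory.{u} N} [IsNoetherianRing A] (g : σ → A) (j : σ)
    (hj : IsUnit (g j)) : 𝒯.HI (wC g) := by
  classical
  obtain ⟨v, hv⟩ := hj.exists_right_inv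
  have h1 := wu_wv g j v hv
  have h2 := wv_wu g j v hv
  have h3 : Bijective (wv g j) := bijective_iff_has_inverse.2 ⟨wu g j v hv,
    fun x => RingHom.congr_fun h1 x, fun x => RingHom.congr_fun h2 x⟩
  refine ((GTheory.HI.mvPolynomial σ A).comp (GTheory.HI.of_bijective h3)).congr ?_
  refine RingHom.ext fun a => ?_
  show MvPolynomial.eval₂ _ _ (MvPolynomial.C a) = _
  rw [MvPolynomial.eval₂_C]

end Pool.Agent.GTH
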